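import Pool.Agent.P.MP_5fda20_pr.U.Path

/-! Barriers. -/

namespace Pool.Agent.P.MP_5fda20_pr.U

open Finset Real

lemma maxp' (D : Finset V) (g : V → ℝ) (h0 : ∀ x ∈ D, ∀ z ∈ nb x, z ∉ D → g z ≤ 0)
    (hs : ∀ v ∈ D, 4 * g v ≤ ∑ z ∈ nb v, g z) {u : V} (hu : u ∈ D) : g u ≤ 0 := by
  have := maxp wt_one D (fun z => if z ∈ D then g z else 0) (fun v hv => by simp [hv])
    (fun v hv => by
      rw [if_pos hv]
      refine (hs v hv).trans (sum_le_sum fun z hz => ?_)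
      split_ifs with h
      · simp
      · simpa using h0 v hv z hz h) u
  simpa [hu] using this

lemma le_E' {M : Type} {st : V → V → M → M} {Φ : V → M → ℝ} (D : Finset V) (u : V → ℝ)
    (h0 : ∀ z σ, 0 ≤ Φ z σ) (h1 : ∀ x ∈ D, ∀ z ∈ nb x, z ∉ D → ∀ σ, u z ≤ Φ z σ)
    (h2 : ∀ x ∈ D, 4 * u x ≤ ∑ z ∈ nb x, u z) {a : V} (ha : a ∈ D) (σ : M) :
    u a ≤ E (fun _ _ => 1) st Φ D a σ := by
  classical
  have := le_E (st := st) (Φ := Φ) wt_one D
    (fun z => if z ∈ D ∨ ∃ x ∈ D, z ∈ nb x then u z else 0) (fun z _ σ => h0 z σ)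
    (fun z hz σ => by
      split_ifs with h
      · obtain ⟨x, hx, hz'⟩ := h.resolve_left hz
        exact h1 x hx z hz' hz σ
      · exact h0 z σ)
    (fun x hx => by
      rw [if_pos (Or.inl hx)]
      refine (h2 x hx).trans_eq (sum_congr rfl fun z hz => ?_)
      rw [if_pos (Or.inr ⟨x, hx, hz⟩), one_mul]) a σ
  simpa [ha] using this

/-- rectangle above the origin -/
noncomputable def Rc (w h : ℕ) : Finset V := Icc (-(w : ℤ)) w ×ˢ Ico (0 : ℤ) h

lemma mem_Rc {w h : ℕ} {z : V} : z ∈ Rc w h ↔ (-(w : ℤ) ≤ z.1 ∧ z.1 ≤ w) ∧ 0 ≤ z.2 ∧ z.2 < h := by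
  simp [Rc]

lemma card_Rc (w h : ℕ) : (Rc w h).card = (2 * w + 1) * h := by
  simp only [Rc, card_product, Int.card_Icc, Int.card_Ico]
  congr 1; omega

/-- crossing weight of a rectangle -/
noncomputable def bt (w h : ℕ) : ℝ := 3 / (w + 1) * exp (-(3 / (w + 1) * (h + 1)))

lemma bt_pos (w h : ℕ) : 0 < bt w h := by unfold bt; positivity

lemma exp_conv {k : ℝ} (hk : 0 ≤ k) : k ^ 2 ≤ exp k + exp (-k) - 2 := by
  have h := Real.self_le_sinh_iff.mpr (show 0 ≤ k / 2 by linarith)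
  rw [Real.sinh_eq] at h
  have e1 : exp k = exp (k / 2) * exp (k / 2) := by rw [← exp_add]; ring_nf
  have e2 : exp (-k) = exp (-(k / 2)) * exp (-(k / 2)) := by rw [← exp_add]; ring_nf
  have e3 : exp (k / 2) * exp (-(k / 2)) = 1 := by rw [← exp_add]; simp
  nlinarith

lemma rect_barrier (w h : ℕ) : ∃ u : V → ℝ, (∀ x ∈ Rc w h, 4 * u x ≤ ∑ z ∈ nb x, u z) ∧
    (∀ x ∈ Rc w h, ∀ z ∈ nb x, z ∉ Rc w h → u z ≤ if z.2 = h then 1 else 0) ∧
    bt w h ≤ u (0, 0) := by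
  obtain ⟨W, hW⟩ : ∃ W : ℝ, W = w + 1 := ⟨_, rfl⟩
  have hW0 : 0 < W := by rw [hW]; positivity
  obtain ⟨k, hk⟩ : ∃ k : ℝ, k = 3 / W := ⟨_, rfl⟩
  have hk0 : 0 < k := by rw [hk]; positivity
  have hkW : k * W = 3 := by rw [hk]; field_simp
  obtain ⟨c, hc⟩ : ∃ c : ℝ, c = exp (-(k * (h + 1))) / W ^ 4 := ⟨_, rfl⟩
  have hc0 : 0 < c := by rw [hc]; positivity
  refine ⟨fun z => c * ((W ^ 2 - (z.1 : ℝ) ^ 2) ^ 2 * (exp (k * (z.2 + 1)) - 1)), ?_, ?_, ?_⟩
  · intro x hx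
    obtain ⟨-, h2, -⟩ := mem_Rc.mp hx
    rw [sum_nb]
    push_cast
    have hy : (0 : ℝ) ≤ x.2 := by exact_mod_cast h2
    have e1 : exp (k * (x.2 + 1 + 1)) = exp (k * (x.2 + 1)) * exp k := by rw [← exp_add]; ring_nf
    have e2 : exp (k * (x.2 - 1 + 1)) = exp (k * (x.2 + 1)) * exp (-k) := by
      rw [← exp_add]; ring_nf
    have e3 : 1 ≤ exp (k * (x.2 + 1)) := one_le_exp (by positivity)
    have e4 := exp_conv hk0.le
    rw [e1, e2]
    generalize exp (k * (x.2 + 1)) = P at *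
    generalize (x.1 : ℝ) = s
    have key : 0 ≤ (P - 1) * (-4 * W ^ 2 + 12 * s ^ 2 + 2) +
        (W ^ 2 - s ^ 2) ^ 2 * P * (exp k + exp (-k) - 2) := by
      have a1 : (W ^ 2 - s ^ 2) ^ 2 * P * k ^ 2 ≤
          (W ^ 2 - s ^ 2) ^ 2 * P * (exp k + exp (-k) - 2) :=
        mul_le_mul_of_nonneg_left e4 (by positivity)
      rcases le_total (W ^ 2) (3 * s ^ 2) with h3 | h3
      · have : 0 ≤ (W ^ 2 - s ^ 2) ^ 2 * P * k ^ 2 := by positivity
        nlinarith
      · have a2 : (2 / 3 * W ^ 2) ^ 2 ≤ (W ^ 2 - s ^ 2) ^ 2 :=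
          pow_le_pow_left₀ (by positivity) (by linarith) 2
        have a3 : (2 / 3 * W ^ 2) ^ 2 * P * k ^ 2 = 4 * W ^ 2 * P := by
          have : k ^ 2 * W ^ 2 = 9 := by rw [← mul_pow, hkW]; norm_num
          linear_combination (4 / 9 * W ^ 2 * P) * this
        have a4 : (2 / 3 * W ^ 2) ^ 2 * P * k ^ 2 ≤ (W ^ 2 - s ^ 2) ^ 2 * P * k ^ 2 := by
          gcongr
        nlinarith [sq_nonneg s, sq_nonneg W]
    nlinarith [mul_nonneg hc0.le key]
  · intro x hx z hz hz'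
    rw [mem_Rc] at hx hz'
    rw [mem_nb] at hz
    split_ifs with h1
    · have a1 : (-(w : ℝ) ≤ z.1 ∧ (z.1 : ℝ) ≤ w) := by
        constructor <;> norm_cast <;> omega
      have a2 : (W ^ 2 - (z.1 : ℝ) ^ 2) ^ 2 ≤ (W ^ 2) ^ 2 :=
        pow_le_pow_left₀ (by nlinarith) (by nlinarith) 2
      have a3 : c * ((W ^ 2) ^ 2 * exp (k * (h + 1))) = 1 := by
        rw [hc, exp_neg]; field_simp
      have a4 : 1 ≤ exp (k * (h + 1)) := one_le_exp (by positivity)
      simp only []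
      rw [h1]
      push_cast
      refine le_trans (mul_le_mul_of_nonneg_left (mul_le_mul a2 ?_ ?_ ?_) hc0.le) a3.le
      · linarith
      · linarith
      · positivity
    · have : z.2 = -1 ∨ z.1 = w + 1 ∨ z.1 = -(w + 1) := by omega
      rcases this with h2 | h2 | h2 <;> simp [h2, hW]
      ring_nf; rfl
  · have a1 : k ≤ exp k - 1 := by linarith [add_one_le_exp k]
    simp only [bt, ← hW, ← hk, hc]
    push_cast
    rw [zero_add, mul_one, mul_comm]
    calc exp (-(k * (h + 1))) * k ≤ exp (-(k * (h + 1))) * (exp k - 1) := by gcongr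
      _ = _ := by field_simp; ring

lemma rect_lower {e : V ≃ V} (he : Aut e) {w h : ℕ} (hh : 0 < h) (g : V → ℝ) {m : ℝ} (hm : 0 ≤ m)
    (h0 : ∀ x, 0 ≤ g x) (hs : ∀ x ∈ Rc w h, ∑ z ∈ nb (e x), g z ≤ 4 * g (e x))
    (ht : ∀ s : ℤ, -(w : ℤ) ≤ s → s ≤ w → m ≤ g (e (s, h))) : m * bt w h ≤ g (e (0, 0)) := by
  obtain ⟨u, h1, h2, h3⟩ := rect_barrier w h
  have := maxp' (Rc w h) (fun z => m * u z - g (e z)) (fun x hx z hz hz' => by
      have a := mul_le_mul_of_nonneg_left (h2 x hx z hz hz') hm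
      split_ifs at a with h4
      · have := ht z.1 (by rw [mem_Rc] at hx; rw [mem_nb] at hz; omega)
          (by rw [mem_Rc] at hx; rw [mem_nb] at hz; omega)
        rw [← h4] at this
        simp only [Prod.mk.eta] at this
        linarith
      · linarith [h0 (e z)])
    (fun v hv => by
      have a := mul_le_mul_of_nonneg_left (h1 v hv) hm
      have b := hs v hv
      rw [he.sum] at b
      rw [sum_sub_distrib, ← mul_sum]
      linarith) (u := (0, 0)) (mem_Rc.mpr (by simp; omega))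
  nlinarith

lemma G1_super (D : Finset V) (y : V) {x : V} (hx : x ∈ D) :
    ∑ z ∈ nb x, G1 D z y ≤ 4 * G1 D x y := by linarith [G1_eq hx y, dl_nonneg x y]

/-- squared distance -/
def sq2 (x m : V) : ℤ := (x.1 - m.1) ^ 2 + (x.2 - m.2) ^ 2

lemma log_super (x m : V) (h : 5 ≤ sq2 x m) :
    ∑ z ∈ nb x, log ((sq2 z m : ℝ) - 1) ≤ 4 * log ((sq2 x m : ℝ) - 1) := by
  rw [sum_nb]
  simp only [sq2] at *
  obtain ⟨a, ha⟩ : ∃ a, a = x.1 - m.1 := ⟨_, rfl⟩
  obtain ⟨b, hb⟩ : ∃ b, b = x.2 - m.2 := ⟨_, rfl⟩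
  rw [show x.1 + 1 - m.1 = a + 1 by omega, show x.1 - 1 - m.1 = a - 1 by omega,
    show x.2 + 1 - m.2 = b + 1 by omega, show x.2 - 1 - m.2 = b - 1 by omega, ← ha, ← hb]
  rw [← ha, ← hb] at h
  have p : ∀ a b : ℤ, 5 ≤ a ^ 2 + b ^ 2 → 1 < (a + 1) ^ 2 + b ^ 2 := by
    intro a b h
    by_contra hc
    have h1 : -2 ≤ a := by nlinarith
    have h2 : a ≤ 0 := by nlinarith
    have h3 : -1 ≤ b := by nlinarith
    have h4 : b ≤ 1 := by nlinarith
    interval_cases a <;> interval_cases b <;> omega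
  have p1 : (0 : ℝ) < (((a + 1) ^ 2 + b ^ 2 : ℤ) : ℝ) - 1 := by
    have := p a b h; rw [sub_pos]; exact_mod_cast this
  have p2 : (0 : ℝ) < (((a - 1) ^ 2 + b ^ 2 : ℤ) : ℝ) - 1 := by
    have := p (-a) b (by linarith); rw [sub_pos]; norm_cast; nlinarith
  have p3 : (0 : ℝ) < ((a ^ 2 + (b + 1) ^ 2 : ℤ) : ℝ) - 1 := by
    have := p b a (by linarith); rw [sub_pos]; norm_cast; nlinarith
  have p4 : (0 : ℝ) < ((a ^ 2 + (b - 1) ^ 2 : ℤ) : ℝ) - 1 := by
    have := p (-b) a (by linarith); rw [sub_pos]; norm_cast; nlinarith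
  rw [← log_mul p1.ne' p2.ne', ← log_mul (mul_pos p1 p2).ne' p3.ne',
    ← log_mul (mul_pos (mul_pos p1 p2) p3).ne' p4.ne', show (4 : ℝ) = (4 : ℕ) by norm_num,
    ← log_pow]
  refine log_le_log (by positivity) ?_
  have h' : (5 : ℝ) ≤ (a : ℝ) ^ 2 + b ^ 2 := by exact_mod_cast h
  push_cast
  nlinarith [sq_nonneg ((a : ℝ) ^ 2 - b ^ 2)]

lemma log_int_nonneg (N : ℤ) : 0 ≤ log ((N : ℝ) - 1) := by
  have := Real.log_intCast_nonneg (N - 1)
  rwa [Int.cast_sub, Int.cast_one] at this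

lemma G1_near {D : Finset V} {m : V} (h : ∀ x, sq2 x m ≤ 4 → x ∈ D) {x : V} (hx : sq2 x m ≤ 4) :
    1 / 64 ≤ G1 D x m := by
  have h0 : 1 / 4 ≤ G1 D m m := G_diag wt_one (h m (by simp [sq2]))
  have h1 : ∀ z ∈ nb m, 1 / 16 ≤ G1 D z m := fun z hz => by
    have := G1_nb (h z (by rw [mem_nb] at hz; unfold sq2; rcases hz with ⟨a, b | b⟩ | ⟨a, b | b⟩ <;>
      simp [a, b])) (nb_symm hz) m
    linarith
  have h2 : ∀ z ∈ nb x, z ∈ nb m → 1 / 64 ≤ G1 D x m := fun z hz hz' => by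
    linarith [G1_nb (h x hx) hz m, h1 z hz']
  unfold sq2 at hx
  obtain ⟨a, ha⟩ : ∃ a, a = x.1 - m.1 := ⟨_, rfl⟩
  obtain ⟨b, hb⟩ : ∃ b, b = x.2 - m.2 := ⟨_, rfl⟩
  rw [← ha, ← hb] at hx
  have a1 : -2 ≤ a := by nlinarith
  have a2 : a ≤ 2 := by nlinarith
  have a3 : -2 ≤ b := by nlinarith
  have a4 : b ≤ 2 := by nlinarith
  by_cases c1 : x = m
  · rw [c1]; linarith
  by_cases c2 : x ∈ nb m
  · linarith [h1 x c2]
  rw [mem_nb] at c2
  rw [Prod.ext_iff] at c1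
  by_cases c3 : a = 0
  · refine h2 (x.1, m.2 + b / 2) ?_ ?_ <;> rw [mem_nb] <;> dsimp only <;> omega
  by_cases c4 : b = 0
  · refine h2 (m.1 + a / 2, x.2) ?_ ?_ <;> rw [mem_nb] <;> dsimp only <;> omega
  · have : (a = 1 ∨ a = -1) ∧ (b = 1 ∨ b = -1) := by
      interval_cases a <;> interval_cases b <;> omega
    refine h2 (x.1, m.2) ?_ ?_ <;> rw [mem_nb] <;> dsimp only <;> omega

lemma G1_ball {D : Finset V} {m : V} {r : ℤ} (hr : 4 ≤ r) (h : ∀ x, sq2 x m ≤ r → x ∈ D) {x : V}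
    (hx : 16 * sq2 x m ≤ 9 * r) : 1 / (128 * log r) ≤ G1 D x m := by
  have hr' : (4 : ℝ) ≤ r := by exact_mod_cast hr
  have hl : 1 ≤ log r := by
    rw [le_log_iff_exp_le (by linarith)]; linarith [exp_one_lt_d9]
  have hs : ∀ z, 0 ≤ sq2 z m := fun z => by unfold sq2; positivity
  have hn : ∀ z, sq2 z m ≤ 4 → 1 / 64 ≤ G1 D z m := fun z hz =>
    G1_near (fun x hx => h x (hx.trans hr)) hz
  by_cases c : sq2 x m ≤ 4
  · refine le_trans ?_ (hn x c)
    exact one_div_le_one_div_of_le (by norm_num) (by linarith)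
  have key := maxp' (D.filter fun z => 5 ≤ sq2 z m)
    (fun z => (log r - log ((sq2 z m : ℝ) - 1)) / (64 * log r) - G1 D z m)
    (fun v _ z _ hz => by
      rw [mem_filter, not_and_or] at hz
      rw [sub_nonpos]
      by_cases c2 : sq2 z m ≤ 4
      · refine le_trans ?_ (hn z c2)
        rw [div_le_iff₀ (by positivity)]
        linarith [log_int_nonneg (sq2 z m)]
      · have c3 : r < sq2 z m := by
          by_contra hc
          exact hz.elim (fun h' => h' (h z (not_lt.mp hc))) fun h' => h' (by omega)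
        have : log r ≤ log ((sq2 z m : ℝ) - 1) := log_le_log (by linarith) (by
          have : r ≤ sq2 z m - 1 := by omega
          exact_mod_cast this)
        exact (div_nonpos_of_nonpos_of_nonneg (by linarith) (by positivity)).trans
          (G_nonneg wt_one _ _))
    (fun v hv => by
      obtain ⟨hv, hv'⟩ := mem_filter.mp hv
      have a := log_super v m hv'
      have b := G1_super D m hv
      rw [sum_sub_distrib, ← sum_div, sum_sub_distrib, sum_nb_const]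
      have : 4 * ((log r - log ((sq2 v m : ℝ) - 1)) / (64 * log r)) ≤
          (4 * log r - ∑ z ∈ nb v, log ((sq2 z m : ℝ) - 1)) / (64 * log r) := by
        rw [← mul_div_assoc]; gcongr; linarith
      linarith) (u := x) (mem_filter.mpr ⟨h x (by linarith [hs x]), by omega⟩)
  rw [sub_nonpos] at key
  refine le_trans ?_ key
  have c' : (5 : ℝ) ≤ sq2 x m := by exact_mod_cast (by omega : 5 ≤ sq2 x m)
  have hx' : 16 * (sq2 x m : ℝ) ≤ 9 * r := by exact_mod_cast hx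
  have a1 := log_le_sub_one_of_pos (show 0 < ((sq2 x m : ℝ) - 1) / r / (9 / 16) by
    have : 0 < (sq2 x m : ℝ) - 1 := by linarith
    positivity)
  have a2 : ((sq2 x m : ℝ) - 1) / r / (9 / 16) ≤ 1 := by
    rw [div_le_one (by norm_num), div_le_iff₀ (by linarith)]; linarith
  rw [log_div (by have : 0 < (sq2 x m : ℝ) - 1 := by linarith
                  positivity) (by norm_num), log_div (by linarith) (by linarith)] at a1
  have a3 : log (9 / 16) ≤ -(1 / 2) := by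
    have := log_le_sub_one_of_pos (show (0 : ℝ) < 3 / 4 by norm_num)
    rw [show (9 / 16 : ℝ) = (3 / 4) ^ 2 by norm_num, log_pow]
    push_cast; linarith
  rw [div_le_div_iff₀ (by positivity) (by positivity)]
  nlinarith

/-- reflection in a horizontal line followed by a translation -/
def flp (v : V) : V ≃ V where
  toFun z := (v.1 + z.1, v.2 - z.2)
  invFun z := (z.1 - v.1, v.2 - z.2)
  left_inv z := by simp
  right_inv z := by simp

lemma aut_flp (v : V) : Aut (flp v) := by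
  refine aut_of _ fun x z => ?_
  simp only [flp, Equiv.coe_fn_mk, mem_nb]
  omega

lemma aut_refl : Aut (Equiv.refl V) := aut_of _ fun _ _ => Iff.rfl

lemma bt_ge {j h : ℕ} (hj : 1 ≤ j) (hh : h ≤ 32 * j) : exp (-96) / j ≤ bt j h := by
  have hj' : (1 : ℝ) ≤ j := by exact_mod_cast hj
  have hh' : (h : ℝ) ≤ 32 * j := by exact_mod_cast hh
  unfold bt
  rw [div_eq_inv_mul]
  gcongr
  · rw [inv_eq_one_div, div_le_div_iff₀ (by positivity) (by positivity)]; linarith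
  · rw [div_mul_eq_mul_div, div_le_iff₀ (by positivity)]; linarith

lemma G1_point {j h : ℕ} (hj : 1 ≤ j) (h1 : 16 * j ≤ h) (h2 : h < 32 * j) {s : ℤ}
    (hs : -(j : ℤ) ≤ s ∧ s ≤ j) : 1 / (128 * log (16 * j ^ 2)) * (exp (-96) / j) * (exp (-96) / j) ≤
      G1 (Rc (16 * j) h) (0, 0) (s, h - 1) := by
  have hj' : (1 : ℝ) ≤ j := by exact_mod_cast hj
  have hl : 0 < log (16 * (j : ℝ) ^ 2) := log_pos (by nlinarith)
  refine le_trans (mul_le_mul_of_nonneg_left (bt_ge (h := 8 * j) hj (by omega)) (by positivity)) ?_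
  refine rect_lower aut_refl (by omega) (fun x => G1 (Rc (16 * j) h) x (s, h - 1)) (by positivity)
    (fun x => G_nonneg wt_one _ _) (fun x hx => G1_super _ _ ?_) fun x hx hx' => ?_
  · simp only [mem_Rc, Equiv.refl_apply] at *; omega
  rw [G1_symm]
  refine le_trans (mul_le_mul_of_nonneg_left (bt_ge (h := h - 1 - 8 * j) hj (by omega))
    (by positivity)) ?_
  have := rect_lower (aut_flp (s, h - 1)) (w := j) (h := h - 1 - 8 * j) (by omega)
    (fun z => G1 (Rc (16 * j) h) z (x, (8 * j : ℕ))) (m := 1 / (128 * log (16 * j ^ 2)))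
    (by positivity) (fun x => G_nonneg wt_one _ _) (fun x hx => G1_super _ _ ?_) fun t ht ht' => ?_
  · simpa [flp] using this
  · simp only [mem_Rc, flp, Equiv.coe_fn_mk] at *; omega
  · have := G1_ball (D := Rc (16 * j) h) (m := (x, (8 * j : ℕ))) (r := 16 * j ^ 2) (by nlinarith)
      (x := flp (s, h - 1) (t, (h - 1 - 8 * j : ℕ))) (fun z hz => ?_) ?_
    · simpa using this
    · simp only [sq2] at hz
      have b1 := abs_le_of_sq_le_sq' (a := z.1 - x) (b := 4 * j) (by nlinarith) (by omega)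
      have b2 := abs_le_of_sq_le_sq' (a := z.2 - (8 * j : ℕ)) (b := 4 * j) (by nlinarith) (by omega)
      rw [mem_Rc]; omega
    · simp only [sq2, flp, Equiv.coe_fn_mk]
      rw [show (h : ℤ) - 1 - (h - 1 - 8 * j : ℕ) - (8 * j : ℕ) = 0 by omega]
      have : (s + t - x) ^ 2 ≤ (3 * j) ^ 2 := sq_le_sq' (by omega) (by omega)
      nlinarith

end Pool.Agent.P.MP_5fda20_pr.U
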