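import Pool.Agent.P.MP_5fda20_pr.U.Cut
import Pool.Agent.P.MP_5fda20_pr.U.Bar

/-! The crossing kernel of a rectangle. -/

namespace Pool.Agent.P.MP_5fda20_pr.U

open Finset Real

/-- area and length accumulated along a step -/
def stB (c : ℤ) (a z : V) (σ : ℤ × ℕ) : ℤ × ℕ := (σ.1 + (z.1 - a.1) * (c - a.2), σ.2 + 1)

/-- terminal weight -/
def Ph (n : ℤ) (ω : ℕ → ℝ) (z : V) (σ : ℤ × ℕ) : ℝ := if z.2 = n ∧ σ.1 = 0 then ω σ.2 else 0

/-- crossing kernel -/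
noncomputable def K (ω : ℕ → ℝ) (w h : ℕ) (p : ℤ × ℤ) : ℝ :=
  E (fun _ _ => 1) (stB h) (fun z σ => if z = (p.1, (h : ℤ)) ∧ σ.1 = p.2 then ω σ.2 else 0)
    (Rc w h) (0, 0) (0, 0)

/-- range of the kernel -/
noncomputable def Bx (w h : ℕ) : Finset (ℤ × ℤ) :=
  Icc (-(w : ℤ)) w ×ˢ Icc (-((2 * w + 1) * h * h : ℤ)) ((2 * w + 1) * h * h)

/-- unweighted cut sum at depth `t` -/
noncomputable def M1 (n : ℤ) (k : ℕ) (t x σ : ℤ) : ℝ :=
  Mk n (stB n) (Ph n fun _ => 1) k (n - t) (x, n - t) (σ, 0)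

variable {ω : ℕ → ℝ}

lemma Ph_nonneg (h0 : ∀ l, 0 ≤ ω l) (n : ℤ) (z : V) (σ : ℤ × ℕ) : 0 ≤ Ph n ω z σ := by
  unfold Ph; split_ifs; exacts [h0 _, le_rfl]

lemma K_nonneg (h0 : ∀ l, 0 ≤ ω l) (w h : ℕ) (p : ℤ × ℤ) : 0 ≤ K ω w h p :=
  E_nonneg wt_one (fun z σ => by split_ifs; exacts [h0 _, le_rfl]) _ _ _

lemma M1_nonneg (n : ℤ) (k : ℕ) (t x σ : ℤ) : 0 ≤ M1 n k t x σ :=
  Mk_nonneg (Ph_nonneg (fun _ => zero_le_one) n) _ _ _ _ _

lemma Mk_wt (hm : Monotone ω) (n : ℤ) (k : ℕ) (y : ℤ) (z : V) (s : ℤ)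
    (l : ℕ) : ω l * Mk n (stB n) (Ph n fun _ => 1) k y z (s, 0) ≤
      Mk n (stB n) (Ph n ω) k y z (s, l) := by
  rw [Mk, mul_sum]
  refine sum_le_sum fun S _ => ?_
  rw [← E_smul]
  refine E_sim (wt_qS S) (fun _ _ σ σ' => σ.1 = σ'.1 ∧ l ≤ σ'.2) ?_ ?_ _ _ _ _ ⟨rfl, le_rfl⟩
  · rintro _ a σ σ' ⟨h1, h2⟩ _
    simp only [Ph, h1]
    split_ifs
    · simpa using hm h2
    · simp
  · rintro _ a σ σ' ⟨h1, h2⟩ _ z _
    exact ⟨by simp [stB, h1], by simp only [stB]; omega⟩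

lemma K_step (h0 : ∀ l, 0 ≤ ω l) (hm : Monotone ω) (n : ℤ) (k : ℕ) (t x σ : ℤ) (w : ℕ)
    (H : Finset ℕ) (hH : ∀ h ∈ H, 0 < h ∧ (h : ℤ) ≤ t) (hx : (w : ℤ) < x) (hx' : x + w < n) :
    ∑ h ∈ H, ∑ p ∈ Bx w h, K ω w h p * M1 n k (t - h) (x + p.1) (σ + p.2 + p.1 * (t - h)) ≤
      Mk n (stB n) (Ph n ω) (k + 1) (n - t) (x, n - t) (σ, 0) := by
  refine le_trans ?_ (Mk_step (Ph_nonneg h0 n) (fun z σ hz => by simp [Ph, hz]) k
    (H.image fun h : ℕ => n - t + h) ?_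
    (fun y => (Rc w (y - (n - t)).toNat).map (Equiv.addRight (x, n - t)).toEmbedding) ?_ _ _)
  · rw [sum_image fun a _ b _ h => by simpa using h]
    refine sum_le_sum fun h hh => ?_
    rw [show (n - t + h - (n - t)).toNat = h by omega]
    have e : ((x, n - t) : V) = Equiv.addRight ((x, n - t) : V) (0, 0) := by simp
    conv_rhs => arg 5; rw [e]
    rw [E_aut (aut_add _)]
    simp only [K, mul_comm (E _ _ _ _ _ _)]
    rw [← E_sum]
    refine E_sim wt_one (fun _ z τ τ' => τ'.1 = σ + τ.1 + z.1 * (t - h) ∧ τ'.2 = τ.2) ?_ ?_ _ _ _ _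
      ⟨by simp, rfl⟩
    · rintro _ z τ τ' ⟨h1, h2⟩ _
      have hn : 0 ≤ if (Equiv.addRight ((x, n - t) : V) z).2 = n - t + h then
          Mk n (stB n) (Ph n ω) k (n - t + h) (Equiv.addRight ((x, n - t) : V) z) τ' else 0 := by
        split_ifs
        · exact Mk_nonneg (Ph_nonneg h0 n) _ _ _ _ _
        · exact le_rfl
      by_cases hz : z.2 = h ∧ (z.1, τ.1) ∈ Bx w h
      · rw [sum_eq_single_of_mem _ hz.2 fun p _ hp => by
          rw [if_neg, mul_zero]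
          rintro ⟨rfl, h3⟩
          exact hp (Prod.ext rfl h3.symm)]
        have e1 : Equiv.addRight ((x, n - t) : V) z = (x + z.1, n - (t - h)) := by
          ext <;> simp [hz.1] <;> ring
        rw [if_pos ⟨Prod.ext rfl hz.1, rfl⟩, e1, if_pos (by ring), mul_comm,
          show n - t + h = n - (t - h) by ring, show τ' = (σ + τ.1 + z.1 * (t - h), τ.2) from
            Prod.ext h1 h2]
        exact Mk_wt hm _ _ _ _ _ _
      · rw [sum_eq_zero fun p hp => ?_]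
        · exact hn
        · rw [if_neg, mul_zero]
          rintro ⟨rfl, h3⟩
          exact hz ⟨rfl, h3 ▸ hp⟩
    · rintro _ a τ τ' ⟨h1, h2⟩ _ z _
      refine ⟨?_, by simp [stB, h2]⟩
      simp only [stB, h1, Equiv.coe_addRight, Prod.fst_add, Prod.snd_add]
      ring
  · intro y hy
    obtain ⟨h, hh, rfl⟩ := mem_image.mp hy
    have := hH h hh
    rw [mem_Ioc]; omega
  · intro y hy z hz
    obtain ⟨h, hh, rfl⟩ := mem_image.mp hy
    have := hH h hh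
    obtain ⟨v, hv, rfl⟩ := mem_map.mp hz
    rw [mem_Rc] at hv
    simp only [mem_Dm, Equiv.coe_toEmbedding, Equiv.coe_addRight, Prod.fst_add, Prod.snd_add]
    omega

lemma K_mass (h0 : ∀ l, 0 ≤ ω l) {w h : ℕ} (hh : 0 < h) (P : ℤ → Prop) [DecidablePred P] :
    E (fun _ _ => 1) (stB h) (fun z σ => if z.2 = h ∧ P z.1 then ω σ.2 else 0) (Rc w h) (0, 0)
      (0, 0) ≤ ∑ p ∈ (Bx w h).filter (fun p => P p.1), K ω w h p := by
  have := E_sum (q := fun _ _ => 1) (st := stB h) ((Bx w h).filter fun p => P p.1) (fun _ => 1)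
    (fun p z σ => if z = (p.1, (h : ℤ)) ∧ σ.1 = p.2 then ω σ.2 else 0) (Rc w h) (0, 0) (0, 0)
  simp only [one_mul] at this
  simp only [K, ← this]
  refine E_sim wt_one (fun D z (τ τ' : ℤ × ℕ) => τ' = τ ∧ D ⊆ Rc w h ∧
    (z.2 = h → -(w : ℤ) ≤ z.1 ∧ z.1 ≤ w) ∧ |τ.1| + D.card * h ≤ (2 * w + 1) * h * h) ?_ ?_ _ _ _ _
    ⟨rfl, Subset.rfl, by simp only []; omega, by simp [card_Rc]⟩
  · rintro D z _ τ ⟨rfl, -, h2, h3⟩ _
    split_ifs with hz
    · have hb : |τ.1| ≤ (2 * w + 1) * h * h := le_trans (le_add_of_nonneg_right (by positivity)) h3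
      refine le_trans (le_of_eq ?_) (single_le_sum (a := (z.1, τ.1)) (fun p _ => ?_) ?_)
      · rw [if_pos ⟨Prod.ext rfl hz.1, rfl⟩]
      · split_ifs; exacts [h0 _, le_rfl]
      · simp only [Bx, mem_filter, mem_product, mem_Icc]
        exact ⟨⟨h2 hz.1, abs_le.mp hb⟩, hz.2⟩
    · exact sum_nonneg fun p _ => by split_ifs; exacts [h0 _, le_rfl]
  · rintro D a _ τ ⟨rfl, h1, -, h3⟩ ha z hz
    have h4 := mem_Rc.mp (h1 ha)
    rw [mem_nb] at hz
    refine ⟨rfl, (erase_subset _ _).trans h1, by omega, ?_⟩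
    have h5 : ((D.erase a).card : ℤ) = D.card - 1 := by
      rw [card_erase_of_mem ha]; have := card_pos.mpr ⟨a, ha⟩; omega
    have h6 : |(z.1 - a.1) * (h - a.2)| ≤ h := by
      rcases hz with ⟨-, h | h⟩ | ⟨h, -⟩ <;> simp [h, abs_le] <;> omega
    have := abs_add_le τ.1 ((z.1 - a.1) * (h - a.2))
    simp only [stB, h5]
    linarith

lemma K_tot {w h : ℕ} (hh : 0 < h) : bt w h ≤ ∑ p ∈ Bx w h, K (fun _ => 1) w h p := by
  obtain ⟨u, h1, h2, h3⟩ := rect_barrier w h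
  have := K_mass (ω := fun _ => 1) (w := w) (fun _ => zero_le_one) hh fun _ => True
  rw [filter_true] at this
  refine h3.trans (le_trans (le_E' _ u (fun z σ => ?_) (fun x hx z hz hz' σ => ?_) h1
    (mem_Rc.mpr (by simp; omega)) _) this)
  · split_ifs <;> norm_num
  · simpa using h2 x hx z hz hz'

lemma K_pt {w h : ℕ} (hh : 0 < h) (s : ℤ) :
    G1 (Rc w h) (0, 0) (s, h - 1) ≤
      ∑ p ∈ (Bx w h).filter (fun p => p.1 = s), K (fun _ => 1) w h p := by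
  refine le_trans ?_ (K_mass (ω := fun _ => 1) (w := w) (fun _ => zero_le_one) hh fun x => x = s)
  have := le_E' (st := stB h) (Φ := fun z _ => if z.2 = h ∧ z.1 = s then 1 else 0) (Rc w h)
    (fun z => G1 (Rc w h) z (s, h - 1) + dl z (s, h)) (fun z σ => by split_ifs <;> norm_num)
    (fun x _ z _ hz σ => by
      rw [G1, G_off hz, zero_add, dl]
      simp only [Prod.ext_iff, and_comm, le_refl])
    (fun x hx => by
      have hx' := mem_Rc.mp hx
      rw [dl_ne (by rintro rfl; simp at hx'), add_zero, G1_eq hx, sum_add_distrib, add_comm]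
      refine add_le_add le_rfl ?_
      by_cases h1 : x = (s, (h : ℤ) - 1)
      · rw [h1, dl_self, ← dl_self (s, (h : ℤ))]
        exact single_le_sum (f := fun z => dl z (s, (h : ℤ))) (fun z _ => dl_nonneg _ _)
          (mem_nb.mpr (by simp))
      · rw [dl_ne h1]; exact sum_nonneg fun z _ => dl_nonneg _ _)
    (a := (0, 0)) (mem_Rc.mpr (by simp; omega)) (0, 0)
  linarith [dl_nonneg ((0, 0) : V) (s, h)]

lemma run_le {n ε : ℤ} (hε : ε = 1 ∨ ε = -1) (r : ℕ) : ∀ (D : Finset V) (x : ℤ) (l : ℕ),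
    (∀ i : ℕ, i ≤ r → (x - ε * i, n - 1) ∈ D) → (∀ z ∈ D, z.2 < n) →
    (1 / 4) ^ (r + 1) ≤ E (fun _ _ => 1) (stB n) (Ph n fun _ => 1) D (x, n - 1) (ε * r, l) := by
  have hp := Ph_nonneg (ω := fun _ => 1) (fun _ => zero_le_one) n
  have key : ∀ (D : Finset V) (a : V) σ, a ∈ D → ∀ z ∈ nb a,
      1 / 4 * E (fun _ _ => 1) (stB n) (Ph n fun _ => 1) (D.erase a) z (stB n a z σ) ≤
        E (fun _ _ => 1) (stB n) (Ph n fun _ => 1) D a σ := by
    intro D a σ ha z hz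
    rw [E_in ha]
    simp only [one_mul]
    exact mul_le_mul (G_diag wt_one ha) (single_le_sum (f := fun z => E (fun _ _ => 1) (stB n)
      (Ph n fun _ => 1) (D.erase a) z (stB n a z σ)) (fun z _ => E_nonneg wt_one hp _ _ _) hz)
      (E_nonneg wt_one hp _ _ _) (G_nonneg wt_one _ _)
  induction r with
  | zero =>
    intro D x l h1 h2
    refine le_trans ?_ (key D _ _ (by simpa using h1 0 le_rfl) (x, n) (mem_nb.mpr (by simp)))
    rw [E_out fun h => by simpa using h2 _ (mem_of_mem_erase h)]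
    simp [Ph, stB]
  | succ r ih =>
    intro D x l h1 h2
    refine le_trans ?_ (key D _ _ (by simpa using h1 0 (by omega)) (x - ε, n - 1)
      (mem_nb.mpr (by dsimp only; omega)))
    rw [pow_succ', show stB n (x, n - 1) (x - ε, n - 1) (ε * (r + 1 : ℕ), l) = (ε * r, l + 1) by
      simp only [stB]; congr 1; push_cast; ring]
    refine mul_le_mul_of_nonneg_left (ih _ _ _ (fun i hi => mem_erase.mpr ⟨?_, ?_⟩)
      fun z hz => h2 z (mem_of_mem_erase hz)) (by norm_num)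
    · rcases hε with rfl | rfl <;> simp [Prod.ext_iff] <;> omega
    · convert h1 (i + 1) (by omega) using 2; push_cast; ring

lemma M1_base {n x σ : ℤ} {R : ℕ} (hσ : |σ| ≤ R) (hx : (R : ℤ) < x) (hx' : x + R < n) :
    (1 / 4) ^ (R + 1) ≤ M1 n 0 1 x σ := by
  have hp := Ph_nonneg (ω := fun _ => 1) (fun _ => zero_le_one) n
  obtain ⟨ε, r, hε, rfl, hr⟩ : ∃ (ε : ℤ) (r : ℕ), (ε = 1 ∨ ε = -1) ∧ σ = ε * r ∧ r ≤ R := by
    rw [abs_le] at hσ
    rcases le_total 0 σ with h | h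
    · exact ⟨1, σ.toNat, Or.inl rfl, by omega, by omega⟩
    · exact ⟨-1, (-σ).toNat, Or.inr rfl, by omega, by omega⟩
  refine le_trans (pow_le_pow_of_le_one (by norm_num) (by norm_num) (by omega : r + 1 ≤ R + 1)) ?_
  refine le_trans (run_le (n := n) hε r (Dm n (n - 1)) x 0 (fun i hi => mem_Dm.mpr ?_) fun z hz => ?_) ?_
  · rcases hε with rfl | rfl <;> dsimp only <;> omega
  · have := mem_Dm.mp hz; omega
  · rw [← qS_empty, M1, Mk]
    exact single_le_sum (f := fun S => E (qS S) (stB n) (Ph n fun _ => 1) (Dm n (n - 1))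
      (x, n - 1) (ε * r, 0)) (fun S _ => E_nonneg (wt_qS S) hp _ _ _)
      (by simp)

end Pool.Agent.P.MP_5fda20_pr.U
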