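import Pool.Agent.P.MP_5fda20_pr.U.Rat
import Pool.Agent.P.MP_5fda20_pr.U.Ker

/-! The expected length of a crossing. -/

namespace Pool.Agent.P.MP_5fda20_pr.U

open Finset Real

lemma Yv_diag {h j : ℕ} {k : ℤ} {ρ : ℝ} (hj : 0 < j) (h1 : 20 * j ≤ k) (h2 : k + 20 * j ≤ h)
    (h3 : h ≤ 120 * j) (hρ' : ρ ^ 4 ≤ j / 8) :
    ρ / (3 * 10 ^ 11 * j) ≤ ∑ a ∈ Icc (2 : ℤ) h, Yv (h + 1) (k, k) (Sq h) (a, 1) 0 := by
  let s : V → ℝ := fun v => if v.1 ≠ v.2 ∧ (v.1 = 1 ∨ v.2 = 1) then 1 else 0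
  let t : V → ℝ := fun v => if v.1 ≠ v.2 ∧ (v.1 = h ∨ v.2 = h) then 1 else 0
  have hD : ∀ v : V, v.swap ∈ Sq h ↔ v ∈ Sq h := fun v => by
    simp only [mem_Sq, Prod.fst_swap, Prod.snd_swap]; omega
  have hs : ∀ v, s v.swap = s v := fun v =>
    if_congr (by simp only [Prod.fst_swap, Prod.snd_swap]; omega) rfl rfl
  have ht : ∀ v, t v.swap = t v := fun v =>
    if_congr (by simp only [Prod.fst_swap, Prod.snd_swap]; omega) rfl rfl
  have s0 : ∀ v, 0 ≤ s v := fun v => by simp only [s]; positivity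
  have t0 : ∀ v, 0 ≤ t v := fun v => by simp only [t]; positivity
  obtain ⟨A, hA⟩ := sol_ex sg_one ((Sq h).filter fun v => v.1 ≠ v.2 ∨ k < v.1) t
  obtain ⟨A', hA'⟩ := sol_ex sg_one ((Sq h).filter fun v => v.1 ≠ v.2 ∨ k < v.1) s
  obtain ⟨B, hB⟩ := sol_ex sg_one ((Sq h).filter fun v => v.1 ≠ v.2 ∨ v.1 ≤ k) t
  obtain ⟨B', hB'⟩ := sol_ex sg_one ((Sq h).filter fun v => v.1 ≠ v.2 ∨ v.1 ≤ k) s
  have A0 := hA.nonneg fun v _ => t0 v
  have A0' := hA'.nonneg fun v _ => s0 v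
  have B0 := hB.nonneg fun v _ => t0 v
  have B0' := hB'.nonneg fun v _ => s0 v
  have hsw : ∀ v : V, v.swap ∈ (Sq h).filter (fun v => v.1 ≠ v.2 ∨ v.1 ≤ k) ↔
      v ∈ (Sq h).filter fun v => v.1 ≠ v.2 ∨ v.1 ≤ k := fun v => by
    simp only [mem_filter, hD, Prod.fst_swap, Prod.snd_swap]
    exact and_congr_right fun _ => by omega
  have e1 := hB.swap hsw ht k (k + 1)
  have e2 := hB'.swap hsw hs k (k + 1)
  have e3 : A (k, k) = 0 := hA.1 _ fun h => by simpa using (mem_filter.mp h).2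
  have e4 : A' (k, k) = 0 := hA'.1 _ fun h => by simpa using (mem_filter.mp h).2
  have hH := (sol_lo hD ht (fun i _ => if_neg (by simp)) hA).lin
    (sol_hi hD ht (fun i _ => if_neg (by simp)) hB) (1 / 2) (1 / 2)
    (f'' := fun v => if v.2 = h ∧ v.1 < h then 1 else 0) fun v hv => by
      rw [mem_Sq] at hv
      simp only [t, ep]
      split_ifs <;> first | omega | norm_num
  choose u hu using fun a : ℤ => sol_ex (sg_qd k) (Sq h) fun v => dl v (a, 1)
  have hU := (sol_sum (Icc (2 : ℤ) h) fun a _ => hu a).uniq (sg_qd k)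
    ((sol_lo hD hs (fun i _ => if_neg (by simp)) hA').lin
      (sol_hi hD hs (fun i _ => if_neg (by simp)) hB') (1 / 2) (-1 / 2) fun _ _ => rfl)
    fun v hv => by
      rw [mem_Sq] at hv
      have : ∑ a ∈ Icc (2 : ℤ) h, dl v (a, 1) = if v.2 = 1 ∧ 2 ≤ v.1 then 1 else 0 := by
        split_ifs with h1
        · rw [sum_eq_single_of_mem v.1 (mem_Icc.mpr (by omega)) fun b _ hb =>
            dl_ne fun e => hb (by rw [e]), ← h1.1, dl_self]
        · exact sum_eq_zero fun b hb => dl_ne fun e => h1 (by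
            rw [e]; exact ⟨rfl, (mem_Icc.mp hb).1⟩)
      rw [this]
      simp only [s, ep]
      split_ifs <;> first | omega | norm_num
  set Y := ∑ a ∈ Icc (2 : ℤ) h, Yv (h + 1) (k, k) (Sq h) (a, 1) 0
  have key : ∀ y ∈ nb (k, k), y ∈ Sq h → (∀ D, y ∉ D → Triv (zv y) D → Triv (qd k) D) →
      dq (qd k) (Sq h) * (B' (k, k) / 2 * (1 / 2 * A y + 1 / 2 * (ep y * B y)) +
        (1 / 2 * A' y + -1 / 2 * (ep y * B' y)) * (B (k, k) / 2)) ≤ Z (Sq h) * Y := by
    intro y hy hy1 hy2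
    have := sum_le_sum (s := Icc (2 : ℤ) h) fun a ha => fomin (h := h + 1) (sg_qd k) hy
      (fun v => by split_ifs <;> first | omega | norm_num) (fun D _ => triv_qd) hy2 (Sq h)
      (fun v hv => by rw [mem_Sq] at hv; omega) (mem_Sq.mpr (by dsimp only; omega)) hy1 (a, 1) _ _
      ⟨fun _ => 1, by simp, fun u hu v hv huv => by
        simp only [mem_erase, mem_Sq, Ne, Prod.ext_iff] at hu hv
        rw [mem_nb] at huv
        rw [zv, if_neg (by dsimp only; omega), mul_one]⟩ (hu a) hH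
    rw [← mul_sum, ← mul_sum] at this
    refine le_trans (mul_le_mul_of_nonneg_left (le_trans ?_ (abs_sum_le_sum_abs _ _))
      (dq_nonneg _ _)) this
    rw [sum_sub_distrib, ← sum_mul, ← sum_mul, congrFun hU, congrFun hU, e3, e4]
    refine le_trans (le_of_eq ?_) (neg_le_abs _)
    simp only [ep, lt_irrefl, if_false]
    ring
  have k1 := key (k + 1, k) (mem_nb.mpr (by simp)) (mem_Sq.mpr (by dsimp only; omega))
    fun D hy h => triv_qd ((tr_rt (c := (k, k)) (Or.inl hy)).mpr h)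
  have k2 := key (k, k + 1) (mem_nb.mpr (by simp)) (mem_Sq.mpr (by dsimp only; omega))
    fun D hy h => triv_qd ((tr_up (c := (k, k)) (Or.inl hy)).mpr h)
  rw [show ep (k + 1, k) = -1 from if_pos (by simp)] at k1
  rw [show ep (k, k + 1) = 1 from if_neg (by simp), e1, e2] at k2
  have b1 : sig j / (30000 * j) ≤ B' (k, k) := esc hj (by omega) h2 h3 B0' fun v hv hv' => by
    simpa using (hB'.2 v (mem_filter.mpr ⟨hv, hv'⟩)).ge
  have b2 := esc (u := fun v => A (h + 1 - v.1, h + 1 - v.2)) (k := h - k) hj (by omega) (by omega)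
    h3 (fun v => A0 _) fun v hv hv' => by
      have := (hA.2 (h + 1 - v.1, h + 1 - v.2) (by
        simp only [mem_filter, mem_Sq] at hv ⊢; omega)).ge
      have e : t (h + 1 - v.1, h + 1 - v.2) = s v := if_congr (by dsimp only; omega) rfl rfl
      simp only [sum_nb, one_mul, e] at this ⊢
      rw [show (h : ℤ) + 1 - (v.1 + 1) = h + 1 - v.1 - 1 by ring,
        show (h : ℤ) + 1 - (v.1 - 1) = h + 1 - v.1 + 1 by ring,
        show (h : ℤ) + 1 - (v.2 + 1) = h + 1 - v.2 - 1 by ring,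
        show (h : ℤ) + 1 - (v.2 - 1) = h + 1 - v.2 + 1 by ring]
      linarith
  rw [show (h : ℤ) + 1 - (h - k) = k + 1 by ring] at b2
  have b3 : A (k + 1, k + 1) ≤ 4 * A (k + 1, k) := by
    rw [hA.2 (k + 1, k) (by simp only [mem_filter, mem_Sq]; omega), sum_nb]
    simp only [one_mul]
    linarith [t0 (k + 1, k), A0 (k + 1 + 1, k), A0 (k + 1 - 1, k), A0 (k + 1, k - 1)]
  have hZ := Z_pos (Sq h)
  have b4 : ρ * Z (Sq h) ≤ dq (qd k) (Sq h) := (le_div_iff₀ hZ).mp (le_of_pow_le_pow_left₀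
    (by norm_num) (div_nonneg (dq_nonneg _ _) hZ.le) (hρ'.trans (ratio hj (by omega) (by omega))))
  have hjr : (0 : ℝ) < j := by exact_mod_cast hj
  have b5 : 0 ≤ sig j / (30000 * j) := by
    have : 0 < sig j := div_pos pi_pos (by linarith [pr_pos j])
    positivity
  have b6 : 32 / (3 * 10 ^ 11 * j) ≤ (sig j / (30000 * j)) ^ 2 := by
    rw [div_pow, div_le_div_iff₀ (by positivity) (by positivity)]
    nlinarith [mul_le_mul_of_nonneg_right (sig_sq j).1 hjr.le]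
  have b7 : 32 / (3 * 10 ^ 11 * j) ≤ B' (k, k) * (4 * A (k + 1, k)) :=
    b6.trans (by rw [sq]; exact mul_le_mul b1 (b2.trans b3) b5 (B0' _))
  refine le_of_mul_le_mul_left ?_ hZ
  have b8 := mul_le_mul b4 b7 (by positivity) (dq_nonneg _ _)
  have b9 : 0 ≤ dq (qd k) (Sq h) * (B' (k, k) * A (k, k + 1) +
      (A' (k + 1, k) + A' (k, k + 1)) * B (k, k)) :=
    mul_nonneg (dq_nonneg _ _) (add_nonneg (mul_nonneg (B0' _) (A0 _))
      (mul_nonneg (add_nonneg (A0' _) (A0' _)) (B0 _)))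
  have e : ρ * Z (Sq h) * (32 / (3 * 10 ^ 11 * j)) = 32 * (Z (Sq h) * (ρ / (3 * 10 ^ 11 * j))) := by
    ring
  linarith

lemma Yv_shift {h w : ℕ} (hw : h ≤ w) (x : V) {a : ℤ} (h1 : 1 ≤ a) (h2 : a ≤ h) :
    Yv (h + 1) x (Sq h) (a, 1) 0 ≤ Yv h (x + (-a, -1)) (Rc w h) (0, 0) 0 := by
  have e := E_aut (q := fun _ _ => 1) (st := fun b _ (σ : ℕ) => if b = x + (-a, -1) then 1 else σ)
    (Φ := fun z σ => if z.2 = h then (σ : ℝ) else 0) (aut_add (-a, -1)) (Sq h) (a, 1) 0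
  simp only [Equiv.coe_addRight, add_left_inj, Prod.mk_add_mk, add_neg_cancel, Prod.snd_add,
    add_neg_eq_iff_eq_add] at e
  refine e.symm.trans_le (E_dom wt_one wt_one (fun _ _ => by positivity) (fun z hz => ?_)
    (fun z hz σ => ?_) (fun _ _ _ _ => Or.inl le_rfl) (fun _ _ _ _ => le_rfl) _ _)
  · obtain ⟨v, hv, rfl⟩ := mem_map.mp hz
    rw [mem_Sq] at hv
    simp only [mem_Rc, Equiv.coe_toEmbedding, Equiv.coe_addRight, Prod.fst_add, Prod.snd_add]
    omega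
  · rw [if_neg (mem_Rc.mp hz).2.2.ne]

lemma Yv_sum {ω : ℕ → ℝ} {B : ℕ} (hω : ∀ l ≤ B, (l : ℝ) ≤ ω l) (h : ℤ) (S D : Finset V) :
    ∀ (a : V) (c : V → ℕ) (σ : ℤ × ℕ), ∑ x ∈ S, c x ≤ σ.2 → σ.2 + D.card ≤ B →
      ∑ x ∈ S, Yv h x D a (c x) ≤
        E (fun _ _ => 1) (stB h) (fun z σ => if z.2 = h ∧ True then ω σ.2 else 0) D a σ := by
  refine ind_erase (P := fun D => ∀ (a : V) (c : V → ℕ) (σ : ℤ × ℕ), ∑ x ∈ S, c x ≤ σ.2 →
    σ.2 + D.card ≤ B → ∑ x ∈ S, Yv h x D a (c x) ≤ E (fun _ _ => 1) (stB h)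
      (fun z σ => if z.2 = h ∧ True then ω σ.2 else 0) D a σ) (fun D ih a c σ h1 h2 => ?_) D
  by_cases ha : a ∈ D
  · simp only [Yv_in ha]
    rw [E_in ha, ← mul_sum, sum_comm]
    refine mul_le_mul_of_nonneg_left (sum_le_sum fun z _ => ?_) (G_nonneg wt_one _ _)
    rw [one_mul]
    refine ih a ha z (fun x => if a = x then 1 else c x) _ ?_ ?_
    · refine (sum_le_sum (g := fun x => c x + if a = x then 1 else 0) fun x _ => ?_).trans ?_
      · split_ifs <;> omega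
      · rw [sum_add_distrib, sum_ite_eq]
        simp only [stB]
        split_ifs <;> omega
    · have := card_erase_add_one ha
      simp only [stB]
      omega
  · simp only [Yv, E_out ha, and_true]
    split_ifs
    · exact le_trans (by exact_mod_cast h1) (hω _ (by omega))
    · simp

theorem K_long {ω : ℕ → ℝ} {w h j : ℕ} {ρ : ℝ} (hj : 0 < j) (h1 : 60 * j ≤ h) (h2 : h ≤ 120 * j)
    (hw : h ≤ w) (h0 : ∀ l, 0 ≤ ω l) (hω : ∀ l ≤ (2 * w + 1) * h, (l : ℝ) ≤ ω l)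
    (hρ' : ρ ^ 4 ≤ j / 8) : ρ / (15 * 10 ^ 9) ≤ ∑ p ∈ Bx w h, K ω w h p := by
  have := K_mass (w := w) (h := h) h0 (by omega) fun _ => True
  rw [filter_true] at this
  refine le_trans ?_ ((Yv_sum hω h ((Ioc (20 * j : ℤ) (40 * j) ×ˢ Icc (2 : ℤ) h).image
    fun p => (p.1, p.1) + (-p.2, -1)) _ _ (fun _ => 0) _ (by simp) (by simp [card_Rc])).trans this)
  rw [sum_image fun p _ q _ e => by
    simp only [Prod.mk_add_mk, Prod.mk.injEq] at e
    exact Prod.ext (by omega) (by omega), sum_product]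
  refine le_trans ?_ (sum_le_sum fun k hk => le_trans (Yv_diag (k := k) hj ?_ ?_ h2 hρ')
    (sum_le_sum fun a ha => Yv_shift hw _ ?_ ?_))
  · rw [sum_const, Int.card_Ioc, show ((40 * j : ℤ) - 20 * j).toNat = 20 * j by omega, nsmul_eq_mul]
    have hjr : (0 : ℝ) < j := by exact_mod_cast hj
    push_cast
    exact le_of_eq (by field_simp; ring)
  all_goals simp only [mem_Ioc, mem_Icc] at *; omega

end Pool.Agent.P.MP_5fda20_pr.U
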