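import Pool.Agent.P.MP_5fda20_pr.U.Ker

/-! Targeting an exact area. -/

namespace Pool.Agent.P.MP_5fda20_pr.U

open Finset Real

/-- `F x` dominates the window sums of a weight of mass `μ` -/
def Good (F : ℤ → ℤ → ℝ) (n g R : ℤ) (μ : ℝ) : Prop :=
  ∃ (p : ℤ → ℝ) (T : Finset ℤ), (∀ ξ, 0 ≤ p ξ) ∧ μ ≤ ∑ ξ ∈ T, p ξ ∧
    ∀ x σ, g < x → x + g < n → ∑ ξ ∈ Icc (σ - R) (σ + R), p ξ ≤ F x σ

lemma Good.mono {F F' : ℤ → ℤ → ℝ} {n g g' R R' : ℤ} {μ μ' : ℝ} (h : Good F n g R μ)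
    (hF : ∀ x σ, F x σ ≤ F' x σ) (hg : g ≤ g') (hR : R' ≤ R) (hμ : μ' ≤ μ) :
    Good F' n g' R' μ' := by
  obtain ⟨p, T, h1, h2, h3⟩ := h
  refine ⟨p, T, h1, hμ.trans h2, fun x σ hx hx' => ?_⟩
  refine le_trans ?_ ((h3 x σ (by omega) (by omega)).trans (hF x σ))
  exact sum_le_sum_of_subset_of_nonneg (Icc_subset_Icc (by omega) (by omega)) fun ξ _ _ => h1 ξ

lemma sum_Icc_shift (p : ℤ → ℝ) (a b c : ℤ) :
    ∑ ξ ∈ Icc a b, p (ξ + c) = ∑ ξ ∈ Icc (a + c) (b + c), p ξ := by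
  rw [← map_add_right_Icc, sum_map]; rfl

lemma mem_Bx {w h : ℕ} {q : ℤ × ℤ} : q ∈ Bx w h ↔ (-(w : ℤ) ≤ q.1 ∧ q.1 ≤ w) ∧
    -((2 * w + 1) * h * h : ℤ) ≤ q.2 ∧ q.2 ≤ (2 * w + 1) * h * h := by simp [Bx]

lemma stretch {ω : ℕ → ℝ} (h0 : ∀ l, 0 ≤ ω l) (hm : Monotone ω) {n t g R : ℤ} {k w : ℕ}
    {μ β : ℝ} (hg : 0 ≤ g) (hμ : 0 ≤ μ) (H : Finset ℕ) (hH : ∀ h ∈ H, 0 < h ∧ (h : ℤ) ≤ t)
    (hG : ∀ h ∈ H, Good (M1 n k (t - h)) n g R μ) (hK : ∀ h ∈ H, β ≤ ∑ q ∈ Bx w h, K ω w h q) :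
    Good (fun x σ => Mk n (stB n) (Ph n ω) (k + 1) (n - t) (x, n - t) (σ, 0)) n (g + w) R
      (H.card * (β * μ)) := by
  choose! p T h1 h2 h3 using hG
  refine ⟨fun ξ => ∑ h ∈ H, ∑ q ∈ Bx w h, K ω w h q * p h (ξ + (q.2 + q.1 * (t - h))),
    H.biUnion fun h => (Bx w h).biUnion fun q => (T h).image fun ξ => ξ - (q.2 + q.1 * (t - h)),
    fun ξ => sum_nonneg fun h hh => sum_nonneg fun q _ => mul_nonneg (K_nonneg h0 _ _ _)
      (h1 h hh _), ?_, fun x σ hx hx' => ?_⟩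
  · rw [sum_comm, ← nsmul_eq_mul]
    refine card_nsmul_le_sum _ _ _ fun h hh => ?_
    rw [sum_comm]
    refine (mul_le_mul_of_nonneg_right (hK h hh) hμ).trans ?_
    rw [sum_mul]
    refine sum_le_sum fun q hq => ?_
    rw [← mul_sum]
    refine mul_le_mul_of_nonneg_left ((h2 h hh).trans ?_) (K_nonneg h0 _ _ _)
    refine le_trans (le_of_eq ?_) (sum_le_sum_of_subset_of_nonneg
      (s := (T h).image fun ξ => ξ - (q.2 + q.1 * (t - h))) (fun ξ hξ => ?_)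
      fun ξ _ _ => h1 h hh _)
    · rw [sum_image fun a _ b _ h => by simpa using h]
      simp
    · exact mem_biUnion.mpr ⟨h, hh, mem_biUnion.mpr ⟨q, hq, hξ⟩⟩
  · refine le_trans ?_ (K_step h0 hm n k t x σ w H hH (by omega) (by omega))
    rw [sum_comm]
    refine sum_le_sum fun h hh => ?_
    rw [sum_comm]
    refine sum_le_sum fun q hq => ?_
    rw [← mul_sum, sum_Icc_shift]
    have := mem_Bx.mp hq
    refine mul_le_mul_of_nonneg_left (le_trans (le_of_eq ?_)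
      (h3 h hh _ _ (by omega) (by omega))) (K_nonneg h0 _ _ _)
    congr 2 <;> ring

lemma control {n t g R R' j : ℤ} {k w : ℕ} {μ β : ℝ} (hg : 0 ≤ g) (hβ : 0 ≤ β) (H : Finset ℕ)
    (hH : ∀ h ∈ H, 0 < h ∧ (h : ℤ) < t ∧ R ≤ j * (t - h) ∧ t - h + (2 * w + 1) * h * h ≤ R')
    (hG : ∀ h ∈ H, Good (M1 n k (t - h)) n g R' μ)
    (hK : ∀ h ∈ H, ∀ s, -j ≤ s → s ≤ j →
      β ≤ ∑ q ∈ (Bx w h).filter (fun q => q.1 = s), K (fun _ => 1) w h q) :
    Good (M1 n (k + 1) t) n (g + w) R (H.card * (β * μ)) := by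
  choose! p T h1 h2 h3 using hG
  have hK0 := K_nonneg (ω := fun _ => 1) (fun _ => zero_le_one) w
  refine ⟨fun ξ => ∑ h ∈ H, β * p h ξ, H.biUnion T,
    fun ξ => sum_nonneg fun h hh => mul_nonneg hβ (h1 h hh _), ?_, fun x σ hx hx' => ?_⟩
  · rw [sum_comm, ← nsmul_eq_mul]
    refine card_nsmul_le_sum _ _ _ fun h hh => ?_
    rw [← mul_sum]
    exact mul_le_mul_of_nonneg_left ((h2 h hh).trans (sum_le_sum_of_subset_of_nonneg
      (subset_biUnion_of_mem T hh) fun ξ _ _ => h1 h hh _)) hβ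
  · refine le_trans ?_ (K_step (fun _ => zero_le_one) monotone_const n k t x σ w H
      (fun h hh => ⟨(hH h hh).1, (hH h hh).2.1.le⟩) (by omega) (by omega))
    rw [sum_comm]
    refine sum_le_sum fun h hh => ?_
    obtain ⟨-, a2, a3, a4⟩ := hH h hh
    have ht : 0 < t - h := by omega
    calc _ ≤ ∑ ξ ∈ Icc (σ - R) (σ + R), ∑ q ∈ Bx w h, K (fun _ => 1) w h q *
          (if q.1 = (ξ - σ) / (t - h) then p h ξ else 0) := by
          refine sum_le_sum fun ξ hξ => ?_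
          rw [mem_Icc] at hξ
          refine (mul_le_mul_of_nonneg_right (hK h hh ((ξ - σ) / (t - h)) ?_ ?_)
            (h1 h hh ξ)).trans_eq ?_
          · exact Int.le_ediv_of_mul_le ht (by linarith)
          · exact Int.ediv_le_of_le_mul ht (by linarith)
          · simp only [sum_filter, sum_mul, ite_mul, zero_mul, mul_ite, mul_zero]
      _ ≤ _ := by
          rw [sum_comm]
          refine sum_le_sum fun q hq => ?_
          have := mem_Bx.mp hq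
          rw [← mul_sum, ← sum_filter]
          refine mul_le_mul_of_nonneg_left (le_trans (sum_le_sum_of_subset_of_nonneg
            (fun ξ hξ => ?_) fun ξ _ _ => h1 h hh ξ) (h3 h hh _ _ (by omega) (by omega)))
            (hK0 _ _)
          have b1 := Int.emod_nonneg (ξ - σ) ht.ne'
          have b2 := Int.emod_lt_of_pos (ξ - σ) ht
          have b3 := Int.emod_add_mul_ediv (ξ - σ) (t - h)
          rw [← (mem_filter.mp hξ).2, mul_comm] at b3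
          rw [mem_Icc]
          constructor <;> linarith [this.2.1, this.2.2]

lemma good_base (n : ℤ) (R : ℕ) : Good (M1 n 0 1) n R R ((1 / 4) ^ (R + 1)) := by
  refine ⟨fun ξ => if ξ = 0 then (1 / 4) ^ (R + 1) else 0, {0}, fun ξ => by positivity, by simp,
    fun x σ hx hx' => ?_⟩
  rw [sum_ite_eq']
  split_ifs with h
  · rw [mem_Icc] at h
    exact M1_base (abs_le.mpr (by omega)) hx hx'
  · exact M1_nonneg _ _ _ _ _

lemma bt_ge' {c h : ℕ} (hc : 1 ≤ c) (hh : h ≤ 128 * c) : exp (-3) / (64 * c) ≤ bt (128 * c) h := by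
  have hc' : (1 : ℝ) ≤ c := by exact_mod_cast hc
  have hh' : (h : ℝ) ≤ 128 * c := by exact_mod_cast hh
  unfold bt
  push_cast
  rw [div_eq_inv_mul]
  gcongr
  · rw [inv_eq_one_div, div_le_div_iff₀ (by positivity) (by positivity)]; linarith
  · rw [div_mul_eq_mul_div, div_le_iff₀ (by positivity)]; linarith

lemma stage {n : ℤ} {k j j' g : ℕ} {κ Λ : ℝ} (hκ : 0 ≤ κ) (hj' : 1 ≤ j') (h1 : 2 * j' ≤ j)
    (h2 : 2 ^ 11 * j ^ 3 ≤ j' ^ 4) (h3 : j' ^ 4 ≤ 2 ^ 15 * j ^ 3) (hΛ : log (16 * j ^ 2) ≤ Λ)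
    (hG : ∀ t : ℕ, 64 * j' ^ 3 ≤ t → t < 128 * j' ^ 3 →
      Good (M1 n k t) n (256 * j' ^ 3 + g) (32 * j' ^ 4) (κ / j' ^ 7))
    (t : ℕ) (ht : 64 * j ^ 3 ≤ t) (ht' : t < 128 * j ^ 3) :
    Good (M1 n (k + 2) t) n (256 * j ^ 3 + g) (32 * j ^ 4)
      (κ * (exp (-195) / 2 ^ 18 / Λ) / j ^ 7) := by
  have hj : 1 ≤ j := by omega
  have hjr : (1 : ℝ) ≤ j := by exact_mod_cast hj
  have hjr' : (1 : ℝ) ≤ j' := by exact_mod_cast hj'
  have c1 : 8 * j' ^ 3 ≤ j ^ 3 := by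
    calc _ = (2 * j') ^ 3 := by ring
      _ ≤ _ := Nat.pow_le_pow_left h1 3
  have c2 : j ≤ j ^ 3 := Nat.le_self_pow (by norm_num) j
  have c3 : 1 ≤ j' ^ 3 := Nat.one_le_pow _ _ hj'
  have hl : 0 < log (16 * (j : ℝ) ^ 2) := log_pos (by nlinarith)
  have hS : ∀ h ∈ Ico (16 * j) (32 * j), Good (M1 n (k + 1) (t - h)) n
      (256 * j' ^ 3 + g + (128 * j ^ 3 : ℕ)) (32 * j' ^ 4)
      (exp (-3) * κ / (j ^ 3 * j' ^ 4)) := by
    intro h hh
    rw [mem_Ico] at hh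
    have := stretch (ω := fun _ => 1) (fun _ => zero_le_one) monotone_const (n := n) (t := t - h)
      (g := 256 * j' ^ 3 + g) (R := 32 * j' ^ 4) (k := k) (w := 128 * j ^ 3) (μ := κ / j' ^ 7)
      (β := exp (-3) / (64 * (j ^ 3 : ℕ))) (by positivity) (by positivity)
      (Ioc (t - h - 128 * j' ^ 3) (t - h - 64 * j' ^ 3)) (fun a ha => ?_) (fun a ha => ?_)
      fun a ha => ?_
    · refine this.mono (fun _ _ => le_rfl) le_rfl le_rfl (le_of_eq ?_)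
      rw [Nat.card_Ioc, show t - h - 64 * j' ^ 3 - (t - h - 128 * j' ^ 3) = 64 * j' ^ 3 by omega]
      push_cast
      field_simp
    · rw [mem_Ioc] at ha; omega
    · rw [mem_Ioc] at ha
      have := hG (t - h - a) (by omega) (by omega)
      rwa [show ((t - h - a : ℕ) : ℤ) = t - h - a by omega] at this
    · rw [mem_Ioc] at ha
      exact (bt_ge' (by omega) (by omega)).trans (K_tot (by omega))
  have := control (n := n) (t := t) (R := 32 * j ^ 4) (j := j) (w := 16 * j)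
    (β := 1 / (128 * log (16 * j ^ 2)) * (exp (-96) / j) * (exp (-96) / j)) (by positivity)
    (by positivity) _ (fun h hh => ?_) hS fun h hh s hs hs' => ?_
  · refine this.mono (fun _ _ => le_rfl) ?_ le_rfl ?_
    · zify at c1 c2; push_cast; linarith
    · have h3' : (j' : ℝ) ^ 4 ≤ 2 ^ 15 * j ^ 3 := by exact_mod_cast h3
      have e : exp (-195) = exp (-96) * exp (-96) * exp (-3) := by
        rw [← exp_add, ← exp_add]; norm_num
      rw [Nat.card_Ico, show 32 * j - 16 * j = 16 * j by omega, e]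
      push_cast
      calc _ = κ * (exp (-96) * exp (-96) * exp (-3)) / (8 * j ^ 4 * Λ * (2 ^ 15 * j ^ 3)) := by
            have : 0 < Λ := hl.trans_le hΛ
            field_simp; norm_num
        _ ≤ κ * (exp (-96) * exp (-96) * exp (-3)) /
            (8 * j ^ 4 * log (16 * j ^ 2) * j' ^ 4) := by
            have : 0 < Λ := hl.trans_le hΛ
            gcongr
        _ = _ := by field_simp; ring
  · rw [mem_Ico] at hh
    refine ⟨by omega, by omega, ?_, ?_⟩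
    · have : (32 * j ^ 3 : ℤ) ≤ t - h := by zify at ht c2 hh; linarith [hh.2]
      calc (32 * j ^ 4 : ℤ) = j * (32 * j ^ 3) := by ring
        _ ≤ _ := by gcongr
    · have a1 : (2 * (16 * j) + 1) * h * h ≤ (33 * j) * (32 * j) * (32 * j) := by
        gcongr <;> omega
      have a2 : (33 * j) * (32 * j) * (32 * j) = 33792 * j ^ 3 := by ring
      zify at a1 a2 ht' h2
      push_cast
      linarith
  · rw [mem_Ico] at hh
    exact (G1_point hj hh.1 hh.2 ⟨hs, hs'⟩).trans (K_pt (by omega) s)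

lemma target_base (d : ℕ) : ∃ κ : ℝ, 0 < κ ∧ ∃ g : ℕ, ∀ (n : ℤ) (j : ℕ), 1 ≤ j → j ≤ d →
    ∀ t : ℕ, 64 * j ^ 3 ≤ t → t < 128 * j ^ 3 →
      Good (M1 n 1 t) n (256 * j ^ 3 + g) (32 * j ^ 4) (κ / j ^ 7) := by
  refine ⟨exp (-3) / 64 * (1 / 4) ^ (32 * d ^ 4 + 1), by positivity, 32 * d ^ 4,
    fun n j hj hd t ht ht' => ?_⟩
  have c3 : 1 ≤ j ^ 3 := Nat.one_le_pow _ _ hj
  have hjr : (1 : ℝ) ≤ j := by exact_mod_cast hj
  have := stretch (ω := fun _ => 1) (fun _ => zero_le_one) monotone_const (n := n) (t := t)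
    (g := (32 * d ^ 4 : ℕ)) (R := (32 * d ^ 4 : ℕ)) (k := 0) (w := 128 * j ^ 3)
    (μ := (1 / 4) ^ (32 * d ^ 4 + 1)) (β := exp (-3) / (64 * (j ^ 3 : ℕ))) (by positivity)
    (by positivity) {t - 1} (fun a ha => ?_) (fun a ha => ?_) fun a ha => ?_
  · refine this.mono (fun _ _ => le_rfl) ?_ ?_ ?_
    · push_cast; linarith [pow_nonneg (Int.natCast_nonneg j) 3]
    · push_cast; gcongr
    · rw [card_singleton]
      push_cast
      calc _ ≤ exp (-3) / 64 * (1 / 4) ^ (32 * d ^ 4 + 1) / (j : ℝ) ^ 3 := by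
            gcongr; norm_num
        _ = _ := by field_simp
  · rw [mem_singleton] at ha; omega
  · rw [mem_singleton] at ha
    rw [show (t : ℤ) - a = 1 by omega]
    exact good_base n _
  · rw [mem_singleton] at ha
    exact (bt_ge' (by omega) (by omega)).trans (K_tot (by omega))

theorem target : ∃ κ : ℝ, 0 < κ ∧ ∃ g : ℕ, ∀ (n : ℤ) (Λ : ℝ) (i e : ℕ), e ≤ 23 + i ^ 2 →
    log (16 * (2 ^ e : ℕ) ^ 2) ≤ Λ → ∀ t : ℕ, 64 * (2 ^ e) ^ 3 ≤ t → t < 128 * (2 ^ e) ^ 3 →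
      Good (M1 n (2 * i + 1) t) n (256 * (2 ^ e : ℕ) ^ 3 + g) (32 * (2 ^ e : ℕ) ^ 4)
        (κ * (exp (-195) / 2 ^ 18 / Λ) ^ i / (2 ^ e : ℕ) ^ 7) := by
  obtain ⟨κ, hκ, g, hb⟩ := target_base (2 ^ 23)
  refine ⟨κ, hκ, g, fun n Λ i => ?_⟩
  have hΛ : ∀ e : ℕ, log (16 * (2 ^ e : ℕ) ^ 2) ≤ Λ → 1 ≤ Λ := fun e he => by
    refine le_trans ?_ he
    have : (1 : ℝ) ≤ (2 ^ e : ℕ) := by exact_mod_cast Nat.one_le_two_pow
    rw [le_log_iff_exp_le (by positivity)]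
    nlinarith [exp_one_lt_d9]
  have base : ∀ i e : ℕ, e ≤ 23 → log (16 * (2 ^ e : ℕ) ^ 2) ≤ Λ → ∀ t : ℕ,
      64 * (2 ^ e) ^ 3 ≤ t → t < 128 * (2 ^ e) ^ 3 →
      Good (M1 n (2 * i + 1) t) n (256 * (2 ^ e : ℕ) ^ 3 + g) (32 * (2 ^ e : ℕ) ^ 4)
        (κ * (exp (-195) / 2 ^ 18 / Λ) ^ i / (2 ^ e : ℕ) ^ 7) := by
    intro i e he hl t ht ht'
    refine (hb n (2 ^ e) Nat.one_le_two_pow (Nat.pow_le_pow_right (by norm_num) he) t ht
      ht').mono (fun x σ => Mk_mono (Ph_nonneg (fun _ => zero_le_one) n) _ (by omega) _ _ _)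
      le_rfl le_rfl ?_
    have h1 := hΛ e hl
    have h2 : exp (-195) ≤ 1 := exp_le_one_iff.mpr (by norm_num)
    gcongr
    refine mul_le_of_le_one_right hκ.le (pow_le_one₀ (by positivity) ?_)
    rw [div_le_one (by linarith), div_le_iff₀ (by norm_num)]
    linarith
  induction i with
  | zero => exact fun e he => base 0 e (by simpa using he)
  | succ i ih =>
    intro e he hl t ht ht'
    by_cases h : e ≤ 23
    · exact base _ e h hl t ht ht'
    have h1 := hΛ e hl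
    have he' : (3 * e + 14) / 4 ≤ 23 + i ^ 2 := by
      have : 6 * i ≤ i ^ 2 + 9 := by nlinarith [sq_nonneg ((i : ℤ) - 3)]
      have : (i + 1) ^ 2 = i ^ 2 + 2 * i + 1 := by ring
      omega
    have := stage (κ := κ * (exp (-195) / 2 ^ 18 / Λ) ^ i) (j := 2 ^ e)
      (j' := 2 ^ ((3 * e + 14) / 4)) (by positivity) Nat.one_le_two_pow ?_ ?_ ?_ hl
      (ih _ he' (le_trans ?_ hl)) t ht ht'
    · rwa [mul_assoc, ← pow_succ] at this
    · rw [← pow_succ']; exact Nat.pow_le_pow_right (by norm_num) (by omega)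
    · rw [← pow_mul, ← pow_mul, ← pow_add]; exact Nat.pow_le_pow_right (by norm_num) (by omega)
    · rw [← pow_mul, ← pow_mul, ← pow_add]; exact Nat.pow_le_pow_right (by norm_num) (by omega)
    · gcongr
      · norm_num
      · omega

end Pool.Agent.P.MP_5fda20_pr.U
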