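import Pool.Agent.P.MP_5fda20_pr.U.Split
import Pool.Agent.P.MP_5fda20_pr.U.Targ
import Pool.Agent.P.MP_5fda20_pr.U.Len

/-! Assembly of the lower bound. -/

namespace Pool.Agent.P.MP_5fda20_pr.U

open Finset Real MP_a28080_pr Filter

variable {ω : ℕ → ℝ}

lemma Mk_supp (h0 : ∀ l, 0 ≤ ω l) {m k : ℕ} {x σ : ℤ} (hx : (x, 1) ∈ Dm (m + 1 : ℕ) 1)
    (h : 0 < Mk (m + 1 : ℕ) (stB (m + 1 : ℕ)) (Ph (m + 1 : ℕ) ω) k 1 (x, 1) (σ, 0)) :
    0 ≤ (m + 1 : ℕ) * x - σ ∧ (m + 1 : ℕ) * x - σ ≤ (m + 1 : ℕ) ^ 2 := by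
  by_contra hc
  have hz : ∀ z ∈ Dm (m + 1 : ℕ) 1, ∀ τ, Ph (m + 1 : ℕ) ω z τ = 0 := fun z hz τ =>
    if_neg fun h => by have := mem_Dm.mp hz; omega
  have e := E_forest (st := stB (m + 1 : ℕ)) _ _ le_rfl hz (x, 1) (σ, 0)
  rw [sum_eq_zero fun f hf => show Ph (m + 1 : ℕ) ω _ _ = 0 from if_neg fun h => hc (by
    simpa only [h.2, add_zero] using area_range hf hx h.1 (σ, 0)), mul_eq_zero,
    or_iff_right (Z_pos _).ne'] at e
  refine h.not_ge (sum_nonpos fun S _ => le_trans (E_dom (wt_qS S) wt_one (Ph_nonneg h0 _)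
    Subset.rfl (fun z h τ => (hz z h τ).le) (fun x _ z _ => Or.inl (wt_qS S x z).2)
    (fun x _ z _ => (wt_qS S x z).2) _ _) e.le)

lemma cover {F : ℤ → ℤ → ℝ} {n g R c : ℤ} {μ : ℝ} (h : Good F n g R μ) (hg : 0 ≤ g)
    (h1 : 4 * (g + 1) + 1 ≤ n) (hR : n ≤ R) (c1 : 2 * c ≤ n ^ 2) (c2 : n ^ 2 ≤ 2 * c + 1)
    (h0 : ∀ x σ, 0 ≤ F x σ)
    (hF : ∀ x σ, 1 ≤ x → x ≤ n - 1 → 0 < F x σ → 0 ≤ n * x - σ ∧ n * x - σ ≤ n ^ 2) :
    μ ≤ ∑ x ∈ Icc 1 (n - 1), F x (n * x - c) := by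
  obtain ⟨p, T, p0, p1, p2⟩ := h
  have hn : 0 < n := by omega
  have key : ∀ x ξ, g < x → x + g < n → 0 < p ξ → 0 < F x ξ := fun x ξ a b hp =>
    hp.trans_le ((single_le_sum (fun ξ _ => p0 ξ) (mem_Icc.mpr (by omega))).trans (p2 x ξ a b))
  rw [← sum_filter_ne_zero] at p1
  rw [← sum_fiberwise_of_maps_to (t := Ioo g (n - g)) (g := fun ξ => (ξ + c) / n)] at p1
  · refine p1.trans (le_trans (sum_le_sum fun x hx => ?_) (sum_le_sum_of_subset_of_nonneg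
      (fun x hx => ?_) fun x _ _ => h0 x _))
    · rw [mem_Ioo] at hx
      refine le_trans (sum_le_sum_of_subset_of_nonneg (fun ξ hξ => ?_) fun ξ _ _ => p0 ξ)
        (p2 x _ (by omega) (by omega))
      have b1 := Int.emod_nonneg (ξ + c) hn.ne'
      have b2 := Int.emod_lt_of_pos (ξ + c) hn
      have b3 := Int.emod_add_mul_ediv (ξ + c) n
      rw [(mem_filter.mp hξ).2] at b3
      rw [mem_Icc]
      constructor <;> linarith
    · rw [mem_Ioo] at hx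
      rw [mem_Icc]
      omega
  · intro ξ hξ
    have hp := (p0 ξ).lt_of_ne' (mem_filter.mp hξ).2
    have a1 := (hF _ _ (by omega) (by omega) (key (g + 1) ξ (by omega) (by omega) hp)).1
    have a2 := (hF _ _ (by omega) (by omega) (key (n - g - 1) ξ (by omega) (by omega) hp)).2
    rw [mem_Ioo]
    exact ⟨Int.lt_iff_add_one_le.mpr (Int.le_ediv_of_mul_le hn (by nlinarith)),
      Int.ediv_lt_of_lt_mul hn (by nlinarith)⟩

/-- a first piece with weights `ω`, followed by an unweighted piece -/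
def Two (ω : ℕ → ℝ) (w m : ℕ) (β : ℝ) : Prop :=
  ∃ (H : Finset ℕ) (b : ℝ), β ≤ H.card * (b * bt w m) ∧
    ∀ h ∈ H, 0 < h ∧ 2 * h ≤ m + 1 ∧ b ≤ ∑ q ∈ Bx w h, K ω w h q

lemma bt_anti (w : ℕ) {h m : ℕ} (hm : h ≤ m) : bt w m ≤ bt w h := by
  have : (h : ℝ) ≤ m := by exact_mod_cast hm
  unfold bt
  gcongr

lemma core : ∃ κ : ℝ, 0 < κ ∧ ∃ g : ℕ, ∀ (m e i L w : ℕ) (Λ l η B β : ℝ) (ω : ℕ → ℝ),
    m + 1 ≤ 32 * (2 ^ e) ^ 4 → 4 * (256 * (2 ^ e) ^ 3 + g + w + w + 1) + 1 ≤ m + 1 →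
    e ≤ 23 + i ^ 2 →
    log (16 * (2 ^ e : ℕ) ^ 2) ≤ Λ → 0 ≤ l → 0 ≤ η → 2 * l * log (m + 1) ≤ 1 →
    ((m : ℝ) + 1) ^ (2 * i + 3) ≤ η * (1 + l) ^ L → Monotone ω →
    (∀ a, 0 ≤ ω a ∧ ω a ≤ B ∧ ω a ≤ a) → Two ω w m β →
    64 * β * (κ * (exp (-195) / 2 ^ 18 / Λ) ^ i) / (2 ^ e : ℕ) ^ 4 ≤
      (L : ℝ) ^ (2 * i + 3) * pUST (grid (m + 1)) + m * (η * (2 * B)) := by
  obtain ⟨κ, hκ, g, ht⟩ := target
  refine ⟨κ, hκ, g, fun m e i L w Λ l η B β ω a1 a2 a3 a4 a5 a6 a7 a8 a9 hω ⟨H, b, hb, hK⟩ => ?_⟩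
  have h0 := fun a => (hω a).1
  have hB : 0 ≤ B := (h0 0).trans (hω 0).2.1
  have hΛ : 0 ≤ Λ := le_trans (log_nonneg (by
    have : (1 : ℝ) ≤ (2 ^ e : ℕ) := by exact_mod_cast Nat.one_le_two_pow
    nlinarith)) a4
  have ht' := ht (m + 1 : ℕ) Λ i e a3 a4
  have hj : 1 ≤ 2 ^ e := Nat.one_le_two_pow
  generalize 2 ^ e = j at *
  have c3 : 1 ≤ j ^ 3 := Nat.one_le_pow _ _ hj
  have hjr : (1 : ℝ) ≤ j := by exact_mod_cast hj
  have hbt := bt_pos w m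
  have hG := stretch h0 a9 (n := (m + 1 : ℕ)) (t := m) (g := 256 * j ^ 3 + g + w) (R := 32 * j ^ 4)
    (k := 2 * i + 2) (w := w) (β := b)
    (μ := (64 * j ^ 3 : ℕ) * (bt w m * (κ * (exp (-195) / 2 ^ 18 / Λ) ^ i / j ^ 7)))
    (by positivity) (by positivity) H (fun h hh => by have := hK h hh; omega) (fun h hh => by
      have := hK h hh
      have := stretch (ω := fun _ => 1) (fun _ => zero_le_one) monotone_const (n := (m + 1 : ℕ))
        (t := m - h) (g := 256 * j ^ 3 + g) (R := 32 * j ^ 4) (k := 2 * i + 1) (w := w)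
        (β := bt w m) (μ := κ * (exp (-195) / 2 ^ 18 / Λ) ^ i / j ^ 7) (by positivity)
        (by positivity) (Ioc (m - h - 128 * j ^ 3) (m - h - 64 * j ^ 3))
        (fun h' hh => by rw [mem_Ioc] at hh; omega) (fun h' hh => by
          rw [mem_Ioc] at hh
          have := ht' (m - h - h') (by omega) (by omega)
          rwa [show ((m - h - h' : ℕ) : ℤ) = m - h - h' by omega] at this)
        fun h' hh => by rw [mem_Ioc] at hh; exact (bt_anti w (by omega)).trans (K_tot (by omega))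
      rwa [Nat.card_Ioc, show m - h - 64 * j ^ 3 - (m - h - 128 * j ^ 3) = 64 * j ^ 3 by omega]
        at this)
    fun h hh => (hK h hh).2.2
  rw [show ((m + 1 : ℕ) : ℤ) - m = 1 by omega] at hG
  have := cover hG (c := ((m + 1) * (m + 1) / 2 : ℕ)) (by positivity) (by exact_mod_cast a2)
    (by exact_mod_cast a1) (by rw [sq]; omega) (by rw [sq]; omega)
    (fun x σ => Mk_nonneg (Ph_nonneg h0 _) _ _ _ _ _)
    fun x σ b1 b2 => Mk_supp h0 (mem_Dm.mpr (by dsimp only; omega))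
  rw [show ((m + 1 : ℕ) : ℤ) - 1 = m by omega] at this
  refine le_trans ?_ (this.trans (le_trans (sum_le_sum fun x _ =>
    Mk_le m (2 * i + 3) L a5 a6 hB a7 a8 (Ph_nonneg h0 _) (fun z σ => ?_) rfl _) ?_))
  · refine le_trans (div_le_div_of_nonneg_right (mul_le_mul_of_nonneg_right
      (mul_le_mul_of_nonneg_left hb (by norm_num)) (by positivity)) (by positivity)) (le_of_eq ?_)
    push_cast
    field_simp
  · unfold Ph
    split_ifs with h1 h2 h2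
    exacts [(hω _).2.1, absurd h1.1 h2, hB, le_rfl]
  · rw [sum_add_distrib, ← mul_sum]
    refine add_le_add (mul_le_mul_of_nonneg_left (pUST_ge m fun a => (hω a).2.2)
      (by positivity)) (by simp)

lemma exp_half_le {l : ℝ} (h0 : 0 ≤ l) (h1 : l ≤ 1) : exp (l / 2) ≤ 1 + l := by
  have h := add_one_le_exp (-(l / 2))
  have h2 := exp_pos (l / 2)
  have h3 : exp (-(l / 2)) * exp (l / 2) = 1 := by rw [← exp_add]; simp
  nlinarith [mul_le_mul_of_nonneg_right h h2.le]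

lemma scale {n : ℕ} (hn : 2 ^ 57 ≤ n) : ∃ e : ℕ, n ≤ 32 * (2 ^ e) ^ 4 ∧ 2 * (2 ^ e) ^ 4 < n ∧
    2 ^ 13 ≤ 2 ^ e := by
  have hex : ∃ e : ℕ, n ≤ 32 * (2 ^ e) ^ 4 := ⟨n, by
    have : n < 2 ^ n := Nat.lt_two_pow_self
    have := Nat.le_self_pow (n := 4) (by norm_num) (2 ^ n)
    omega⟩
  classical
  have h1 := Nat.find_spec hex
  have h2 : 13 ≤ Nat.find hex := by
    by_contra hc
    have : (2 ^ Nat.find hex) ^ 4 ≤ (2 ^ 12) ^ 4 :=
      Nat.pow_le_pow_left (Nat.pow_le_pow_right (by norm_num) (by omega)) _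
    omega
  refine ⟨_, h1, ?_, Nat.pow_le_pow_right (by norm_num) h2⟩
  obtain ⟨d, hd⟩ : ∃ d, Nat.find hex = d + 1 := ⟨Nat.find hex - 1, by omega⟩
  have h3 := Nat.find_min hex (show d < Nat.find hex by omega)
  rw [hd, pow_succ 2 d, mul_pow]
  omega

lemma asym0 : ∃ κ : ℝ, 0 < κ ∧ ∃ n₀ : ℕ, ∀ (m w : ℕ) (r β : ℝ) (ω : ℕ → ℝ), n₀ ≤ m → 2 ≤ r →
    r ^ 4 = log (m + 1) → exp (424 * r ^ 3) ≤ κ * exp (r ^ 4) → 16 * w ≤ m + 1 → Monotone ω →
    (∀ a, 0 ≤ ω a ∧ ω a ≤ (m + 1) ^ 2 ∧ ω a ≤ a) → 1 / ((m : ℝ) + 1) ≤ β → Two ω w m β →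
    β * κ * exp (-(520 * r ^ 3)) / (m + 1) ≤ pUST (grid (m + 1)) := by
  obtain ⟨κ, hκ, g, hc⟩ := core
  refine ⟨κ, hκ, 2 ^ 57 + 16 * g + 20, fun m w r β ω a1 a2 a3 a4 a5 a6 a7 a8 a9 => ?_⟩
  obtain ⟨e, e1, e2, e3⟩ := scale (n := m + 1) (by omega)
  have hn : (0 : ℝ) < m + 1 := by positivity
  have hN : exp (r ^ 4) = m + 1 := by rw [a3, exp_log hn]
  have r1 : 4 ≤ r ^ 2 := by nlinarith
  have r2 : 16 ≤ r ^ 4 := by nlinarith
  have r3 : 2 * r ^ 2 ≤ r ^ 3 := by nlinarith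
  have r0 : 0 < r := by linarith
  set i := ⌈r ^ 2⌉₊ with hi
  have i1 : r ^ 2 ≤ i := Nat.le_ceil _
  have i2 : (i : ℝ) ≤ r ^ 2 + 1 := (Nat.ceil_lt_add_one (by positivity)).le
  set L := ⌈4 * (2 * i + 9) * (r ^ 4) ^ 2⌉₊ with hL
  have L1 : 4 * (2 * i + 9) * (r ^ 4) ^ 2 ≤ L := Nat.le_ceil _
  have L2 : (L : ℝ) ≤ 4 * (2 * i + 9) * (r ^ 4) ^ 2 + 1 := (Nat.ceil_lt_add_one (by positivity)).le
  have hlr : log r ≤ r := (log_le_sub_one_of_pos r0).trans (by linarith)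
  have hj : ((2 ^ e : ℕ) : ℝ) ^ 4 * 2 ≤ m + 1 := by
    exact_mod_cast (show (2 ^ e) ^ 4 * 2 ≤ m + 1 by omega)
  have hj1 : (2 : ℝ) ^ 13 ≤ (2 ^ e : ℕ) := by exact_mod_cast e3
  have c3 : 2 ^ 13 * (2 ^ e) ^ 3 ≤ (2 ^ e) ^ 4 := by
    rw [pow_succ' (2 ^ e) 3]; exact Nat.mul_le_mul_right _ e3
  have := hc m e i L w (r ^ 4) (1 / (2 * r ^ 4)) (1 / (m + 1) ^ 6) ((m + 1) ^ 2) β ω e1
    (by omega) ?_ ?_ (by positivity) (by positivity) ?_ ?_ a6 a7 a9
  · have hβ : 0 < β := lt_of_lt_of_le (by positivity) a8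
    have b1 : exp (-(424 * r ^ 3)) ≤ (exp (-195) / 2 ^ 18 / r ^ 4) ^ i := by
      have : exp (-(208 + 4 * r)) ≤ exp (-195) / 2 ^ 18 / r ^ 4 := by
        have d1 : (2 : ℝ) ^ 18 ≤ exp 13 := by
          have := exp_one_gt_d9
          calc (2 : ℝ) ^ 18 ≤ 2.7 ^ 13 := by norm_num
            _ ≤ exp 1 ^ 13 := pow_le_pow_left₀ (by norm_num) (by linarith) _
            _ = exp 13 := by rw [← exp_nat_mul]; norm_num
        have d2 : r ^ 4 ≤ exp (4 * r) := by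
          rw [show 4 * r = (4 : ℕ) * r by norm_num, exp_nat_mul]
          exact pow_le_pow_left₀ r0.le (by linarith [add_one_le_exp r]) _
        rw [div_div, le_div_iff₀ (by positivity)]
        calc _ ≤ exp (-(208 + 4 * r)) * (exp 13 * exp (4 * r)) := by gcongr
          _ = _ := by rw [← exp_add, ← exp_add]; congr 1; ring
      refine le_trans ?_ (pow_le_pow_left₀ (exp_pos _).le this i)
      rw [← exp_nat_mul]
      refine exp_le_exp.mpr ?_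
      nlinarith [mul_le_mul_of_nonneg_right i2 (show 0 ≤ 208 + 4 * r by positivity)]
    have b2 : (L : ℝ) ^ (2 * i + 3) ≤ exp (96 * r ^ 3) := by
      have : (L : ℝ) ≤ exp (16 * r) := by
        have d1 : (L : ℝ) ≤ r ^ 16 := by
          have d3 : 8 * r ^ 2 + 45 ≤ (r ^ 4) ^ 2 := by nlinarith
          have d4 : 1 ≤ (r ^ 4) ^ 2 := by nlinarith
          nlinarith [mul_le_mul_of_nonneg_right d3 (show 0 ≤ (r ^ 4) ^ 2 by positivity),
            mul_le_mul_of_nonneg_right i2 (show 0 ≤ (r ^ 4) ^ 2 by positivity)]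
        refine d1.trans ?_
        rw [show 16 * r = (16 : ℕ) * r by norm_num, exp_nat_mul]
        exact pow_le_pow_left₀ r0.le (by linarith [add_one_le_exp r]) _
      refine (pow_le_pow_left₀ (by positivity) this _).trans ?_
      rw [← exp_nat_mul]
      refine exp_le_exp.mpr ?_
      push_cast
      nlinarith [mul_le_mul_of_nonneg_right i2 r0.le]
    have b3 : 128 * (β * κ * exp (-(424 * r ^ 3)) / (m + 1)) ≤
        64 * β * (κ * (exp (-195) / 2 ^ 18 / r ^ 4) ^ i) / (2 ^ e : ℕ) ^ 4 := by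
      rw [le_div_iff₀ (by positivity)]
      calc _ = 64 * β * (κ * exp (-(424 * r ^ 3))) * (((2 ^ e : ℕ) : ℝ) ^ 4 * 2 / (m + 1)) := by ring
        _ ≤ 64 * β * (κ * (exp (-195) / 2 ^ 18 / r ^ 4) ^ i) * 1 := by
          gcongr
          rwa [div_le_one hn]
        _ = _ := mul_one _
    have b4 : (m : ℝ) * (1 / (m + 1) ^ 6 * (2 * (m + 1) ^ 2)) ≤
        2 * (β * κ * exp (-(424 * r ^ 3)) / (m + 1)) := by
      have d1 : 1 / ((m : ℝ) + 1) ≤ κ * exp (-(424 * r ^ 3)) := by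
        rw [exp_neg, ← div_eq_mul_inv, div_le_div_iff₀ hn (exp_pos _), one_mul, ← hN]
        exact a4
      calc _ ≤ ((m : ℝ) + 1) * (1 / (m + 1) ^ 6 * (2 * (m + 1) ^ 2)) := by gcongr; linarith
        _ = 2 * (1 / (m + 1) * (1 / (m + 1)) / (m + 1)) := by field_simp
        _ ≤ 2 * (β * (κ * exp (-(424 * r ^ 3))) / (m + 1)) := by gcongr
        _ = _ := by ring
    have hp : 0 ≤ pUST (grid (m + 1)) := by unfold pUST; positivity
    have b5 : β * κ * exp (-(424 * r ^ 3)) / (m + 1) ≤ exp (96 * r ^ 3) * pUST (grid (m + 1)) := by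
      have : 0 ≤ β * κ * exp (-(424 * r ^ 3)) / (m + 1) := by positivity
      nlinarith [mul_le_mul_of_nonneg_right b2 hp]
    refine le_of_mul_le_mul_left (le_trans (le_of_eq ?_) b5) (exp_pos (96 * r ^ 3))
    rw [show -(424 * r ^ 3) = 96 * r ^ 3 + -(520 * r ^ 3) by ring, exp_add]
    ring
  · have : (e : ℝ) ≤ r ^ 4 := by
      rw [a3, le_log_iff_exp_le hn, show (e : ℝ) = e * 1 by ring, exp_nat_mul]
      have := exp_one_lt_d9
      calc exp 1 ^ e ≤ ((2 : ℝ) ^ 4) ^ e := pow_le_pow_left₀ (exp_pos _).le (by linarith) _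
        _ = ((2 ^ e : ℕ) : ℝ) ^ 4 := by push_cast; rw [← pow_mul, ← pow_mul, mul_comm]
        _ ≤ _ := by linarith [show 0 ≤ ((2 ^ e : ℕ) : ℝ) ^ 4 by positivity]
    have : (e : ℝ) ≤ 23 + i ^ 2 := by nlinarith
    exact_mod_cast this
  · rw [a3]
    refine log_le_log (by positivity) (le_trans ?_ hj)
    generalize ((2 ^ e : ℕ) : ℝ) = j at hj1
    have : 8 ≤ j ^ 2 := by nlinarith
    nlinarith [mul_le_mul_of_nonneg_right this (sq_nonneg j)]
  · rw [← a3]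
    exact le_of_eq (by field_simp)
  · have d1 := exp_half_le (l := 1 / (2 * r ^ 4)) (by positivity)
      (by rw [div_le_one (by positivity)]; linarith)
    rw [one_div_mul_eq_div, le_div_iff₀ (by positivity), ← pow_add, ← hN, ← exp_nat_mul]
    refine le_trans ?_ (pow_le_pow_left₀ (exp_pos _).le d1 L)
    rw [← exp_nat_mul]
    refine exp_le_exp.mpr (le_trans (le_of_eq ?_) (mul_le_mul_of_nonneg_right L1 (by positivity)))
    push_cast
    field_simp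
    ring

lemma small (C : ℝ) {δ κ : ℝ} (hδ : 0 < δ) (hκ : 0 < κ) :
    ∀ᶠ r : ℝ in atTop, exp (C * r ^ 3) ≤ κ * exp (δ * r ^ 4) := by
  filter_upwards [eventually_ge_atTop 1, eventually_ge_atTop ((C + |log κ|) / δ)] with r h1 h2
  rw [← exp_log hκ, ← exp_add]
  refine exp_le_exp.mpr ?_
  rw [div_le_iff₀ hδ] at h2
  have h3 : 1 ≤ r ^ 3 := one_le_pow₀ h1
  nlinarith [mul_le_mul_of_nonneg_right h2 (show 0 ≤ r ^ 3 by positivity), neg_abs_le (log κ),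
    mul_le_mul_of_nonneg_left h3 (abs_nonneg (log κ))]

theorem asym {ε : ℝ} (hε : 0 < ε) : ∀ᶠ m : ℕ in atTop, ∀ (w : ℕ) (β : ℝ) (ω : ℕ → ℝ),
    16 * w ≤ m + 1 → Monotone ω → (∀ a, 0 ≤ ω a ∧ ω a ≤ (m + 1) ^ 2 ∧ ω a ≤ a) →
    1 / ((m : ℝ) + 1) ≤ β → Two ω w m β →
    β * ((m : ℝ) + 1) ^ (-(1 + ε)) ≤ pUST (grid (m + 1)) := by
  obtain ⟨κ, hκ, n₀, h⟩ := asym0
  have ht : Tendsto (fun m : ℕ => √(√(log (m + 1)))) atTop atTop :=
    tendsto_sqrt_atTop.comp (tendsto_sqrt_atTop.comp (tendsto_log_atTop.comp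
      (tendsto_atTop_add_const_right _ _ tendsto_natCast_atTop_atTop)))
  filter_upwards [eventually_ge_atTop n₀, ht.eventually (eventually_ge_atTop 2),
    ht.eventually (small 424 one_pos hκ),
    ht.eventually (small 520 hε hκ)] with m h1 h2 h3 h4 w β ω a1 a2 a3 a4 a5
  have hn : (0 : ℝ) < m + 1 := by positivity
  have hr : √(√(log (m + 1))) ^ 4 = log ((m : ℝ) + 1) := by
    rw [show 4 = 2 * 2 from rfl, pow_mul, sq_sqrt (sqrt_nonneg _),
      sq_sqrt (log_nonneg (by linarith [Nat.cast_nonneg (α := ℝ) m]))]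
  refine le_trans ?_ (h m w _ β ω h1 h2 hr (by rwa [one_mul] at h3) a1 a2 a3 a4 a5)
  have hβ : 0 < β := lt_of_lt_of_le (by positivity) a4
  rw [mul_assoc, mul_div_assoc]
  refine mul_le_mul_of_nonneg_left ?_ hβ.le
  rw [hr] at h4
  rw [le_div_iff₀ hn, ← rpow_add_one hn.ne', rpow_def_of_pos hn, exp_neg, ← div_eq_mul_inv,
    le_div_iff₀ (exp_pos _)]
  refine (mul_le_mul_of_nonneg_left h4 (exp_pos _).le).trans (le_of_eq ?_)
  rw [mul_left_comm, ← exp_add, show log ((m : ℝ) + 1) * (-(1 + ε) + 1) + ε * log (m + 1) = 0 by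
    ring, exp_zero, mul_one]

theorem ust_lower {ε : ℝ} (hε : 0 < ε) :
    ∀ᶠ n : ℕ in atTop, (n : ℝ) ^ (-(3 / 4 + ε)) ≤ pUST (grid n) := by
  have ht : Tendsto (fun m : ℕ => (m : ℝ) + 1) atTop atTop :=
    tendsto_atTop_add_const_right _ _ tendsto_natCast_atTop_atTop
  have h1 := (tendsto_rpow_neg_atTop (half_pos hε)).comp ht
  have hc : 0 < exp (-51) / 10 ^ 12 := by positivity
  obtain ⟨m₀, h⟩ := eventually_atTop.mp ((asym (half_pos hε)).and ((h1.eventually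
    (eventually_le_nhds hc)).and ((ht.eventually (eventually_ge_atTop (10 ^ 12 / exp (-51)))).and
      (eventually_ge_atTop 20000))))
  refine eventually_atTop.mpr ⟨m₀ + 1, fun n hn => ?_⟩
  obtain ⟨m, rfl⟩ : ∃ m, n = m + 1 := ⟨n - 1, by omega⟩
  obtain ⟨h1, h2, h3, h4⟩ := h m (by omega)
  have hn : (0 : ℝ) < m + 1 := by positivity
  have h0 : ∀ a : ℕ, (0 : ℝ) ≤ min (a : ℝ) ((m + 1) ^ 2) := fun a => by positivity
  have hm : Monotone fun a : ℕ => min (a : ℝ) ((m + 1) ^ 2) := fun a b hab =>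
    min_le_min_right _ (by exact_mod_cast hab)
  have hρ : 1 ≤ ((m : ℝ) + 1) ^ (1 / 4 : ℝ) :=
    one_le_rpow (by linarith [Nat.cast_nonneg (α := ℝ) m]) (by norm_num)
  obtain ⟨w, hw⟩ : ∃ w, w = (m + 1) / 16 := ⟨_, rfl⟩
  obtain ⟨j, hj⟩ : ∃ j, j = w / 120 := ⟨_, rfl⟩
  have b1 : (m : ℝ) + 1 ≤ 2592 * j := by exact_mod_cast (show m + 1 ≤ 2592 * j by omega)
  refine le_trans ?_ (h1 w (exp (-51) / 10 ^ 12 * (m + 1) ^ (1 / 4 : ℝ)) _ (by omega) hm
    (fun a => ⟨h0 a, min_le_right _ _, min_le_left _ _⟩) ?_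
    ⟨Ioc (60 * j) (120 * j), (m + 1) ^ (1 / 4 : ℝ) / 12 / (15 * 10 ^ 9), ?_, fun h hh => ?_⟩)
  · push_cast
    rw [show -(3 / 4 + ε) = -(ε / 2) + (1 / 4 + -(1 + ε / 2)) by ring, rpow_add hn, rpow_add hn,
      mul_assoc]
    exact mul_le_mul_of_nonneg_right h2 (by positivity)
  · refine le_trans ?_ (le_mul_of_one_le_right hc.le hρ)
    exact (one_div_le_one_div_of_le (by positivity) h3).trans_eq (one_div_div _ _)
  · have b3 : (m : ℝ) + 1 ≤ 16 * (w + 1) := by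
      exact_mod_cast (show m + 1 ≤ 16 * (w + 1) by omega)
    have b4 : 15 * ((w : ℝ) + 1) ≤ m + 1 := by
      exact_mod_cast (show 15 * (w + 1) ≤ m + 1 by omega)
    have hw : (0 : ℝ) < w + 1 := by positivity
    have b5 : 3 / ((w : ℝ) + 1) * exp (-51) ≤ bt w m := by
      refine mul_le_mul_of_nonneg_left (exp_le_exp.mpr ?_) (by positivity)
      rw [neg_le_neg_iff, div_mul_eq_mul_div, div_le_iff₀ hw]
      linarith
    rw [Nat.card_Ioc, show 120 * j - 60 * j = 60 * j by omega]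
    refine le_trans ?_ (mul_le_mul_of_nonneg_left (mul_le_mul_of_nonneg_left b5 (by positivity))
      (by positivity))
    push_cast
    rw [show 60 * (j : ℝ) * ((m + 1) ^ (1 / 4 : ℝ) / 12 / (15 * 10 ^ 9) * (3 / (w + 1) * exp (-51)))
      = exp (-51) / 10 ^ 12 * (m + 1) ^ (1 / 4 : ℝ) * (1000 * j / (w + 1)) by ring]
    refine le_mul_of_one_le_right (by positivity) ?_
    rw [one_le_div hw]
    linarith
  · rw [mem_Ioc] at hh
    refine ⟨by omega, by omega, K_long (j := j) (by omega) hh.1.le hh.2 (by omega) h0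
      (fun l hl => le_min le_rfl ?_) ?_⟩
    · have : l ≤ (m + 1) * (m + 1) := hl.trans (Nat.mul_le_mul (by omega) (by omega))
      rw [sq]
      exact_mod_cast this
    · rw [div_pow, ← rpow_natCast, ← rpow_mul hn.le]
      norm_num
      linarith

end Pool.Agent.P.MP_5fda20_pr.U
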