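import Pool.Agent.P.MP_5fda20_pr.U.Path

/-! Cut levels and the comparison with the uncut path sum. -/

namespace Pool.Agent.P.MP_5fda20_pr.U

open Finset Filter Topology

/-- weights forbidding down steps out of the rows in `S` -/
def qS (S : Finset ℤ) (x z : V) : ℝ := if z.2 = x.2 - 1 ∧ x.2 ∈ S then 0 else 1

lemma wt_qS (S : Finset ℤ) : Wt (qS S) := fun x z => by
  unfold qS; split_ifs <;> norm_num

lemma qS_empty : qS ∅ = fun _ _ => 1 := by
  funext x z; simp [qS]

/-- complete monotonicity in dual form -/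
def CM (I : Finset ℤ) (φ : Finset ℤ → ℝ) : Prop :=
  ∀ α : Finset ℤ → ℝ, (∀ U ⊆ I, 0 ≤ ∑ S ∈ U.powerset, α S) → 0 ≤ ∑ S ∈ I.powerset, α S * φ S

lemma sum_pow_ite (I U : Finset ℤ) (f : Finset ℤ → ℝ) :
    ∑ S ∈ I.powerset, (if S ⊆ U then f S else 0) = ∑ S ∈ (I ∩ U).powerset, f S := by
  rw [← sum_filter]
  congr 1
  ext S
  simp only [mem_filter, mem_powerset, subset_inter_iff]

variable {I : Finset ℤ}

lemma CM_const {c : ℝ} (hc : 0 ≤ c) : CM I fun _ => c := fun α h => by
  rw [← sum_mul]; exact mul_nonneg (h I Subset.rfl) hc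

lemma CM_sum {ι : Type*} (s : Finset ι) {φ : ι → Finset ℤ → ℝ} (h : ∀ i ∈ s, CM I (φ i)) :
    CM I fun S => ∑ i ∈ s, φ i S := fun α hα => by
  simp only [mul_sum]
  rw [sum_comm]
  exact sum_nonneg fun i hi => h i hi α hα

lemma CM.add {φ ψ : Finset ℤ → ℝ} (h : CM I φ) (h' : CM I ψ) : CM I fun S => φ S + ψ S :=
  fun α hα => by
    simp only [mul_add, sum_add_distrib]
    exact add_nonneg (h α hα) (h' α hα)

lemma CM.mul {φ ψ : Finset ℤ → ℝ} (h : CM I φ) (h' : CM I ψ) : CM I fun S => φ S * ψ S := by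
  intro α hα
  simp only [← mul_assoc]
  refine h' (fun S => α S * φ S) fun U hU => ?_
  have := h (fun S => if S ⊆ U then α S else 0) fun U' hU' => by
    rw [sum_pow_ite]; exact hα _ (inter_subset_left.trans hU')
  simp only [ite_mul, zero_mul] at this
  rwa [sum_pow_ite, inter_eq_right.mpr hU] at this

lemma CM_qS (x z : V) : CM I fun S => qS S x z := by
  by_cases h : z.2 = x.2 - 1
  · intro α hα
    have := hα (I ∩ I.erase x.2) inter_subset_left
    rw [← sum_pow_ite] at this
    refine this.trans_eq (sum_congr rfl fun S hS => ?_)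
    by_cases hx : x.2 ∈ S <;> simp [qS, h, hx, subset_erase, mem_powerset.mp hS]
  · simpa [qS, h] using CM_const (I := I) zero_le_one

lemma CM_G (D : Finset V) (x y : V) : CM I fun S => G (qS S) D x y := by
  have key : ∀ k x, CM I fun S => It (qS S) D y k x := by
    intro k
    induction k with
    | zero => exact fun x => CM_const le_rfl
    | succ k ih =>
      intro x
      by_cases hx : x ∈ D
      · simp only [It, hx, if_true, div_eq_mul_inv]
        exact ((CM_const (dl_nonneg x y)).add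
          (CM_sum _ fun z _ => (CM_qS x z).mul (ih z))).mul (CM_const (by norm_num))
      · simp only [It, hx, if_false]
        exact CM_const le_rfl
  intro α hα
  exact ge_of_tendsto' (tendsto_finsetSum _ fun S _ => (It_tend (wt_qS S) y x).const_mul _)
    fun k => key k x α hα

variable {M : Type} {st : V → V → M → M} {Φ : V → M → ℝ}

lemma CM_E (hΦ : ∀ z σ, 0 ≤ Φ z σ) (D : Finset V) :
    ∀ a σ, CM I fun S => E (qS S) st Φ D a σ := by
  induction D using ind_erase with
  | h D ih =>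
    intro a σ
    by_cases h : a ∈ D
    · simp only [E_in h]
      exact (CM_G D a a).mul (CM_sum _ fun z _ => (CM_qS a z).mul (ih a h _ _))
    · simp only [E_out h]
      exact CM_const (hΦ a σ)

lemma card_small (U : Finset ℤ) (k : ℕ) :
    (U.powerset.filter fun S => S.card ≤ k).card ≤ (U.card + 1) ^ k := by
  induction k with
  | zero =>
    rw [pow_zero, card_le_one]
    intro a ha b hb
    simp only [mem_filter, Nat.le_zero, card_eq_zero] at ha hb
    rw [ha.2, hb.2]
  | succ k ih =>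
    have : (U.powerset.filter fun S => S.card ≤ k + 1) ⊆
        (U.powerset.filter fun S => S.card ≤ k) ∪
          (U ×ˢ U.powerset.filter fun S => S.card ≤ k).image fun p => insert p.1 p.2 := by
      intro S hS
      simp only [mem_filter, mem_powerset, mem_union, mem_image, mem_product] at hS ⊢
      by_cases h : S.card ≤ k
      · exact Or.inl ⟨hS.1, h⟩
      · obtain ⟨a, ha⟩ : S.Nonempty := card_pos.mp (by omega)
        refine Or.inr ⟨(a, S.erase a), ⟨hS.1 ha, (erase_subset _ _).trans hS.1, ?_⟩,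
          insert_erase ha⟩
        rw [card_erase_of_mem ha]; omega
    refine (card_le_card this).trans ((card_union_le _ _).trans ?_)
    refine (Nat.add_le_add_left card_image_le _).trans ?_
    rw [card_product, pow_succ]
    nlinarith

lemma CM.bound {φ : Finset ℤ → ℝ} (h : CM I φ) (k L : ℕ) {l η : ℝ} (hl : 0 ≤ l) (hη : 0 ≤ η)
    (hL : ((I.card + 1 : ℕ) : ℝ) ^ k ≤ η * (1 + l) ^ L) :
    ∑ S ∈ I.powerset.filter (fun S => S.card ≤ k), φ S ≤
      (L : ℝ) ^ k * φ ∅ + η * ∑ S ∈ I.powerset, l ^ S.card * φ S := by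
  have := h (fun S => (if S = ∅ then (L : ℝ) ^ k else 0) + η * l ^ S.card -
    if S.card ≤ k then 1 else 0) fun U hU => by
      have e : ∑ S ∈ U.powerset, l ^ S.card = (1 + l) ^ U.card := by
        simpa using (Finset.prod_one_add (f := fun _ : ℤ => l) U).symm
      rw [sum_sub_distrib, sum_add_distrib, sum_ite_eq', if_pos (by simp), ← mul_sum, e,
        ← sum_filter, sum_const, nsmul_eq_mul, mul_one, sub_nonneg]
      have h1 : ((U.powerset.filter fun S => S.card ≤ k).card : ℝ) ≤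
          ((U.card + 1 : ℕ) : ℝ) ^ k := by exact_mod_cast card_small U k
      rcases le_or_gt L U.card with h2 | h2
      · have h3 : ((U.card + 1 : ℕ) : ℝ) ^ k ≤ ((I.card + 1 : ℕ) : ℝ) ^ k := by
          have := card_le_card hU
          gcongr
        have h4 : η * (1 + l) ^ L ≤ η * (1 + l) ^ U.card :=
          mul_le_mul_of_nonneg_left (pow_le_pow_right₀ (by linarith) h2) hη
        have : (0 : ℝ) ≤ (L : ℝ) ^ k := by positivity
        linarith
      · have h3 : ((U.card + 1 : ℕ) : ℝ) ^ k ≤ (L : ℝ) ^ k := by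
          gcongr; omega
        have : (0 : ℝ) ≤ η * (1 + l) ^ U.card := by positivity
        linarith
  simp only [sub_mul, add_mul, sum_sub_distrib, sum_add_distrib, ite_mul, zero_mul, one_mul,
    sum_ite_eq', mem_powerset, empty_subset, if_true, mul_assoc, ← mul_sum, ← sum_filter] at this
  linarith

/-- height above the last cut -/
def dd (S : Finset ℤ) : ℕ → ℕ
  | 0 => 0
  | j + 1 => if (j : ℤ) + 2 ∈ S then 0 else dd S j + 1

/-- ratio of the linear barrier -/
noncomputable def rt (d : ℕ) : ℝ := ((d : ℝ) + 1) / (d + 2)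

lemma rt_pos (d : ℕ) : 0 < rt d := by unfold rt; positivity

lemma dd_insert (S : Finset ℤ) (m : ℕ) {i : ℕ} (hi : i ≤ m) :
    dd (insert ((m : ℤ) + 2) S) i = dd S i := by
  induction i with
  | zero => rfl
  | succ i ih =>
    have : (i : ℤ) + 2 ≠ m + 2 := by omega
    simp only [dd, mem_insert, this, false_or, ih (by omega)]

/-- a piece of the harmonic series -/
noncomputable def hs (d k : ℕ) : ℝ := ∑ i ∈ range k, 1 / ((d : ℝ) + i + 2)

lemma tail_aux {l : ℝ} (hl : 0 ≤ l) (K : ℕ) (hK : ∀ k ≤ K, 2 * l * hs 0 k ≤ 1) (m : ℕ) :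
    ∀ k, m + k = K → ∑ S ∈ (Ioc (1 : ℤ) (m + 1)).powerset, l ^ S.card *
      ((∏ i ∈ range m, rt (dd S i)) * (1 + 2 * l * (dd S m + 1) * hs (dd S m) k)) ≤ 2 := by
  induction m with
  | zero =>
    intro k hk
    have := hK k (by omega)
    simp [dd]
    linarith
  | succ m ih =>
    intro k hk
    refine le_trans ?_ (ih (k + 1) (by omega))
    have e : Ioc (1 : ℤ) ((m + 1 : ℕ) + 1) = insert ((m : ℤ) + 2) (Ioc (1 : ℤ) (m + 1)) := by
      ext x; simp only [mem_Ioc, mem_insert]; omega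
    have hn : (m : ℤ) + 2 ∉ Ioc (1 : ℤ) (m + 1) := by simp only [mem_Ioc]; omega
    rw [e, sum_powerset_insert hn, ← sum_add_distrib]
    refine sum_le_sum fun S hS => ?_
    have hm : (m : ℤ) + 2 ∉ S := fun h => hn (mem_powerset.mp hS h)
    have e1 : ∏ i ∈ range (m + 1), rt (dd (insert ((m : ℤ) + 2) S) i) =
        ∏ i ∈ range (m + 1), rt (dd S i) :=
      prod_congr rfl fun i hi => by rw [dd_insert S m (Nat.lt_succ_iff.mp (mem_range.mp hi))]
    have e2 : dd (insert ((m : ℤ) + 2) S) (m + 1) = 0 := by simp [dd]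
    have e3 : dd S (m + 1) = dd S m + 1 := by simp [dd, hm]
    rw [e1, e2, e3, card_insert_of_notMem hm, prod_range_succ]
    have hP : 0 ≤ l ^ S.card * ∏ i ∈ range m, rt (dd S i) :=
      mul_nonneg (pow_nonneg hl _) (prod_nonneg fun i _ => (rt_pos _).le)
    generalize dd S m = d
    have e4 : hs d (k + 1) = 1 / ((d : ℝ) + 2) + hs (d + 1) k := by
      unfold hs
      rw [sum_range_succ', add_comm]
      push_cast
      congr 1
      · ring
      · exact sum_congr rfl fun i _ => by ring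
    have h5 := hK k (by omega)
    have h6 : rt d * (1 + 2 * l * ((d + 1 : ℕ) + 1) * hs (d + 1) k) +
        rt d * (l * (1 + 2 * l * ((0 : ℕ) + 1) * hs 0 k)) ≤
          1 + 2 * l * (d + 1) * hs d (k + 1) := by
      have r1 : rt d ≤ 1 := by unfold rt; rw [div_le_one (by positivity)]; linarith
      have r2 : rt d * (d + 2) = d + 1 := by unfold rt; field_simp
      have r3 : rt d * (l * (1 + 2 * l * hs 0 k)) ≤ rt d * (l * 2) :=
        mul_le_mul_of_nonneg_left (mul_le_mul_of_nonneg_left (by linarith) hl) (rt_pos d).le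
      have r4 : ((d : ℝ) + 1) * (1 / (d + 2)) = rt d := by unfold rt; ring
      rw [e4]
      push_cast
      have r5 : rt d * (2 * l * (d + 1 + 1) * hs (d + 1) k) = 2 * l * (d + 1) * hs (d + 1) k := by
        linear_combination (2 * l * hs (d + 1) k) * r2
      have r6 : 2 * l * (d + 1) * (1 / ((d : ℝ) + 2)) = rt d * (l * 2) := by rw [← r4]; ring
      nlinarith
    calc _ = (l ^ S.card * ∏ i ∈ range m, rt (dd S i)) *
          (rt d * (1 + 2 * l * ((d + 1 : ℕ) + 1) * hs (d + 1) k) +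
            rt d * (l * (1 + 2 * l * ((0 : ℕ) + 1) * hs 0 k))) := by ring
      _ ≤ _ := (mul_le_mul_of_nonneg_left h6 hP).trans_eq (by ring)

lemma hs_le (k : ℕ) : hs 0 k ≤ Real.log (k + 1) := by
  induction k with
  | zero => simp [hs]
  | succ k ih =>
    unfold hs at *
    rw [sum_range_succ]
    have h := Real.log_le_sub_one_of_pos (show 0 < ((k : ℝ) + 1) / (k + 2) by positivity)
    rw [Real.log_div (by positivity) (by positivity)] at h
    have e : ((k : ℝ) + 1) / (k + 2) - 1 = -(1 / (k + 2)) := by field_simp; ring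
    push_cast at *
    rw [show (k : ℝ) + 1 + 1 = k + 2 by ring]
    simp only [zero_add] at ih ⊢
    linarith

/-- the part of the dual grid in rows at least `y` -/
noncomputable def Dm (n y : ℤ) : Finset V := Icc 1 (n - 1) ×ˢ Icc y (n - 1)

lemma mem_Dm {n y : ℤ} {z : V} : z ∈ Dm n y ↔ (1 ≤ z.1 ∧ z.1 ≤ n - 1) ∧ y ≤ z.2 ∧ z.2 ≤ n - 1 := by
  simp [Dm]

lemma E_cut_le (K : ℕ) (S : Finset ℤ) {B : ℝ} (hB : 0 ≤ B)
    (hΦ : ∀ z σ, Φ z σ ≤ if z.2 = K + 1 then B else 0) {a : V} (ha : a.2 = 1) (σ : M) :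
    E (qS S) st Φ (Dm (K + 1) 1) a σ ≤ B * ∏ i ∈ range K, rt (dd S i) := by
  let u : ℤ → ℝ := fun r => if 1 ≤ r then B * ∏ i ∈ Ico (r - 1).toNat K, rt (dd S i) else 0
  have hu : ∀ r, 0 ≤ u r := fun r => by
    simp only [u]
    split_ifs
    · exact mul_nonneg hB (prod_nonneg fun i _ => (rt_pos _).le)
    · exact le_rfl
  have hstep : ∀ j : ℕ, j < K → u (j + 1) = rt (dd S j) * u (j + 2) := fun j hj => by
    simp only [u]
    rw [if_pos (by omega), if_pos (by omega), show ((j : ℤ) + 1 - 1).toNat = j by omega,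
      show ((j : ℤ) + 2 - 1).toNat = j + 1 by omega, prod_eq_prod_Ico_succ_bot hj]
    ring
  have := E_le (st := st) (Φ := Φ) (wt_qS S) (Dm (K + 1) 1) (fun z => u z.2) ?_ ?_ ?_ a σ
  · simpa [u, ha] using this
  · intro z hz τ
    have := hΦ z τ
    rwa [if_neg (by have := mem_Dm.mp hz; omega)] at this
  · intro z _ τ
    refine (hΦ z τ).trans ?_
    split_ifs with h
    · simp [u, h]
    · exact hu _
  · intro x hx
    obtain ⟨-, h1, h2⟩ := mem_Dm.mp hx
    obtain ⟨j, hj⟩ : ∃ j : ℕ, x.2 = j + 1 := ⟨(x.2 - 1).toNat, by omega⟩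
    have e := hstep j (by omega)
    have q1 : ∀ w : ℤ, qS S x (w, x.2) = 1 := fun w => if_neg (by simp only []; omega)
    have q2 : qS S x (x.1, x.2 + 1) = 1 := if_neg (by simp only []; omega)
    have q3 : qS S x (x.1, x.2 - 1) = if x.2 ∈ S then 0 else 1 := by simp [qS]
    rw [sum_nb, q1, q1, q2, q3]
    simp only [hj]
    rw [show (j : ℤ) + 1 + 1 = j + 2 by ring, show (j : ℤ) + 1 - 1 = j by ring]
    have r2 : ∀ d : ℕ, rt d * (d + 2) = d + 1 := fun d => by unfold rt; field_simp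
    cases j with
    | zero =>
      have : u (0 : ℕ) = 0 := by simp [u]
      have r0 : rt 0 = 1 / 2 := by simp [rt]
      simp only [dd, r0] at e
      push_cast at *
      split_ifs <;> linarith
    | succ j =>
      have e' := hstep j (by omega)
      by_cases h : (j : ℤ) + 2 ∈ S
      · have r0 : rt 0 = 1 / 2 := by simp [rt]
        rw [if_pos (by push_cast; rwa [add_assoc])]
        simp only [dd, h, if_true, r0] at e
        push_cast at *
        linarith
      · rw [if_neg (by push_cast; rwa [add_assoc])]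
        simp only [dd, h, if_false] at e
        have a1 := r2 (dd S j)
        have a2 := r2 (dd S j + 1)
        push_cast at *
        rw [show (j : ℤ) + 1 + 1 = j + 2 by ring] at *
        have hd : (0 : ℝ) < dd S j + 2 := by positivity
        refine le_of_mul_le_mul_left (le_of_eq ?_) hd
        have a3 : (dd S j + 2) * u (j + 1 + 2) = (dd S j + 3) * u (j + 2) := by
          rw [e]; linear_combination (-u (j + 1 + 2)) * a2
        have a4 : (dd S j + 2) * u (j + 1) = (dd S j + 1) * u (j + 2) := by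
          rw [e']; linear_combination (u (j + 2)) * a1
        linear_combination a3 + a4

/-- sum over at most `k` cuts above row `y` -/
noncomputable def Mk (n : ℤ) (st : V → V → M → M) (Φ : V → M → ℝ) (k : ℕ) (y : ℤ) (a : V)
    (σ : M) : ℝ :=
  ∑ S ∈ (Ioc y n).powerset.filter (fun S => S.card ≤ k), E (qS S) st Φ (Dm n y) a σ

lemma Mk_le (K k L : ℕ) {l η B : ℝ} (hl : 0 ≤ l) (hη : 0 ≤ η) (hB : 0 ≤ B)
    (hl2 : 2 * l * Real.log (K + 1) ≤ 1) (hL : ((K : ℝ) + 1) ^ k ≤ η * (1 + l) ^ L)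
    (h0 : ∀ z σ, 0 ≤ Φ z σ) (hΦ : ∀ z σ, Φ z σ ≤ if z.2 = K + 1 then B else 0) {a : V}
    (ha : a.2 = 1) (σ : M) : Mk (K + 1) st Φ k 1 a σ ≤
      (L : ℝ) ^ k * E (fun _ _ => 1) st Φ (Dm (K + 1) 1) a σ + η * (2 * B) := by
  have h := (CM_E (I := Ioc 1 ((K : ℤ) + 1)) (st := st) h0 (Dm (K + 1) 1) a σ).bound k L hl hη
    (by simpa using hL)
  rw [qS_empty] at h
  refine h.trans (add_le_add le_rfl (mul_le_mul_of_nonneg_left ?_ hη))
  have t := tail_aux hl K (fun k hk => le_trans (mul_le_mul_of_nonneg_left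
    ((hs_le k).trans (Real.log_le_log (by positivity) (by exact_mod_cast Nat.succ_le_succ hk)))
      (by positivity)) hl2) K 0 rfl
  simp only [hs, range_zero, sum_empty, mul_zero, add_zero, mul_one] at t
  calc _ ≤ ∑ S ∈ (Ioc 1 ((K : ℤ) + 1)).powerset, B * (l ^ S.card * ∏ i ∈ range K, rt (dd S i)) :=
        sum_le_sum fun S _ => (mul_le_mul_of_nonneg_left (E_cut_le K S hB hΦ ha σ)
          (pow_nonneg hl _)).trans_eq (by ring)
    _ ≤ _ := by rw [← mul_sum, mul_comm]; exact mul_le_mul_of_nonneg_right t hB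

lemma Mk_nonneg (h0 : ∀ z σ, 0 ≤ Φ z σ) (n : ℤ) (k : ℕ) (y : ℤ) (a : V) (σ : M) :
    0 ≤ Mk n st Φ k y a σ := sum_nonneg fun S _ => E_nonneg (wt_qS S) h0 _ _ _

lemma Mk_mono (h0 : ∀ z σ, 0 ≤ Φ z σ) (n : ℤ) {k k' : ℕ} (h : k ≤ k') (y : ℤ) (a : V) (σ : M) :
    Mk n st Φ k y a σ ≤ Mk n st Φ k' y a σ :=
  sum_le_sum_of_subset_of_nonneg (monotone_filter_right _ fun _ _ h' => h'.trans h)
    fun S _ _ => E_nonneg (wt_qS S) h0 _ _ _

lemma E_dom {q q' : V → V → ℝ} (hq : Wt q) (hq' : Wt q') (h0 : ∀ z σ, 0 ≤ Φ z σ) {W D : Finset V}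
    (hW : W ⊆ D) (h1 : ∀ z ∈ D, ∀ σ, Φ z σ ≤ 0)
    (hqq : ∀ x ∈ W, ∀ z ∈ nb x, q x z ≤ q' x z ∨ (z ∉ W ∧ ∀ σ, Φ z σ ≤ 0))
    (hqq' : ∀ x ∈ W, ∀ z ∈ W, q x z ≤ q' x z) (a : V) (σ : M) :
    E q st Φ W a σ ≤ E q' st Φ D a σ := by
  refine E_dec hq hq' h0 (disjoint_empty_right W) (D₀ := D) (fun D' _ h z τ => ?_) hqq hqq' W
    Subset.rfl D hW (empty_subset _) Subset.rfl a σ
  by_cases hz : z ∈ D'
  · exact (h1 z (h hz) τ).trans (E_nonneg hq' h0 _ _ _)
  · rw [E_out hz]

/-- adding one more piece below -/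
lemma Mk_step {n y : ℤ} (h0 : ∀ z σ, 0 ≤ Φ z σ) (h1 : ∀ z σ, z.2 ≠ n → Φ z σ ≤ 0) (k : ℕ)
    (Y : Finset ℤ) (hY : Y ⊆ Ioc y n) (W : ℤ → Finset V)
    (hW : ∀ y' ∈ Y, ∀ z ∈ W y', z ∈ Dm n y ∧ z.2 < y') (a : V) (σ : M) :
    ∑ y' ∈ Y, E (fun _ _ => 1) st (fun z τ => if z.2 = y' then Mk n st Φ k y' z τ else 0)
      (W y') a σ ≤ Mk n st Φ (k + 1) y a σ := by
  have key : ∀ y' ∈ Y, E (fun _ _ => 1) st
      (fun z τ => if z.2 = y' then Mk n st Φ k y' z τ else 0) (W y') a σ ≤
      ∑ S ∈ (Ioc y' n).powerset.filter (fun S => S.card ≤ k),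
        E (qS (insert y' S)) st Φ (Dm n y) a σ := by
    intro y' hy'
    have hy := mem_Ioc.mp (hY hy')
    have e : (fun (z : V) τ => if z.2 = y' then Mk n st Φ k y' z τ else 0) = fun z τ =>
        ∑ S ∈ (Ioc y' n).powerset.filter (fun S => S.card ≤ k),
          1 * (if z.2 = y' then E (qS S) st Φ (Dm n y') z τ else 0) := by
      funext z τ
      split_ifs <;> simp [Mk]
    rw [e, E_sum]
    refine sum_le_sum fun S hS => ?_
    have hS' : ∀ r ∈ S, y' < r := fun r hr =>
      (mem_Ioc.mp (mem_powerset.mp (mem_filter.mp hS).1 hr)).1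
    have hq : ∀ x ∈ W y', ∀ z, 1 ≤ qS (insert y' S) x z := fun x hx z => by
      have := (hW y' hy' x hx).2
      rw [qS, if_neg]
      rintro ⟨-, h⟩
      rcases mem_insert.mp h with h | h
      · omega
      · have := hS' _ h; omega
    rw [one_mul]
    refine E_dec wt_one (wt_qS _) h0 (W₀ := W y') (U := Dm n y') (D₀ := Dm n y) ?_ ?_
      (fun x hx z _ => Or.inl (hq x hx z)) (fun x hx z _ => hq x hx z) _ Subset.rfl _
      (fun z hz => (hW y' hy' z hz).1) (fun z hz => ?_) Subset.rfl a σ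
    · refine disjoint_left.mpr fun z hz hz' => ?_
      have := (hW y' hy' z hz).2
      have := mem_Dm.mp hz'
      omega
    · intro D hD hD' z τ
      split_ifs with hz
      · refine E_dom (wt_qS _) (wt_qS _) h0 hD (fun z hz τ => h1 z τ ?_) ?_ ?_ z τ
        · have := mem_Dm.mp (hD' hz); omega
        · intro x hx w _
          by_cases h : w.2 = x.2 - 1 ∧ x.2 = y'
          · refine Or.inr ⟨fun h' => ?_, fun τ => h1 w τ (by omega)⟩
            have := mem_Dm.mp h'; omega
          · refine Or.inl ?_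
            simp only [qS, mem_insert]
            split_ifs with h2 h3 h3
            · norm_num
            · norm_num
            · tauto
            · norm_num
        · intro x hx w hw
          have := mem_Dm.mp hw
          simp only [qS, mem_insert]
          split_ifs with h2 h3 h3
          · norm_num
          · norm_num
          · exact absurd ⟨h3.1, h3.2.resolve_left (by omega)⟩ h2
          · norm_num
      · exact E_nonneg (wt_qS _) h0 _ _ _
    · rw [mem_Dm] at *; omega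
  refine (sum_le_sum key).trans ?_
  rw [sum_sigma', Mk]
  rw [← sum_image (g := fun p : (_ : ℤ) × Finset ℤ => insert p.1 p.2)
    (f := fun S => E (qS S) st Φ (Dm n y) a σ)]
  · refine sum_le_sum_of_subset_of_nonneg (fun S hS => ?_) fun S _ _ =>
      E_nonneg (wt_qS S) h0 _ _ _
    simp only [mem_image, mem_sigma, mem_filter, mem_powerset] at hS ⊢
    obtain ⟨p, ⟨h2, h3, h4⟩, rfl⟩ := hS
    refine ⟨insert_subset (hY h2) (h3.trans (Ioc_subset_Ioc_left (mem_Ioc.mp (hY h2)).1.le)),
      (card_insert_le _ _).trans (by omega)⟩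
  · rintro ⟨y1, S1⟩ hp ⟨y2, S2⟩ hp' h
    simp only [coe_sigma, Set.mem_sigma_iff, mem_coe, mem_filter, mem_powerset] at hp hp' h
    have n1 : ∀ r ∈ S1, y1 < r := fun r hr => (mem_Ioc.mp (hp.2.1 hr)).1
    have n2 : ∀ r ∈ S2, y2 < r := fun r hr => (mem_Ioc.mp (hp'.2.1 hr)).1
    have e : y1 = y2 := by
      have a1 : y1 ∈ insert y2 S2 := h ▸ mem_insert_self _ _
      have a2 : y2 ∈ insert y1 S1 := h.symm ▸ mem_insert_self _ _
      rcases mem_insert.mp a1 with a | a
      · exact a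
      rcases mem_insert.mp a2 with b | b
      · exact b.symm
      have := n1 _ b; have := n2 _ a; omega
    subst e
    have : S1 = S2 := by
      rw [← erase_insert (s := S1) (a := y1) fun h => lt_irrefl _ (n1 _ h), h,
        erase_insert fun h => lt_irrefl _ (n2 _ h)]
    rw [this]

end Pool.Agent.P.MP_5fda20_pr.U
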