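import Pool.Agent.P.MP_5fda20_pr.U.Cut
import Pool.Agent.P.MP_a28080_pr.Tree

/-! Planar duality for the grid graph. -/

namespace Pool.Agent.P.MP_5fda20_pr.U

open Finset SimpleGraph MP_a28080_pr

/-- the grid graph -/
abbrev grid (n : ℕ) : SimpleGraph (Fin n × Fin n) := pathGraph n □ pathGraph n

/-- the square on the left of a step -/
def lf (p q : V) : V := ((p.1 + q.1 - q.2 + p.2 - 1) / 2, (p.2 + q.2 + q.1 - p.1 - 1) / 2)

/-- the start of the step with given left and right squares -/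
def du (s t : V) : V := ((s.1 + t.1 + 1 + t.2 - s.2) / 2, (s.2 + t.2 + 1 - t.1 + s.1) / 2)

lemma lf_du {s t : V} (h : t ∈ nb s) : lf (du s t) (du t s) = s := by
  rw [mem_nb] at h; ext <;> simp only [lf, du] <;> omega

lemma du_lf {p q : V} (h : q ∈ nb p) : du (lf p q) (lf q p) = p := by
  rw [mem_nb] at h; ext <;> simp only [lf, du] <;> omega

lemma nb_lf {p q : V} (h : q ∈ nb p) : lf q p ∈ nb (lf p q) := by
  rw [mem_nb] at *; simp only [lf]; omega

lemma nb_du {s t : V} (h : t ∈ nb s) : du t s ∈ nb (du s t) := by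
  rw [mem_nb] at *; simp only [du]; omega

lemma div_zero (φ : V → ℤ) (p : V) : ∑ q ∈ nb p, (φ (lf p q) - φ (lf q p)) = 0 := by
  rw [sum_nb]
  have e1 : lf p (p.1 + 1, p.2) = lf (p.1, p.2 + 1) p := by ext <;> simp only [lf] <;> omega
  have e2 : lf p (p.1, p.2 + 1) = lf (p.1 - 1, p.2) p := by ext <;> simp only [lf] <;> omega
  have e3 : lf p (p.1 - 1, p.2) = lf (p.1, p.2 - 1) p := by ext <;> simp only [lf] <;> omega
  have e4 : lf p (p.1, p.2 - 1) = lf (p.1 + 1, p.2) p := by ext <;> simp only [lf] <;> omega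
  rw [e1, e2, e3, e4]
  ring

variable {n : ℕ}

/-- coordinates of a vertex of the grid -/
def co (s : Fin n × Fin n) : V := ((s.1 : ℕ), (s.2 : ℕ))

lemma co_inj : Function.Injective (co (n := n)) := fun s t h => by
  simp only [co, Prod.ext_iff] at h
  ext <;> omega

lemma grid_adj {s t : Fin n × Fin n} : (grid n).Adj s t ↔ co t ∈ nb (co s) := by
  simp only [boxProd_adj, pathGraph_adj, mem_nb, co, Fin.ext_iff]
  omega

lemma du_mem {s t : Fin n × Fin n} (h : (grid n).Adj s t) :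
    du (co s) (co t) ∈ Dm n 1 ∨ du (co t) (co s) ∈ Dm n 1 := by
  have h1 := s.1.2
  have h2 := s.2.2
  have h3 := t.1.2
  have h4 := t.2.2
  rw [grid_adj, mem_nb] at h
  simp only [mem_Dm, du, co] at *
  omega

lemma ex_co {p q : V} (hp : p ∈ Dm n 1) (h : q ∈ nb p) :
    ∃ s t : Fin n × Fin n, co s = lf p q ∧ co t = lf q p ∧ (grid n).Adj s t ∧
      du (co s) (co t) = p ∧ du (co t) (co s) = q := by
  have key : ∀ z : V, 0 ≤ z.1 → z.1 < n → 0 ≤ z.2 → z.2 < n → ∃ s : Fin n × Fin n, co s = z :=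
    fun z a b c d => ⟨(⟨z.1.toNat, by omega⟩, ⟨z.2.toNat, by omega⟩), by
      ext <;> simp only [co] <;> omega⟩
  have h' := h
  rw [mem_nb] at h'
  rw [mem_Dm] at hp
  obtain ⟨s, hs⟩ := key (lf p q) (by simp only [lf]; omega) (by simp only [lf]; omega)
    (by simp only [lf]; omega) (by simp only [lf]; omega)
  obtain ⟨t, ht⟩ := key (lf q p) (by simp only [lf]; omega) (by simp only [lf]; omega)
    (by simp only [lf]; omega) (by simp only [lf]; omega)
  exact ⟨s, t, hs, ht, by rw [grid_adj, hs, ht]; exact nb_lf h, by rw [hs, ht, du_lf h],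
    by rw [hs, ht, du_lf (nb_symm h)]⟩

/-- the edges of the grid that do not cross `H` -/
def Pr (n : ℕ) (H : SimpleGraph V) : SimpleGraph (Fin n × Fin n) where
  Adj s t := (grid n).Adj s t ∧ ¬ H.Adj (du (co s) (co t)) (du (co t) (co s))
  symm := ⟨fun _ _ h => ⟨h.1.symm, fun h' => h.2 h'.symm⟩⟩
  loopless := ⟨fun _ h => h.1.ne rfl⟩

open Classical in
/-- indicator of a set of vertices -/
noncomputable def ind (A : Set (Fin n × Fin n)) (z : V) : ℤ := if z ∈ co '' A then 1 else 0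

lemma ind_eq {A : Set (Fin n × Fin n)} {s t : Fin n × Fin n} :
    ind A (co s) = ind A (co t) ↔ (s ∈ A ↔ t ∈ A) := by
  by_cases hs : s ∈ A <;> by_cases ht : t ∈ A <;> simp [ind, co_inj.eq_iff, hs, ht]

lemma flow_zero {D : Finset V} {f : V → V} (hf : f ∈ For D nb) (φ : V → ℤ)
    (h : ∀ p ∈ D, ∀ q ∈ nb p, ¬ (gr f).Adj p q → φ (lf p q) = φ (lf q p)) :
    ∀ p ∈ D, φ (lf p (f p)) = φ (lf (f p) p) := by
  classical
  obtain ⟨h1, h2, h3⟩ := mem_For.mp hf
  set B := D.filter fun p => φ (lf p (f p)) ≠ φ (lf (f p) p) with hB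
  have hs : B ⊆ B.image f := fun p hp => by
    obtain ⟨hp, hp2⟩ := mem_filter.mp hp
    by_contra hc
    have := div_zero φ p
    rw [sum_eq_single_of_mem _ (h2 p hp) fun q hq hne => ?_] at this
    · exact hp2 (sub_eq_zero.mp this)
    · by_cases ha : (gr f).Adj p q
      · rcases gr_cases hf ha with ⟨-, e⟩ | ⟨hq', e⟩
        · exact absurd e.symm hne
        · by_contra h4
          exact hc (mem_image.mpr ⟨q, mem_filter.mpr ⟨hq', by
            rw [e]; exact fun h5 => h4 (sub_eq_zero.mpr h5.symm)⟩, e⟩)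
      · exact sub_eq_zero.mpr (h p hp q hq ha)
  have he : B = B.image f := eq_of_subset_of_card_le hs card_image_le
  intro p hp
  by_contra hc
  obtain ⟨k, hk⟩ := h3 p
  have : ∀ k, f^[k] p ∈ B := fun k => by
    induction k with
    | zero => exact mem_filter.mpr ⟨hp, hc⟩
    | succ k ih => rw [Function.iterate_succ_apply', he]; exact mem_image_of_mem f ih
  exact hk (mem_filter.mp (this k)).1

lemma grid_conn (m : ℕ) : (grid (m + 1)).Connected :=
  (pathGraph_connected m).boxProd (pathGraph_connected m)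

lemma const_of {W α : Type*} {G : SimpleGraph W} (L : W → α) (h : ∀ s t, G.Adj s t → L s = L t)
    {s t : W} (hr : G.Reachable s t) : L s = L t := by
  obtain ⟨w⟩ := hr
  induction w with
  | nil => rfl
  | cons ha _ ih => exact (h _ _ ha).trans ih

lemma card_grid (m : ℕ) : (grid (m + 1)).edgeSet.ncard ≤ 2 * ((m + 1) * m) := by
  let g : Bool × Fin (m + 1) × Fin m → Sym2 (Fin (m + 1) × Fin (m + 1)) := fun z =>
    if z.1 then s((z.2.1, z.2.2.castSucc), (z.2.1, z.2.2.succ))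
    else s((z.2.2.castSucc, z.2.1), (z.2.2.succ, z.2.1))
  have hs : (grid (m + 1)).edgeSet ⊆ g '' Set.univ := by
    intro e he
    induction e using Sym2.ind with
    | h a b =>
      obtain ⟨a1, a2⟩ := a
      obtain ⟨b1, b2⟩ := b
      have h1 := a1.2
      have h2 := a2.2
      have h3 := b1.2
      have h4 := b2.2
      simp only [mem_edgeSet, boxProd_adj, pathGraph_adj] at he
      rcases he with ⟨h | h, rfl⟩ | ⟨h | h, rfl⟩
      · exact ⟨(false, a2, ⟨a1, by omega⟩), trivial, by simp [g, h]⟩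
      · exact ⟨(false, a2, ⟨b1, by omega⟩), trivial, by simp [g, h]⟩
      · exact ⟨(true, a1, ⟨a2, by omega⟩), trivial, by simp [g, h]⟩
      · exact ⟨(true, a1, ⟨b2, by omega⟩), trivial, by simp [g, h]⟩
  refine (Set.ncard_le_ncard hs).trans ((Set.ncard_image_le).trans ?_)
  simp [Set.ncard_univ]

lemma Pr_tree {m : ℕ} {f : V → V} (hf : f ∈ For (Dm (m + 1 : ℕ) 1) nb) :
    (Pr (m + 1) (gr f)).IsTree := by
  obtain ⟨h1, h2, h3⟩ := mem_For.mp hf
  have hc : (Pr (m + 1) (gr f)).Connected := by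
    refine (connected_iff _).mpr ⟨fun s t => ?_, inferInstance⟩
    set A := {w | (Pr (m + 1) (gr f)).Reachable s w}
    have k1 : ∀ p ∈ Dm (m + 1 : ℕ) 1, ∀ q ∈ nb p, ¬ (gr f).Adj p q →
        ind A (lf p q) = ind A (lf q p) := fun p hp q hq h => by
      obtain ⟨a, b, e1, e2, e3, e4, e5⟩ := ex_co hp hq
      have : (Pr (m + 1) (gr f)).Adj a b := ⟨e3, by rwa [e4, e5]⟩
      rw [← e1, ← e2, ind_eq]
      exact ⟨fun h => Reachable.trans h this.reachable, fun h => Reachable.trans h this.symm.reachable⟩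
    have k2 := flow_zero hf _ k1
    have k3 : ∀ p q, q ∈ nb p → p ∈ Dm (m + 1 : ℕ) 1 → ind A (lf p q) = ind A (lf q p) :=
      fun p q hq hp => by
        by_cases h : (gr f).Adj p q
        · rcases gr_cases hf h with ⟨a, rfl⟩ | ⟨a, rfl⟩
          exacts [k2 _ a, (k2 _ a).symm]
        · exact k1 p hp q hq h
    have := const_of (G := grid (m + 1)) (fun w => ind A (co w)) (fun a b h => by
      have h' := grid_adj.mp h
      rw [← lf_du h', ← lf_du (nb_symm h')]
      rcases du_mem h with k | k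
      · simpa only [lf_du h', lf_du (nb_symm h')] using k3 _ _ (nb_du h') k
      · simpa only [lf_du h', lf_du (nb_symm h')] using (k3 _ _ (nb_du (nb_symm h')) k).symm)
      ((grid_conn m).preconnected s t)
    exact (ind_eq.mp this).mp (Reachable.refl s)
  rw [isTree_iff_connected_and_card]
  refine ⟨hc, le_antisymm ?_ hc.card_vert_le_card_edgeSet_add_one⟩
  choose! a b e1 e2 e3 e4 e5 using fun p hp => ex_co (n := m + 1) (p := p) hp (h2 p hp)
  have k1 : ((fun p => s(a p, b p)) '' (Dm (m + 1 : ℕ) 1 : Set V)).ncard = m * m := by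
    rw [Set.InjOn.ncard_image, Set.ncard_coe_finset]
    · simp [Dm]
    · intro p hp q hq h
      rcases Sym2.eq_iff.mp h with ⟨h4, h5⟩ | ⟨h4, h5⟩
      · rw [← e4 p hp, ← e4 q hq, h4, h5]
      · have h6 : f q = p := by rw [← e5 q hq, ← h4, ← h5, e4 p hp]
        have h7 : f p = q := by rw [← e5 p hp, h4, h5, e4 q hq]
        exact absurd hp (not_periodic hf two_pos (show f (f p) = p by rw [h7, h6]))
  have k2 := Set.ncard_union_eq (s := (Pr (m + 1) (gr f)).edgeSet)
    (t := (fun p => s(a p, b p)) '' (Dm (m + 1 : ℕ) 1 : Set V)) (by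
      rw [Set.disjoint_right]
      rintro _ ⟨p, hp, rfl⟩ h
      exact h.2 (by rw [e4 p hp, e5 p hp]; exact gr_step hf hp))
  have k3 := Set.ncard_le_ncard (Set.union_subset (edgeSet_mono fun _ _ h => h.1)
    (by rintro _ ⟨p, hp, rfl⟩; exact e3 p hp) : (Pr (m + 1) (gr f)).edgeSet ∪
      (fun p => s(a p, b p)) '' (Dm (m + 1 : ℕ) 1 : Set V) ⊆ (grid (m + 1)).edgeSet)
  have k4 := card_grid m
  rw [Nat.card_coe_set_eq]
  simp only [Nat.card_eq_fintype_card, Fintype.card_prod, Fintype.card_fin]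
  nlinarith

lemma Pr_inj {f g : V → V} (hf : f ∈ For (Dm n 1) nb) (hg : g ∈ For (Dm n 1) nb)
    (h : Pr n (gr f) = Pr n (gr g)) : f = g := by
  have key : ∀ {f g : V → V}, f ∈ For (Dm n 1) nb → Pr n (gr f) = Pr n (gr g) → gr f ≤ gr g := by
    intro f g hf h
    have : ∀ p ∈ Dm n 1, (gr g).Adj p (f p) := fun p hp => by
      obtain ⟨a, b, -, -, e3, e4, e5⟩ := ex_co hp ((mem_For.mp hf).2.1 p hp)
      by_contra hc
      have : (Pr n (gr g)).Adj a b := ⟨e3, by rwa [e4, e5]⟩
      rw [← h] at this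
      exact this.2 (by rw [e4, e5]; exact gr_step hf hp)
    intro p q ha
    rcases gr_cases hf ha with ⟨a, rfl⟩ | ⟨a, rfl⟩
    exacts [this _ a, (this _ a).symm]
  exact gr_inj hf hg (le_antisymm (key hf h) (key hg h.symm))

/-- reaching the outside in at most `k` steps -/
def Wk (D : Finset V) (R : V → V → Prop) : ℕ → V → Prop
  | 0, v => v ∉ D
  | k + 1, v => ∃ w, R v w ∧ Wk D R k w

lemma Pr_surj {m : ℕ} {T : SimpleGraph (Fin (m + 1) × Fin (m + 1))} (hT : T ≤ grid (m + 1))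
    (ht : T.IsTree) : ∃ f ∈ For (Dm (m + 1 : ℕ) 1) nb, Pr (m + 1) (gr f) = T := by
  classical
  set D := Dm (m + 1 : ℕ) 1 with hD
  let R : V → V → Prop := fun p q =>
    q ∈ nb p ∧ ∀ s t, T.Adj s t → ¬ (co s = lf p q ∧ co t = lf q p)
  have hW : ∀ v, ∃ k, Wk D R k v := by
    by_contra hc
    set B := D.filter fun v => ¬ ∃ k, Wk D R k v with hB
    have hne : B.Nonempty := by
      obtain ⟨v, hv⟩ := not_forall.mp hc
      exact ⟨v, mem_filter.mpr ⟨by_contra fun h => hv ⟨0, h⟩, hv⟩⟩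
    have hx : ∀ p ∈ B, ∀ q ∈ nb p, q ∉ B →
        ∃ s t, T.Adj s t ∧ co s = lf p q ∧ co t = lf q p := fun p hp q hq hq' => by
      by_contra h
      obtain ⟨k, hk⟩ : ∃ k, Wk D R k q := by_contra fun h' =>
        hq' (mem_filter.mpr ⟨by_contra fun h'' => h' ⟨0, h''⟩, h'⟩)
      exact (mem_filter.mp hp).2 ⟨k + 1, q, ⟨hq, fun s t a b => h ⟨s, t, a, b⟩⟩, hk⟩
    obtain ⟨p, hp, hmax⟩ := exists_max_image B (fun v => v.1) hne
    have hq : (p.1 + 1, p.2) ∈ nb p := mem_nb.mpr (by simp)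
    have hq' : (p.1 + 1, p.2) ∉ B := fun h => by simpa using hmax _ h
    generalize (p.1 + 1, p.2) = q at hq hq'
    obtain ⟨s, t, ha, e1, e2⟩ := hx p hp q hq hq'
    set A := {w | (T.deleteEdges {s(s, t)}).Reachable s w}
    have hb : ind A (lf p q) ≠ ind A (lf q p) := by
      rw [← e1, ← e2, Ne, ind_eq]
      exact fun h => isAcyclic_iff_forall_adj_isBridge.mp ht.isAcyclic ha (h.mp (Reachable.refl s))
    have s1 : ∑ x ∈ B, ∑ y ∈ nb x, (ind A (lf x y) - ind A (lf y x)) = 0 :=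
      sum_eq_zero fun x _ => div_zero _ x
    have s2 : ∑ x ∈ B, ∑ y ∈ nb x with y ∈ B, (ind A (lf x y) - ind A (lf y x)) = 0 := by
      have e : ∀ x, (nb x).filter (· ∈ B) = B.filter (· ∈ nb x) := fun x => by
        ext y; simp [and_comm]
      simp only [e, sum_filter]
      have e' : ∑ x ∈ B, ∑ y ∈ B, (if y ∈ nb x then ind A (lf x y) - ind A (lf y x) else 0) =
          -∑ x ∈ B, ∑ y ∈ B, (if y ∈ nb x then ind A (lf x y) - ind A (lf y x) else 0) := by
        conv_lhs => rw [sum_comm]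
        rw [← sum_neg_distrib]
        refine sum_congr rfl fun x _ => ?_
        rw [← sum_neg_distrib]
        refine sum_congr rfl fun y _ => ?_
        by_cases h : y ∈ nb x
        · simp [h, nb_symm h]
        · simp [h, show x ∉ nb y from fun h' => h (nb_symm h')]
      linarith
    have k : ∀ x ∈ B, ∀ y ∈ (nb x).filter (· ∉ B), ¬ (x = p ∧ y = q) →
        ind A (lf x y) - ind A (lf y x) = 0 := fun x hx' y hy hn => by
      obtain ⟨hy, hy'⟩ := mem_filter.mp hy
      obtain ⟨s', t', ha', e3, e4⟩ := hx x hx' y hy hy'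
      have : (T.deleteEdges {s(s, t)}).Adj s' t' := by
        rw [deleteEdges_adj]
        refine ⟨ha', fun h => ?_⟩
        rcases Sym2.eq_iff.mp h with ⟨rfl, rfl⟩ | ⟨rfl, rfl⟩
        · exact hn ⟨by rw [← du_lf hy, ← e3, ← e4, e1, e2, du_lf hq],
            by rw [← du_lf (nb_symm hy), ← e3, ← e4, e1, e2, du_lf (nb_symm hq)]⟩
        · exact hq' (by rwa [← du_lf (nb_symm hq), ← e1, ← e2, e3, e4, du_lf hy])
      rw [sub_eq_zero, ← e3, ← e4, ind_eq]
      exact ⟨fun h => Reachable.trans h this.reachable, fun h => Reachable.trans h this.symm.reachable⟩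
    simp only [← sum_filter_add_sum_filter_not (nb _) (· ∈ B), sum_add_distrib, s2, zero_add] at s1
    rw [sum_eq_single_of_mem p hp fun x hx' h => sum_eq_zero fun y hy => k x hx' y hy fun h' => h h'.1,
      sum_eq_single_of_mem q (mem_filter.mpr ⟨hq, hq'⟩) fun y hy h => k p hp y hy fun h' => h h'.2] at s1
    exact hb (sub_eq_zero.mp s1)
  have hex : ∀ v, ∃ w, (v ∉ D → w = v) ∧ (v ∈ D → R v w ∧ Nat.find (hW w) < Nat.find (hW v)) := by
    intro v
    by_cases hv : v ∈ D
    · have h := Nat.find_spec (hW v)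
      cases e : Nat.find (hW v) with
      | zero => rw [e] at h; exact absurd hv h
      | succ k =>
        rw [e] at h
        obtain ⟨w, h1, h2⟩ := h
        exact ⟨w, fun h => absurd hv h, fun _ => ⟨h1, Nat.lt_succ_of_le (Nat.find_min' _ h2)⟩⟩
    · exact ⟨v, fun _ => rfl, fun h => absurd h hv⟩
  choose f hf1 hf2 using hex
  have hf : f ∈ For D nb := mem_For.mpr ⟨hf1, fun v hv => (hf2 v hv).1.1, fun v => by
    induction h : Nat.find (hW v) using Nat.strong_induction_on generalizing v with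
    | _ k ih =>
      by_cases hv : v ∈ D
      · obtain ⟨n, hn⟩ := ih _ (h ▸ (hf2 v hv).2) (f v) rfl
        exact ⟨n + 1, hn⟩
      · exact ⟨0, hv⟩⟩
  have hle : T ≤ Pr (m + 1) (gr f) := fun s t ha => ⟨hT ha, fun h => by
    have h' := grid_adj.mp (hT ha)
    rcases gr_cases hf h with ⟨a, e⟩ | ⟨a, e⟩
    · exact (hf2 _ a).1.2 s t ha (by rw [e, lf_du h', lf_du (nb_symm h')]; exact ⟨rfl, rfl⟩)
    · exact (hf2 _ a).1.2 t s ha.symm (by rw [e, lf_du h', lf_du (nb_symm h')]; exact ⟨rfl, rfl⟩)⟩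
  exact ⟨f, hf, le_antisymm ((isTree_iff_minimal_connected.mp (Pr_tree hf)).2 ht.connected hle) hle⟩

end Pool.Agent.P.MP_5fda20_pr.U
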