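import Pool.Agent.P.MP_5fda20_pr.U.Kern

/-! The Green function of a gap in the diagonal. -/

namespace Pool.Agent.P.MP_5fda20_pr.U

open Finset Real

/-- Wallis product -/
noncomputable def pr (m : ℕ) : ℝ := ∏ j ∈ range m, ((j : ℝ) + 1) / (j + 3 / 2)

/-- Green function at the end of a gap -/
noncomputable def gam (m : ℕ) : ℝ :=
  π / 8 * ∏ j ∈ range m, ((j : ℝ) + 3 / 2) ^ 2 / ((j + 1) * (j + 2))

/-- total time on the gap -/
noncomputable def sig (m : ℕ) : ℝ := π / (8 * pr m)

lemma pr_pos (m : ℕ) : 0 < pr m := prod_pos fun _ _ => by positivity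

lemma cau (m : ℕ) : ∃ d : ℕ → ℝ, ∑ i ∈ range (m + 2), d i = 0 ∧
    ∑ i ∈ range (m + 2), d i * (i - 1 / 2) = 1 ∧
    d 0 = -∏ j ∈ range m, ((j : ℝ) + 3 / 2) / (j + 2) ∧
    ∀ x : ℕ, x ≤ m → ∑ i ∈ range (m + 2), d i / (x - (i - 1 / 2)) =
      if x = 0 then -4 * pr m else 0 := by
  induction m with
  | zero =>
    refine ⟨fun i => if i = 0 then -1 else 1, ?_, ?_, ?_, fun x hx => ?_⟩
    · simp [sum_range_succ]
    · norm_num [sum_range_succ]
    · simp
    · simp [sum_range_succ, pr, Nat.le_zero.mp hx]; norm_num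
  | succ m ih =>
    obtain ⟨d, h1, h2, h3, h4⟩ := ih
    have hq : ∀ i ∈ range (m + 2), (m : ℝ) + 2 - i ≠ 0 := fun i hi => by
      have : (i : ℝ) < m + 2 := by exact_mod_cast mem_range.mp hi
      linarith
    have hx : ∀ x i : ℕ, (x : ℝ) - (i - 1 / 2) ≠ 0 := fun x i h => by
      have : (2 * x + 1 : ℝ) = 2 * i := by linarith
      have : 2 * x + 1 = 2 * i := by exact_mod_cast this
      omega
    have key : ∀ a : ℕ → ℝ, ∑ i ∈ range (m + 1 + 2), (if i < m + 2 then
        d i * (m + 3 / 2 - i) / (m + 2 - i) else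
        ∑ i ∈ range (m + 2), d i / 2 / (m + 2 - i)) * a i =
        ∑ i ∈ range (m + 2), d i * (((m + 3 / 2 - i) * a i + a (m + 2) / 2) / (m + 2 - i)) := by
      intro a
      rw [sum_range_succ, if_neg (lt_irrefl _), sum_mul, ← sum_add_distrib]
      refine sum_congr rfl fun i hi => ?_
      rw [if_pos (mem_range.mp hi)]
      ring
    refine ⟨fun i => if i < m + 2 then d i * (m + 3 / 2 - i) / (m + 2 - i) else
      ∑ i ∈ range (m + 2), d i / 2 / (m + 2 - i), ?_, ?_, ?_, fun x hxm => ?_⟩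
    · have := key fun _ => 1
      simp only [mul_one] at this
      rw [this, ← h1]
      refine sum_congr rfl fun i hi => ?_
      have := hq i hi
      field_simp
      ring
    · rw [key fun i => i - 1 / 2]
      refine Eq.trans ?_ (show ∑ i ∈ range (m + 2), d i * (i - 1 / 2) +
        1 / 2 * ∑ i ∈ range (m + 2), d i = 1 by rw [h1, h2]; ring)
      rw [mul_sum, ← sum_add_distrib]
      refine sum_congr rfl fun i hi => ?_
      have := hq i hi
      push_cast
      field_simp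
      ring
    · rw [prod_range_succ]
      simp only [Nat.zero_lt_succ, if_true, h3]
      push_cast
      ring
    · have e := key fun i => 1 / (x - (i - 1 / 2))
      simp only [mul_one_div] at e
      have e2 : ∀ i ∈ range (m + 2), d i * (((m + 3 / 2 - i) / (x - (i - 1 / 2)) +
          1 / (x - (((m + 2 : ℕ) : ℝ) - 1 / 2)) / 2) / (m + 2 - i)) =
          (x - (m + 1)) / (x - (m + 3 / 2)) * (d i / (x - (i - 1 / 2))) := fun i hi => by
        have a1 := hq i hi
        have a2 := hx x i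
        have a3 := hx x (m + 2)
        push_cast at a3 ⊢
        rw [show (m : ℝ) + 2 - 1 / 2 = m + 3 / 2 by ring] at a3 ⊢
        generalize hA : (x : ℝ) - (i - 1 / 2) = A at *
        generalize hB : (x : ℝ) - (m + 3 / 2) = B at *
        generalize hC : (m : ℝ) + 2 - i = C at *
        rw [show (m : ℝ) + 3 / 2 - i = C - 1 / 2 by linarith,
          show (x : ℝ) - (m + 1) = B + 1 / 2 by linarith, show A = B + C by linarith] at *
        field_simp
        ring
      beta_reduce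
      rw [e, sum_congr rfl e2, ← mul_sum]
      rcases (by omega : x ≤ m ∨ x = m + 1) with h | rfl
      · rw [h4 x h]
        split_ifs with h0
        · rw [h0, pr, pr, prod_range_succ]
          push_cast
          rw [zero_sub, zero_sub, neg_div_neg_eq]
          ring
        · ring
      · simp

lemma abel (d a : ℕ → ℝ) (n : ℕ) : ∑ i ∈ range n, (∑ l ∈ range (i + 1), d l) * (a i - a (i + 1)) =
    ∑ l ∈ range (n + 1), d l * a l - (∑ l ∈ range (n + 1), d l) * a n := by
  induction n with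
  | zero => simp
  | succ n ih => rw [sum_range_succ, ih, sum_range_succ _ (n + 1), sum_range_succ _ (n + 1)]; ring

lemma cau' (m : ℕ) : ∃ c : ℕ → ℝ, c 0 = gam m ∧ ∑ i ∈ range (m + 1), c i = sig m ∧
    ∀ x : ℕ, x ≤ m → ∑ i ∈ range (m + 1), c i * (-(8 / π) / (4 * ((i : ℝ) - x) ^ 2 - 1)) =
      if x = 0 then 1 else 0 := by
  obtain ⟨d, h1, h2, h3, h4⟩ := cau m
  have hp := (pr_pos m).ne'
  refine ⟨fun i => -sig m * ∑ l ∈ range (i + 1), d l, ?_, ?_, fun x hx => ?_⟩
  · simp only [zero_add, sum_range_one, h3, sig, gam, pr]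
    rw [neg_mul_neg, ← div_div, div_eq_mul_inv _ (∏ _ ∈ _, _), mul_assoc, ← prod_inv_distrib,
      ← prod_mul_distrib]
    congr 1
    refine prod_congr rfl fun j _ => ?_
    field_simp
  · have := abel d (fun l => -(l - 1 / 2)) (m + 1)
    simp only [mul_neg, sum_neg_distrib, h1, h2, Nat.cast_add, Nat.cast_one,
      fun i : ℝ => show -(i - 1 / 2) - -(i + 1 - 1 / 2) = 1 by ring, mul_one] at this
    rw [← mul_sum, this]
    ring
  · have := abel d (fun l => 1 / (x - (l - 1 / 2))) (m + 1)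
    simp only [mul_one_div, h1, h4 x hx, zero_div, sub_zero] at this
    have e : ∀ i ∈ range (m + 1), (-sig m * ∑ l ∈ range (i + 1), d l) *
        (-(8 / π) / (4 * ((i : ℝ) - x) ^ 2 - 1)) = -(1 / (4 * pr m)) * ((∑ l ∈ range (i + 1), d l) *
          (1 / (x - (i - 1 / 2)) - 1 / (x - ((i + 1 : ℕ) - 1 / 2)))) := fun i _ => by
      have a1 : 2 * ((i : ℝ) - x) - 1 ≠ 0 := by
        exact_mod_cast (by omega : 2 * ((i : ℤ) - x) - 1 ≠ 0)
      have a2 : 2 * ((i : ℝ) - x) + 1 ≠ 0 := by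
        exact_mod_cast (by omega : 2 * ((i : ℤ) - x) + 1 ≠ 0)
      rw [show 4 * ((i : ℝ) - x) ^ 2 - 1 = (2 * (i - x) - 1) * (2 * (i - x) + 1) by ring,
        show (x : ℝ) - (i - 1 / 2) = -(2 * (i - x) - 1) / 2 by ring,
        show (x : ℝ) - ((i + 1 : ℕ) - 1 / 2) = -(2 * (i - x) + 1) / 2 by push_cast; ring, sig]
      generalize hA : 2 * ((i : ℝ) - x) - 1 = A at *
      rw [show 2 * ((i : ℝ) - x) + 1 = A + 2 by linarith] at *
      field_simp
      ring
    rw [sum_congr rfl e, ← mul_sum, this]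
    split_ifs
    · field_simp
    · ring

/-- a box with the diagonal removed, except for a gap -/
noncomputable def Ga (b : ℤ) (m R : ℕ) : Finset V :=
  (Ioo (b - R) (b + R) ×ˢ Ioo (b - R) (b + R)).filter fun v => v.1 ≠ v.2 ∨ (b - m ≤ v.1 ∧ v.1 ≤ b)

lemma mem_Ga {b : ℤ} {m R : ℕ} {v : V} : v ∈ Ga b m R ↔ ((b - R < v.1 ∧ v.1 < b + R) ∧
    b - R < v.2 ∧ v.2 < b + R) ∧ (v.1 ≠ v.2 ∨ (b - m ≤ v.1 ∧ v.1 ≤ b)) := by
  simp only [Ga, mem_filter, mem_product, mem_Ioo]

lemma gap_sol (b : ℤ) (m : ℕ) : ∃ u : V → ℝ, u (b, b) = gam m ∧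
    ∑ i ∈ range (m + 1), u (b - i, b - i) = sig m ∧
    (∀ v : V, (v.1 ≠ v.2 ∨ (b - m ≤ v.1 ∧ v.1 ≤ b)) → 4 * u v = dl v (b, b) + ∑ z ∈ nb v, u z) ∧
    ∀ (R : ℕ) (v : V), m < R → v ∉ Ga b m R →
      |u v| ≤ 3 * (∑ i ∈ range (m + 1), |u (b - i, b - i)|) / (R - m) ∧ (v.1 = v.2 → u v = 0) := by
  obtain ⟨c, h1, h2, h3⟩ := cau' m
  let u : V → ℝ := fun v => ∑ i ∈ range (m + 1), c i * Pk (v + (-(b - i), -(b - i)))
  have hd : ∀ j : ℤ, u (j, j) = ∑ i ∈ range (m + 1), if j = b - i then c i else 0 := fun j =>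
    sum_congr rfl fun i _ => by
      rw [Prod.mk_add_mk, Pk_diag, mul_ite, mul_one, mul_zero]
      exact if_congr (by omega) rfl rfl
  have hc : ∀ x ∈ range (m + 1), u (b - x, b - x) = c x := fun x hx => by
    rw [hd, sum_congr rfl fun i _ => if_congr (show b - x = b - (i : ℕ) ↔ x = i by omega) rfl rfl,
      sum_ite_eq, if_pos hx]
  have h0 : ∀ v : V, ¬ (v.1 ≠ v.2 ∨ (b - m ≤ v.1 ∧ v.1 ≤ b)) → u v = 0 := fun v hv => by
    rw [show v = (v.1, v.1) from Prod.ext rfl (by dsimp only; omega), hd]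
    exact sum_eq_zero fun i hi => if_neg (by have := mem_range.mp hi; omega)
  have hs : ∀ v, ∑ z ∈ nb v, u z = ∑ i ∈ range (m + 1),
      c i * ∑ z ∈ nb (v + (-(b - i), -(b - i))), Pk z := fun v => by
    rw [sum_comm]
    exact sum_congr rfl fun i _ => by rw [← mul_sum]; exact congrArg _ ((aut_add _).sum v Pk).symm
  refine ⟨u, by simpa [h1] using hc 0 (by simp), h2 ▸ sum_congr rfl hc, fun v hv => ?_,
    fun R v hR hv => ?_⟩
  · rw [hs, mul_sum]
    by_cases h : v.1 = v.2
    · obtain ⟨x, hx, rfl⟩ : ∃ x : ℕ, x ≤ m ∧ v = (b - x, b - x) :=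
        ⟨(b - v.1).toNat, by omega, Prod.ext (by dsimp only; omega) (by dsimp only; omega)⟩
      have : dl (b - x, b - x) (b, b) = if x = 0 then 1 else 0 :=
        if_congr (by simp only [Prod.mk.injEq]; omega) rfl rfl
      rw [this, ← h3 x hx, ← sum_add_distrib]
      refine sum_congr rfl fun i _ => ?_
      have := Pk_dtn (b - x + -(b - i))
      push_cast at this
      rw [show (b : ℝ) - x + -(b - i) = i - x by ring] at this
      rw [← this, Prod.mk_add_mk]
      ring
    · rw [dl_ne fun e => h (by rw [e]), zero_add]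
      refine sum_congr rfl fun i _ => ?_
      rw [Pk_harm (by simpa using h)]
      ring
  · rw [mem_Ga] at hv
    have hR' : (0 : ℝ) < R - m := sub_pos.mpr (by exact_mod_cast hR)
    by_cases hg : v.1 ≠ v.2 ∨ (b - m ≤ v.1 ∧ v.1 ≤ b)
    · refine ⟨(abs_sum_le_sum_abs _ _).trans ?_, by omega⟩
      rw [mul_sum, sum_div]
      refine sum_le_sum fun i hi => ?_
      have := mem_range.mp hi
      have := Pk_le (v := v + (-(b - i), -(b - i))) (r := R - m) (by
        simp only [Prod.fst_add, Prod.snd_add, Int.abs_eq_natAbs]; omega)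
      rw [Nat.cast_sub hR.le] at this
      rw [hc i hi, abs_mul, le_div_iff₀ hR', mul_assoc, mul_comm 3]
      exact mul_le_mul_of_nonneg_left this (abs_nonneg _)
    · rw [h0 v hg, abs_zero]
      exact ⟨by positivity, fun _ => rfl⟩

theorem gap (b : ℤ) (m : ℕ) :
    (∀ D : Finset V, (∀ v ∈ D, v.1 ≠ v.2 ∨ (b - m ≤ v.1 ∧ v.1 ≤ b)) →
      G1 D (b, b) (b, b) ≤ gam m) ∧ ∀ R : ℕ, m < R →
      gam m - 12 * sig m ^ 2 / (R * (R - m)) ≤ G1 (Ga b m R) (b, b) (b, b) ∧
      sig m * (1 - 3 * (m + 1) / (R - m)) ≤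
        ∑ i ∈ range (m + 1), G1 (Ga b m R) (b - i, b - i) (b, b) := by
  obtain ⟨u, h1, h2, h3, h4⟩ := gap_sol b m
  set S := ∑ i ∈ range (m + 1), |u (b - i, b - i)| with hS
  have hS0 : 0 ≤ S := sum_nonneg fun _ _ => abs_nonneg _
  have up : ∀ D : Finset V, (∀ v ∈ D, v.1 ≠ v.2 ∨ (b - m ≤ v.1 ∧ v.1 ≤ b)) → ∀ z,
      G1 D z (b, b) ≤ u z := fun D hD z => by
    obtain ⟨R₀, hR₀⟩ := (D.image fun v => (v.1 - b).natAbs + (v.2 - b).natAbs).exists_le
    refine le_of_forall_pos_le_add fun δ hδ => ?_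
    obtain ⟨N, hN⟩ := exists_nat_gt (3 * S / δ)
    have hN0 : (0 : ℝ) < N := lt_of_le_of_lt (by positivity) hN
    have hsub : D ⊆ Ga b m (m + (R₀ + N + 1)) := fun v hv => mem_Ga.mpr ⟨by
      have := hR₀ _ (mem_image_of_mem _ hv); omega, hD v hv⟩
    refine (G_mono wt_one wt_one hsub (fun _ _ _ _ => le_rfl) _ _).trans
      (G_le wt_one (b, b) (fun v => u v + δ) (fun x hx => ?_) (fun x hx => ?_) z)
    · have := (abs_le.mp (h4 _ x (by omega) hx).1).1
      have : 3 * S / ((m + (R₀ + N + 1) : ℕ) - m) ≤ δ := by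
        rw [div_lt_iff₀ hδ] at hN
        push_cast
        rw [add_sub_cancel_left, div_le_iff₀ (by positivity)]
        nlinarith [Nat.cast_nonneg (α := ℝ) R₀]
      linarith
    · simp only [one_mul, sum_add_distrib, sum_nb_const]
      linarith [h3 x (mem_Ga.mp hx).2]
  have e : S = sig m := h2 ▸ sum_congr rfl fun i _ => abs_of_nonneg
    ((G_nonneg wt_one _ _).trans (up ∅ (by simp) _))
  rw [e] at h4 hS0
  refine ⟨fun D hD => h1 ▸ up D hD _, fun R hR => ⟨?_, ?_⟩⟩
  · have hR' : (0 : ℝ) < R - m := sub_pos.mpr (by exact_mod_cast hR)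
    have hR0 : (0 : ℝ) < R := by exact_mod_cast (by omega : 0 < R)
    set M := 3 * sig m / (R - m) with hM
    have hM0 : 0 ≤ M := by positivity
    let w : V → ℝ := fun v => |(v.1 - v.2 : ℝ)| / R + (v.1 - b) * (v.2 - b) / R ^ 2 +
      4 / R * ∑ i ∈ range (m + 1), G1 (Ga b m R) v (b - i, b - i)
    have hG : ∀ v, 0 ≤ 4 / R * ∑ i ∈ range (m + 1), G1 (Ga b m R) v (b - i, b - i) := fun v =>
      mul_nonneg (by positivity) (sum_nonneg fun _ _ => G_nonneg wt_one _ _)
    have := maxp' (Ga b m R) (fun v => u v - M * w v - G1 (Ga b m R) v (b, b))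
      (fun x hx z hz hz' => ?_) (fun v hv => ?_) (u := (b, b)) (mem_Ga.mpr (by dsimp only; omega))
    · have hw : w (b, b) ≤ 4 / R * sig m := by
        simp only [w, sub_self, abs_zero, zero_div, mul_zero, zero_add]
        refine mul_le_mul_of_nonneg_left (h2 ▸ sum_le_sum fun i _ => ?_) (by positivity)
        rw [G1_symm]
        exact up _ (fun v hv => (mem_Ga.mp hv).2) _
      have : M * (4 / R * sig m) = 12 * sig m ^ 2 / (R * (R - m)) := by
        rw [hM]; field_simp; ring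
      nlinarith [mul_le_mul_of_nonneg_left hw hM0]
    · obtain ⟨a1, a2⟩ := h4 R z hR hz'
      have a3 := hG z
      simp only [G1, G_off hz', sub_zero, sub_nonpos]
      rw [mem_Ga] at hx hz'
      rw [mem_nb] at hz
      by_cases hd : z.1 = z.2
      · rw [a2 hd]
        refine mul_nonneg hM0 (add_nonneg (add_nonneg (by positivity) ?_) a3)
        rw [hd]
        exact div_nonneg (mul_self_nonneg _) (by positivity)
      · have : |z.1 - z.2| * R + (z.1 - b) * (z.2 - b) = (R : ℤ) ^ 2 := by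
          rcases (by omega : (z.1 = b + R ∧ z.2 ≤ z.1) ∨ (z.1 = b - R ∧ z.1 ≤ z.2) ∨
            (z.2 = b + R ∧ z.1 ≤ z.2) ∨ (z.2 = b - R ∧ z.2 ≤ z.1)) with h | h | h | h
          · rw [abs_of_nonneg (by omega), h.1]; ring
          · rw [abs_of_nonpos (by omega), h.1]; ring
          · rw [abs_of_nonpos (by omega), h.1]; ring
          · rw [abs_of_nonneg (by omega), h.1]; ring
        have this : |(z.1 - z.2 : ℝ)| * R + (z.1 - b) * (z.2 - b) = (R : ℝ) ^ 2 := by
          exact_mod_cast this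
        have : |(z.1 - z.2 : ℝ)| / R + (z.1 - b) * (z.2 - b) / R ^ 2 = 1 := by
          field_simp; linarith
        refine (le_abs_self _).trans (a1.trans (le_mul_of_one_le_right hM0 ?_))
        simp only [w]
        linarith
    · have a1 : 4 * |(v.1 - v.2 : ℝ)| + 4 * ∑ i ∈ range (m + 1), dl v (b - i, b - i) =
          ∑ z ∈ nb v, |(z.1 - z.2 : ℝ)| := by
        by_cases hd : v.1 = v.2
        · obtain ⟨x, hx, rfl⟩ : ∃ x : ℕ, x ≤ m ∧ v = (b - x, b - x) :=
            ⟨(b - v.1).toNat, by have := mem_Ga.mp hv; omega, Prod.ext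
              (by have := mem_Ga.mp hv; dsimp only; omega)
              (by have := mem_Ga.mp hv; dsimp only; omega)⟩
          unfold dl
          rw [sum_congr rfl fun i _ => if_congr (show (b - x, b - x) = (b - (i : ℕ), b - (i : ℕ)) ↔
            x = i by simp only [Prod.mk.injEq]; omega) rfl rfl, sum_ite_eq,
            if_pos (mem_range.mpr (by omega)), sum_nb]
          simp
          norm_num
        · rw [sum_eq_zero fun i _ => dl_ne fun e => hd (by rw [e]), sum_nb]
          have : 4 * |v.1 - v.2| = |v.1 + 1 - v.2| + |v.1 - 1 - v.2| + |v.1 - (v.2 + 1)| +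
              |v.1 - (v.2 - 1)| := by simp only [Int.abs_eq_natAbs]; omega
          rw [mul_zero, add_zero]
          exact_mod_cast this
      have a2 : ∑ z ∈ nb v, ((z.1 : ℝ) - b) * (z.2 - b) = 4 * ((v.1 - b) * (v.2 - b)) := by
        rw [sum_nb]; push_cast; ring
      have a3 : 4 * ∑ i ∈ range (m + 1), G1 (Ga b m R) v (b - i, b - i) =
          ∑ i ∈ range (m + 1), dl v (b - i, b - i) +
            ∑ z ∈ nb v, ∑ i ∈ range (m + 1), G1 (Ga b m R) z (b - i, b - i) := by
        rw [sum_comm, mul_sum, ← sum_add_distrib]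
        exact sum_congr rfl fun i _ => G1_eq hv _
      have a4 : ∑ z ∈ nb v, w z = 4 * w v := by
        simp only [w, sum_add_distrib, ← sum_div, ← mul_sum, ← a1, a2]
        linear_combination (-4 / R) * a3
      simp only [sum_sub_distrib, ← mul_sum, a4]
      linarith [h3 v (mem_Ga.mp hv).2, G1_eq hv (b, b)]
  · have : ∀ z, u z - 3 * sig m / (R - m) ≤ G1 (Ga b m R) z (b, b) :=
      le_G wt_one (b, b) _ (fun x hx => by linarith [(abs_le.mp (h4 R x hR hx).1).2])
        fun x hx => by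
          simp only [one_mul, sum_sub_distrib, sum_nb_const]
          linarith [h3 x (mem_Ga.mp hx).2]
    refine le_trans (le_of_eq ?_) (sum_le_sum fun i _ => this _)
    rw [sum_sub_distrib, h2, sum_const, card_range, nsmul_eq_mul]
    push_cast
    ring

end Pool.Agent.P.MP_5fda20_pr.U
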