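import Pool.Agent.P.MP_a28080_pr.Harm

/-! Green functions of killed walks on the square lattice. -/

namespace Pool.Agent.P.MP_5fda20_pr.U

open Finset Filter Topology

abbrev V := ℤ × ℤ

/-- the four neighbours -/
def nb (a : V) : Finset V := {(a.1 + 1, a.2), (a.1 - 1, a.2), (a.1, a.2 + 1), (a.1, a.2 - 1)}

lemma sum_nb {M : Type*} [AddCommMonoid M] (a : V) (f : V → M) : ∑ z ∈ nb a, f z =
    f (a.1 + 1, a.2) + f (a.1 - 1, a.2) + f (a.1, a.2 + 1) + f (a.1, a.2 - 1) := by
  unfold nb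
  rw [sum_insert, sum_insert, sum_insert, sum_singleton]
  · simp only [add_assoc]
  all_goals simp [Prod.ext_iff]
  all_goals omega

lemma mem_nb {a z : V} : z ∈ nb a ↔ (z.2 = a.2 ∧ (z.1 = a.1 + 1 ∨ z.1 = a.1 - 1)) ∨
    (z.1 = a.1 ∧ (z.2 = a.2 + 1 ∨ z.2 = a.2 - 1)) := by
  simp only [nb, mem_insert, mem_singleton, Prod.ext_iff]
  omega

lemma nb_symm {a z : V} (h : z ∈ nb a) : a ∈ nb z := by
  rw [mem_nb] at *; omega

lemma nb_ne {a z : V} (h : z ∈ nb a) : z ≠ a := by
  rintro rfl; rw [mem_nb] at h; omega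

lemma sum_nb_const (a : V) (c : ℝ) : ∑ _z ∈ nb a, c = 4 * c := by
  rw [sum_nb a fun _ => c]; ring

/-- admissible step weights -/
def Wt (q : V → V → ℝ) : Prop := ∀ x z, 0 ≤ q x z ∧ q x z ≤ 1

lemma wt_one : Wt fun _ _ => 1 := fun _ _ => ⟨zero_le_one, le_rfl⟩

/-- indicator of equality -/
def dl (x y : V) : ℝ := if x = y then 1 else 0

lemma dl_nonneg (x y : V) : 0 ≤ dl x y := by unfold dl; split_ifs <;> norm_num
lemma dl_le (x y : V) : dl x y ≤ 1 := by unfold dl; split_ifs <;> norm_num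
lemma dl_self (x : V) : dl x x = 1 := if_pos rfl
lemma dl_ne {x y : V} (h : x ≠ y) : dl x y = 0 := if_neg h

/-- maximum principle -/
lemma maxp {q : V → V → ℝ} (hq : Wt q) (D : Finset V) (g : V → ℝ) (h0 : ∀ v, v ∉ D → g v ≤ 0)
    (hs : ∀ v ∈ D, 4 * g v ≤ ∑ z ∈ nb v, q v z * g z) (u : V) : g u ≤ 0 := by
  by_contra hu
  have huD : u ∈ D := by_contra fun h => hu (h0 u h)
  obtain ⟨m, hm, hmax⟩ := exists_max_image D g ⟨u, huD⟩
  have hpos : 0 < g m := lt_of_lt_of_le (not_le.mp hu) (hmax u huD)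
  obtain ⟨p, hp, hp2⟩ := exists_max_image (D.filter fun x => g x = g m) Prod.fst
    ⟨m, mem_filter.mpr ⟨hm, rfl⟩⟩
  obtain ⟨hpD, hpm⟩ := mem_filter.mp hp
  have hall : ∀ x, g x ≤ g m := fun x => by
    by_cases hx : x ∈ D
    · exact hmax x hx
    · exact (h0 x hx).trans hpos.le
  have h1 : ∀ z, q p z * g z ≤ g m := fun z => by
    have := hq p z
    have := hall z
    rcases le_total 0 (g z) with h | h <;> nlinarith
  have h2 : q p (p.1 + 1, p.2) * g (p.1 + 1, p.2) < g m := by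
    have h3 : g (p.1 + 1, p.2) < g m := by
      refine lt_of_le_of_ne (hall _) fun h => ?_
      by_cases hx : (p.1 + 1, p.2) ∈ D
      · have := hp2 _ (mem_filter.mpr ⟨hx, h⟩)
        simp at this
      · have := h0 _ hx
        linarith
    have := hq p (p.1 + 1, p.2)
    rcases le_total 0 (g (p.1 + 1, p.2)) with h | h <;> nlinarith
  have := hs p hpD
  rw [sum_nb] at this
  linarith [h1 (p.1 - 1, p.2), h1 (p.1, p.2 + 1), h1 (p.1, p.2 - 1)]

/-- Neumann iteration -/
noncomputable def It (q : V → V → ℝ) (D : Finset V) (y : V) : ℕ → V → ℝ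
  | 0, _ => 0
  | k + 1, x => if x ∈ D then (dl x y + ∑ z ∈ nb x, q x z * It q D y k z) / 4 else 0

/-- Green function, inverse of `4 - A` -/
noncomputable def G (q : V → V → ℝ) (D : Finset V) (x y : V) : ℝ := ⨆ k, It q D y k x

variable {q q' : V → V → ℝ} {D D' : Finset V}

lemma It_off (y : V) (k : ℕ) {x : V} (hx : x ∉ D) : It q D y k x = 0 := by
  cases k with
  | zero => rfl
  | succ k => simp [It, hx]

lemma It_le (hq : Wt q) (y : V) (u : V → ℝ) (h0 : ∀ x, 0 ≤ u x)
    (hs : ∀ x ∈ D, dl x y + ∑ z ∈ nb x, q x z * u z ≤ 4 * u x) (k : ℕ) (x : V) :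
    It q D y k x ≤ u x := by
  induction k generalizing x with
  | zero => exact h0 x
  | succ k ih =>
    simp only [It]
    split_ifs with hx
    · have : ∑ z ∈ nb x, q x z * It q D y k z ≤ ∑ z ∈ nb x, q x z * u z :=
        sum_le_sum fun z _ => mul_le_mul_of_nonneg_left (ih z) (hq x z).1
      linarith [hs x hx]
    · exact h0 x

lemma It_nonneg (hq : Wt q) (y : V) (k : ℕ) (x : V) : 0 ≤ It q D y k x := by
  induction k generalizing x with
  | zero => exact le_rfl
  | succ k ih =>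
    simp only [It]
    split_ifs with hx
    · have : 0 ≤ ∑ z ∈ nb x, q x z * It q D y k z :=
        sum_nonneg fun z _ => mul_nonneg (hq x z).1 (ih z)
      linarith [dl_nonneg x y]
    · exact le_rfl

lemma It_mono (hq : Wt q) (y x : V) : Monotone fun k => It q D y k x := by
  refine monotone_nat_of_le_succ fun k => ?_
  induction k generalizing x with
  | zero => exact It_nonneg hq y 1 x
  | succ k ih =>
    rw [It, It]
    split_ifs with hx
    · have : ∑ z ∈ nb x, q x z * It q D y k z ≤ ∑ z ∈ nb x, q x z * It q D y (k + 1) z :=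
        sum_le_sum fun z _ => mul_le_mul_of_nonneg_left (ih z) (hq x z).1
      linarith
    · exact le_rfl

lemma It_bdd (hq : Wt q) (y x : V) : BddAbove (Set.range fun k => It q D y k x) := by
  obtain ⟨B, hB⟩ : ∃ B : ℝ, ∀ x ∈ D, (|(x.1 : ℝ)| + 1) ^ 2 ≤ B :=
    ⟨∑ x ∈ D, (|(x.1 : ℝ)| + 1) ^ 2, fun x hx =>
      single_le_sum (f := fun x : V => (|(x.1 : ℝ)| + 1) ^ 2) (fun _ _ => sq_nonneg _) hx⟩
  refine ⟨max (B - (x.1 : ℝ) ^ 2) 0, ?_⟩
  rintro _ ⟨k, rfl⟩
  refine It_le hq y (fun x => max (B - (x.1 : ℝ) ^ 2) 0) (fun x => le_max_right _ _) ?_ k x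
  intro x hx
  have h1 := hB x hx
  have h2 : ∑ z ∈ nb x, q x z * max (B - (z.1 : ℝ) ^ 2) 0 ≤
      ∑ z ∈ nb x, max (B - (z.1 : ℝ) ^ 2) 0 :=
    sum_le_sum fun z _ => mul_le_of_le_one_left (le_max_right _ _) (hq x z).2
  have a1 := le_abs_self (x.1 : ℝ)
  have a2 := neg_abs_le (x.1 : ℝ)
  have a3 := sq_abs (x.1 : ℝ)
  rw [sum_nb x fun z => max (B - (z.1 : ℝ) ^ 2) 0] at h2
  push_cast at h2
  rw [max_eq_left (by nlinarith), max_eq_left (by nlinarith), max_eq_left (by nlinarith)] at h2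
  rw [max_eq_left (by nlinarith)]
  nlinarith [dl_le x y]

lemma It_tend (hq : Wt q) (y x : V) : Tendsto (fun k => It q D y k x) atTop (𝓝 (G q D x y)) :=
  tendsto_atTop_ciSup (It_mono hq y x) (It_bdd hq y x)

lemma G_off {x : V} (hx : x ∉ D) (y : V) : G q D x y = 0 := by
  simp [G, It_off y _ hx]

lemma G_eq (hq : Wt q) {x : V} (hx : x ∈ D) (y : V) :
    4 * G q D x y = dl x y + ∑ z ∈ nb x, q x z * G q D z y := by
  have h1 := (It_tend (D := D) hq y x).comp (tendsto_add_atTop_nat 1)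
  have h2 : Tendsto (fun k => (dl x y + ∑ z ∈ nb x, q x z * It q D y k z) / 4) atTop
      (𝓝 ((dl x y + ∑ z ∈ nb x, q x z * G q D z y) / 4)) :=
    ((tendsto_finsetSum _ fun z _ => (It_tend hq y z).const_mul _).const_add _).div_const _
  have := tendsto_nhds_unique h1 (h2.congr fun k => by simp [It, hx])
  linarith

lemma G_nonneg (hq : Wt q) (x y : V) : 0 ≤ G q D x y :=
  ge_of_tendsto' (It_tend hq y x) fun k => It_nonneg hq y k x

lemma G_diag (hq : Wt q) {x : V} (hx : x ∈ D) : 1 / 4 ≤ G q D x x := by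
  have := G_eq hq hx x
  have h2 : 0 ≤ ∑ z ∈ nb x, q x z * G q D z x :=
    sum_nonneg fun z _ => mul_nonneg (hq x z).1 (G_nonneg hq z x)
  rw [dl_self] at this
  linarith

lemma G_pos (hq : Wt q) {x : V} (hx : x ∈ D) : 0 < G q D x x :=
  lt_of_lt_of_le (by norm_num) (G_diag hq hx)

/-- a subsolution lies below the Green function -/
lemma le_G (hq : Wt q) (y : V) (u : V → ℝ) (h0 : ∀ x, x ∉ D → u x ≤ 0)
    (hs : ∀ x ∈ D, 4 * u x ≤ dl x y + ∑ z ∈ nb x, q x z * u z) (x : V) : u x ≤ G q D x y := by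
  have := maxp hq D (fun x => u x - G q D x y) (fun v hv => by simpa [G_off hv] using h0 v hv)
    (fun v hv => by
      have e := G_eq hq hv y
      have := hs v hv
      simp only [mul_sub, sum_sub_distrib]
      linarith) x
  linarith

/-- a supersolution lies above the Green function -/
lemma G_le (hq : Wt q) (y : V) (u : V → ℝ) (h0 : ∀ x, x ∉ D → 0 ≤ u x)
    (hs : ∀ x ∈ D, dl x y + ∑ z ∈ nb x, q x z * u z ≤ 4 * u x) (x : V) : G q D x y ≤ u x := by
  have := maxp hq D (fun x => G q D x y - u x) (fun v hv => by simpa [G_off hv] using h0 v hv)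
    (fun v hv => by
      have e := G_eq hq hv y
      have := hs v hv
      simp only [mul_sub, sum_sub_distrib]
      linarith) x
  linarith

lemma G_mono (hq : Wt q) (hq' : Wt q') (hD : D ⊆ D')
    (h : ∀ x ∈ D, ∀ z ∈ D, q x z ≤ q' x z) (x y : V) : G q D x y ≤ G q' D' x y := by
  refine le_of_tendsto' (It_tend hq y x) fun k => ?_
  induction k generalizing x with
  | zero => exact G_nonneg hq' x y
  | succ k ih =>
    simp only [It]
    split_ifs with hx
    · have : ∑ z ∈ nb x, q x z * It q D y k z ≤ ∑ z ∈ nb x, q' x z * G q' D' z y := by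
        refine sum_le_sum fun z _ => ?_
        by_cases hz : z ∈ D
        · exact mul_le_mul (h x hx z hz) (ih z) (It_nonneg hq y k z) (hq' x z).1
        · rw [It_off y k hz, mul_zero]
          exact mul_nonneg (hq' x z).1 (G_nonneg hq' z y)
      linarith [G_eq hq' (hD hx) y]
    · exact G_nonneg hq' x y

lemma G_congr (hq : Wt q) (hq' : Wt q') (h : ∀ x ∈ D, ∀ z ∈ D, q x z = q' x z) (x y : V) :
    G q D x y = G q' D x y :=
  le_antisymm (G_mono hq hq' Subset.rfl (fun a ha b hb => (h a ha b hb).le) x y)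
    (G_mono hq' hq Subset.rfl (fun a ha b hb => (h a ha b hb).ge) x y)

/-- the plain Green function -/
noncomputable abbrev G1 (D : Finset V) (x y : V) : ℝ := G (fun _ _ => 1) D x y

lemma G1_eq {x : V} (hx : x ∈ D) (y : V) : 4 * G1 D x y = dl x y + ∑ z ∈ nb x, G1 D z y := by
  simpa using G_eq wt_one hx y

lemma G1_nb {x z : V} (hx : x ∈ D) (hz : z ∈ nb x) (y : V) : G1 D z y ≤ 4 * G1 D x y := by
  have := single_le_sum (f := fun z => G1 D z y) (fun z _ => G_nonneg wt_one z y) hz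
  linarith [G1_eq hx y, dl_nonneg x y]

lemma sum_nb_swap (D : Finset V) (f g : V → ℝ) (hf : ∀ x, x ∉ D → f x = 0)
    (hg : ∀ x, x ∉ D → g x = 0) :
    ∑ x ∈ D, f x * ∑ z ∈ nb x, g z = ∑ x ∈ D, g x * ∑ z ∈ nb x, f z := by
  have key : ∀ (g : V → ℝ), (∀ x, x ∉ D → g x = 0) → ∀ x,
      ∑ z ∈ nb x, g z = ∑ z ∈ D, if z ∈ nb x then g z else 0 := by
    intro g hg x
    rw [← sum_filter, filter_mem_eq_inter]
    refine (sum_subset inter_subset_right fun z h1 h2 => hg z fun h => h2 ?_).symm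
    exact mem_inter.mpr ⟨h, h1⟩
  simp only [key g hg, key f hf, mul_sum]
  rw [sum_comm]
  refine sum_congr rfl fun x _ => sum_congr rfl fun z _ => ?_
  by_cases h : x ∈ nb z
  · rw [if_pos h, if_pos (nb_symm h), mul_comm]
  · rw [if_neg h, if_neg fun h' => h (nb_symm h'), mul_zero, mul_zero]

lemma sum_dl (D : Finset V) (f : V → ℝ) (hf : ∀ x, x ∉ D → f x = 0) (y : V) :
    ∑ x ∈ D, f x * dl x y = f y := by
  simp only [dl, mul_ite, mul_one, mul_zero, sum_ite_eq']
  split_ifs with h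
  · rfl
  · exact (hf y h).symm

lemma G1_symm (D : Finset V) (x y : V) : G1 D x y = G1 D y x := by
  have h := sum_nb_swap D (fun z => G1 D z x) (fun z => G1 D z y) (fun z hz => G_off hz x)
    (fun z hz => G_off hz y)
  have e1 : ∑ z ∈ D, G1 D z x * ∑ w ∈ nb z, G1 D w y =
      ∑ z ∈ D, (4 * (G1 D z x * G1 D z y) - G1 D z x * dl z y) :=
    sum_congr rfl fun z hz => by linear_combination (-G1 D z x) * G1_eq hz y
  have e2 : ∑ z ∈ D, G1 D z y * ∑ w ∈ nb z, G1 D w x =
      ∑ z ∈ D, (4 * (G1 D z x * G1 D z y) - G1 D z y * dl z x) :=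
    sum_congr rfl fun z hz => by linear_combination (-G1 D z y) * G1_eq hz x
  rw [e1, e2, sum_sub_distrib, sum_sub_distrib, sum_dl D _ (fun z hz => G_off hz x),
    sum_dl D _ (fun z hz => G_off hz y)] at h
  linarith

/-- lattice automorphisms -/
def Aut (e : V ≃ V) : Prop := ∀ x, nb (e x) = (nb x).map e.toEmbedding

lemma Aut.sum {e : V ≃ V} (he : Aut e) (x : V) (f : V → ℝ) :
    ∑ z ∈ nb (e x), f z = ∑ z ∈ nb x, f (e z) := by
  rw [he x, sum_map]; rfl

lemma G_aut {e : V ≃ V} (he : Aut e) (q : V → V → ℝ) (D : Finset V) (x y : V) :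
    G q (D.map e.toEmbedding) (e x) (e y) = G (fun a b => q (e a) (e b)) D x y := by
  unfold G
  congr 1
  funext k
  induction k generalizing x with
  | zero => rfl
  | succ k ih =>
    simp only [It, he.sum, ih, dl, mem_map_equiv, Equiv.symm_apply_apply,
      EmbeddingLike.apply_eq_iff_eq]

lemma aut_of (e : V ≃ V) (h : ∀ x z, e z ∈ nb (e x) ↔ z ∈ nb x) : Aut e := by
  intro x
  ext z
  rw [mem_map_equiv, ← h x, Equiv.apply_symm_apply]

lemma aut_add (v : V) : Aut (Equiv.addRight v) := by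
  refine aut_of _ fun x z => ?_
  simp only [Equiv.coe_addRight, mem_nb, Prod.fst_add, Prod.snd_add]
  omega

/-- the matrix `4 - A` with weights -/
def LM (q : V → V → ℝ) (D : Finset V) : Matrix D D ℝ :=
  Matrix.of fun v w => (if v.1 = w.1 then 4 else 0) - if w.1 ∈ nb v.1 then q v.1 w.1 else 0

open Matrix in
lemma LM_mulVec (q : V → V → ℝ) (D : Finset V) (g : V → ℝ) (hg : ∀ x, x ∉ D → g x = 0) (v : D) :
    (LM q D *ᵥ fun w : D => g w.1) v = 4 * g v.1 - ∑ z ∈ nb v.1, q v.1 z * g z := by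
  simp only [LM, mulVec, dotProduct, of_apply, sub_mul, sum_sub_distrib, ite_mul, zero_mul]
  rw [sum_coe_sort D fun w => if v.1 = w then 4 * g w else 0,
    sum_coe_sort D fun w => if w ∈ nb v.1 then q v.1 w * g w else 0, sum_ite_eq, if_pos v.2,
    ← sum_filter, filter_mem_eq_inter]
  congr 1
  refine sum_subset inter_subset_right fun z h1 h2 => ?_
  rw [hg z fun h => h2 (mem_inter.mpr ⟨h, h1⟩), mul_zero]

open Matrix in
/-- Cramer rule for removing a vertex -/
lemma det_erase (q : V → V → ℝ) {x : V} (hx : x ∈ D) (g : V → ℝ) (hg : ∀ v, v ∉ D → g v = 0)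
    (hs : ∀ v ∈ D, 4 * g v = dl v x + ∑ z ∈ nb v, q v z * g z) :
    (LM q (D.erase x)).det = g x * (LM q D).det := by
  have h := congrFun (MP_a28080_pr.cramer_mulVec' (LM q D) fun w : D => g w.1) ⟨x, hx⟩
  have e : (LM q D *ᵥ fun w : D => g w.1) = fun w : D => dl w.1 x := by
    funext v
    rw [LM_mulVec q D g hg, hs v.1 v.2]; ring
  rw [e, cramer_apply, Pi.smul_apply, smul_eq_mul] at h
  rw [mul_comm, ← h]
  let f : (D.erase x) ⊕ Unit → D := Sum.elim (fun v => ⟨v.1, mem_of_mem_erase v.2⟩)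
    fun _ => ⟨x, hx⟩
  have hf : Function.Bijective f := by
    constructor
    · rintro (a | a) (b | b) h
      · have h' := congrArg Subtype.val h
        exact congrArg _ (Subtype.ext h')
      · exact absurd (congrArg Subtype.val h) (mem_erase.mp a.2).1
      · exact absurd (congrArg Subtype.val h).symm (mem_erase.mp b.2).1
      · rfl
    · intro v
      by_cases h : v.1 = x
      · exact ⟨Sum.inr (), Subtype.ext h.symm⟩
      · exact ⟨Sum.inl ⟨v.1, mem_erase.mpr ⟨h, v.2⟩⟩, rfl⟩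
  rw [← det_submatrix_equiv_self (Equiv.ofBijective f hf)]
  have e2 : ((LM q D).updateCol ⟨x, hx⟩ fun w : D => dl w.1 x).submatrix
      (Equiv.ofBijective f hf) (Equiv.ofBijective f hf) = fromBlocks (LM q (D.erase x)) 0
        (of fun _ w => LM q D ⟨x, hx⟩ (f (Sum.inl w))) 1 := by
    ext (a | a) (b | b)
    · have : f (Sum.inl b) ≠ ⟨x, hx⟩ := fun h => (mem_erase.mp b.2).1 (congrArg Subtype.val h)
      simp only [submatrix_apply, Equiv.ofBijective_apply, updateCol_ne this, fromBlocks_apply₁₁]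
      rfl
    · simp [f, dl, (mem_erase.mp a.2).1]
    · have : f (Sum.inl b) ≠ ⟨x, hx⟩ := fun h => (mem_erase.mp b.2).1 (congrArg Subtype.val h)
      simp only [submatrix_apply, Equiv.ofBijective_apply, updateCol_ne this, fromBlocks_apply₂₁]
      rfl
    · simp [f, dl]
  rw [e2, det_fromBlocks_zero₁₂, det_one, mul_one]

/-- number of rooted forests -/
noncomputable def Z (D : Finset V) : ℝ := (MP_a28080_pr.For D nb).card

lemma det_LM_one (D : Finset V) : (LM (fun _ _ => 1) D).det = Z D := by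
  rw [Z, ← MP_a28080_pr.det_lap_one]
  congr 1
  ext v w
  simp only [LM, MP_a28080_pr.lap, MP_a28080_pr.rw1, Matrix.of_apply, Finset.sum_apply, one_smul,
    sum_sub_distrib, sum_nb_const, sum_ite_eq']
  split_ifs <;> norm_num

lemma Z_erase {x : V} (hx : x ∈ D) : Z (D.erase x) = G1 D x x * Z D := by
  rw [← det_LM_one, ← det_LM_one]
  exact det_erase _ hx (fun v => G1 D v x) (fun v hv => G_off hv x) fun v hv => G_eq wt_one hv x

lemma Z_pos (D : Finset V) : 0 < Z D := by
  induction D using Finset.induction_on with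
  | empty => rw [← det_LM_one]; simp
  | insert a D ha ih =>
    have := Z_erase (mem_insert_self a D)
    rw [erase_insert ha] at this
    exact (mul_pos_iff_of_pos_left (G_pos wt_one (mem_insert_self a D))).mp (this ▸ ih)

end Pool.Agent.P.MP_5fda20_pr.U
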