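import Pool.Agent.P.MP_5fda20_pr.U.Bar

/-! The Poisson kernel of the diagonal. -/

namespace Pool.Agent.P.MP_5fda20_pr.U

open Finset Real intervalIntegral

/-- decay rate of a Fourier mode -/
noncomputable def rho (θ : ℝ) : ℝ := cos θ / (1 + sin θ)

lemma den {θ : ℝ} (h : θ ∈ Set.uIcc 0 π) : 1 ≤ 1 + sin θ := by
  rw [Set.uIcc_of_le pi_pos.le] at h
  linarith [sin_nonneg_of_mem_Icc h]

lemma rho_deriv {θ : ℝ} (h : θ ∈ Set.uIcc 0 π) : HasDerivAt rho (-(1 / (1 + sin θ))) θ := by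
  have h0 : 1 + sin θ ≠ 0 := by linarith [den h]
  refine ((hasDerivAt_cos θ).div ((hasDerivAt_sin θ).const_add 1) h0).congr_deriv ?_
  field_simp
  linear_combination (-1) * sin_sq_add_cos_sq θ

lemma rho_cont : ContinuousOn rho (Set.uIcc 0 π) := fun _ h =>
  (rho_deriv h).continuousAt.continuousWithinAt

lemma inv_cont : ContinuousOn (fun θ => 1 / (1 + sin θ)) (Set.uIcc 0 π) :=
  continuousOn_const.div (by fun_prop) fun _ h => by linarith [den h]

lemma rho_abs {θ : ℝ} (h : θ ∈ Set.uIcc 0 π) : |rho θ| ≤ 1 := by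
  have := den h
  rw [rho, abs_div, abs_of_pos (by linarith : 0 < 1 + sin θ), div_le_one (by linarith)]
  linarith [abs_cos_le_one θ]

lemma int_rho (t : ℕ) : ∫ θ in (0 : ℝ)..π, |rho θ| ^ t * (1 / (1 + sin θ)) ≤ 4 / (t + 1) := by
  have e : ∫ θ in (0 : ℝ)..π, rho θ ^ (2 * (t / 2)) * (1 / (1 + sin θ)) =
      2 / (2 * (t / 2 : ℕ) + 1) := by
    rw [integral_eq_sub_of_hasDerivAt
      (f := fun θ => -(rho θ ^ (2 * (t / 2) + 1) / (2 * (t / 2 : ℕ) + 1)))
      (f' := fun θ => rho θ ^ (2 * (t / 2)) * (1 / (1 + sin θ)))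
      (fun θ h => ((((rho_deriv h).pow _).div_const _).neg).congr_deriv (by
        simp only [Nat.add_sub_cancel]; push_cast; field_simp))
      ((rho_cont.pow _).mul inv_cont).intervalIntegrable]
    simp [rho, pow_succ]
    ring
  refine (integral_mono_on pi_pos.le ((rho_cont.abs.pow _).mul inv_cont).intervalIntegrable
    ((rho_cont.pow (2 * (t / 2))).mul inv_cont).intervalIntegrable fun θ h => ?_).trans
    (e.trans_le ?_)
  · rw [← Set.uIcc_of_le pi_pos.le] at h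
    have := den h
    refine mul_le_mul_of_nonneg_right ?_ (by positivity)
    exact (pow_le_pow_of_le_one (abs_nonneg _) (rho_abs h) (show 2 * (t / 2) ≤ t by omega)).trans_eq
      ((even_two_mul (t / 2)).pow_abs _)
  · rw [div_le_div_iff₀ (by positivity) (by positivity)]
    have : t + 1 ≤ 2 * (2 * (t / 2) + 1) := by omega
    have : (t : ℝ) + 1 ≤ 2 * (2 * (t / 2 : ℕ) + 1) := by exact_mod_cast this
    linarith

/-- the kernel in rotated coordinates -/
noncomputable def Kk (s : ℤ) (t : ℕ) : ℝ := (∫ θ in (0 : ℝ)..π, cos (s * θ) * rho θ ^ t) / π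

lemma Kk_int (s : ℤ) (t : ℕ) :
    IntervalIntegrable (fun θ => cos (s * θ) * rho θ ^ t) MeasureTheory.volume 0 π :=
  (ContinuousOn.mul (by fun_prop) (rho_cont.pow t)).intervalIntegrable

lemma Kk_neg (s : ℤ) (t : ℕ) : Kk (-s) t = Kk s t := by simp [Kk]

lemma Kk_le1 (s : ℤ) (t : ℕ) : |Kk s t| * (t + 1) ≤ 3 := by
  have h1 : |∫ θ in (0 : ℝ)..π, cos (s * θ) * rho θ ^ t| ≤
      ∫ θ in (0 : ℝ)..π, 2 * (|rho θ| ^ t * (1 / (1 + sin θ))) := by
    refine (abs_integral_le_integral_abs pi_pos.le).trans (integral_mono_on pi_pos.le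
      (Kk_int s t).abs (((rho_cont.abs.pow _).mul inv_cont).intervalIntegrable.const_mul _)
      fun θ h => ?_)
    rw [← Set.uIcc_of_le pi_pos.le] at h
    have := den h
    have h2 : 1 ≤ 2 * (1 / (1 + sin θ)) := by
      rw [mul_one_div, le_div_iff₀ (by linarith)]; linarith [sin_le_one θ]
    rw [abs_mul, abs_pow]
    nlinarith [abs_cos_le_one (s * θ), pow_nonneg (abs_nonneg (rho θ)) t]
  rw [integral_const_mul] at h1
  have h2 := int_rho t
  rw [le_div_iff₀ (by positivity)] at h2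
  rw [Kk, abs_div, abs_of_pos pi_pos, div_mul_eq_mul_div, div_le_iff₀ pi_pos]
  nlinarith [mul_le_mul_of_nonneg_right h1 (show (0 : ℝ) ≤ t + 1 by positivity), pi_gt_three]

lemma Kk_le2 (s : ℤ) (t : ℕ) : |Kk s t| * |(s : ℝ)| ≤ 3 := by
  have hc : ContinuousOn (fun θ => sin (s * θ) * (t * rho θ ^ (t - 1) * (1 / (1 + sin θ))))
      (Set.uIcc 0 π) :=
    ContinuousOn.mul (by fun_prop) ((continuousOn_const.mul (rho_cont.pow _)).mul inv_cont)
  have e := integral_eq_sub_of_hasDerivAt (a := 0) (b := π) (f := fun θ => sin (s * θ) * rho θ ^ t)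
    (f' := fun θ => s * (cos (s * θ) * rho θ ^ t) -
      sin (s * θ) * (t * rho θ ^ (t - 1) * (1 / (1 + sin θ))))
    (fun θ h => ((((hasDerivAt_id θ).const_mul (s : ℝ)).sin).mul
      ((rho_deriv h).pow t)).congr_deriv (by simp only [id, Pi.pow_apply]; ring))
    (((Kk_int s t).const_mul _).sub hc.intervalIntegrable)
  rw [integral_sub ((Kk_int s t).const_mul _) hc.intervalIntegrable, integral_const_mul,
    sin_int_mul_pi, mul_zero, sin_zero, zero_mul, zero_mul, sub_zero, sub_eq_zero] at e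
  have h1 : |∫ θ in (0 : ℝ)..π, sin (s * θ) * (t * rho θ ^ (t - 1) * (1 / (1 + sin θ)))| ≤
      ∫ θ in (0 : ℝ)..π, t * (|rho θ| ^ (t - 1) * (1 / (1 + sin θ))) := by
    refine (abs_integral_le_integral_abs pi_pos.le).trans (integral_mono_on pi_pos.le
      hc.intervalIntegrable.abs
      (((rho_cont.abs.pow _).mul inv_cont).intervalIntegrable.const_mul _) fun θ h => ?_)
    rw [← Set.uIcc_of_le pi_pos.le] at h
    have := den h
    rw [abs_mul, abs_mul, abs_mul, abs_pow, Nat.abs_cast, 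
      abs_of_pos (by positivity : 0 < 1 / (1 + sin θ)), mul_assoc]
    exact mul_le_of_le_one_left (by positivity) (abs_sin_le_one _)
  rw [integral_const_mul, ← e, abs_mul] at h1
  have h2 : (t : ℝ) * ∫ θ in (0 : ℝ)..π, |rho θ| ^ (t - 1) * (1 / (1 + sin θ)) ≤ 4 := by
    rcases t with _ | t
    · simp
    · have h2 := int_rho t
      rw [le_div_iff₀ (by positivity)] at h2
      rw [Nat.add_sub_cancel]
      push_cast
      linarith
  rw [Kk, abs_div, abs_of_pos pi_pos, div_mul_eq_mul_div, div_le_iff₀ pi_pos]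
  linarith [pi_gt_three]

lemma cos_pm (s : ℤ) (θ : ℝ) :
    cos ((s + 1 : ℤ) * θ) + cos ((s - 1 : ℤ) * θ) = 2 * cos (s * θ) * cos θ := by
  push_cast
  rw [add_mul, sub_mul, one_mul, cos_add, cos_sub]
  ring

lemma Kk_harm (s : ℤ) (t : ℕ) :
    Kk (s + 1) (t + 2) + Kk (s - 1) (t + 2) + Kk (s + 1) t + Kk (s - 1) t = 4 * Kk s (t + 1) := by
  simp only [Kk]
  rw [← add_div, ← add_div, ← add_div, ← mul_div_assoc, ← integral_const_mul,
    ← integral_add (Kk_int _ _) (Kk_int _ _),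
    ← integral_add ((Kk_int _ _).add (Kk_int _ _)) (Kk_int _ _),
    ← integral_add (((Kk_int _ _).add (Kk_int _ _)).add (Kk_int _ _)) (Kk_int _ _)]
  congr 1
  refine integral_congr fun θ h => ?_
  have h0 : 1 + sin θ ≠ 0 := by linarith [den h]
  have e : cos θ * (rho θ ^ 2 + 1) = 2 * rho θ := by
    rw [rho]
    field_simp
    linear_combination cos θ * sin_sq_add_cos_sq θ
  linear_combination (rho θ ^ (t + 2) + rho θ ^ t) * cos_pm s θ +
    2 * cos (s * θ) * rho θ ^ t * e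

lemma Kk_zero (i : ℤ) : Kk (2 * i) 0 = if i = 0 then 1 else 0 := by
  have h := Kk_le2 (2 * i) 0
  split_ifs with h
  · simp [Kk, h, pi_ne_zero]
  · have h' : ((2 * i : ℤ) : ℝ) ≠ 0 := by exact_mod_cast (by omega : 2 * i ≠ 0)
    simp only [Kk, pow_zero, mul_one]
    rw [integral_comp_mul_left (fun x => cos x) h', integral_cos, sin_int_mul_pi]
    simp

lemma Kk_dtn (i : ℤ) : 4 * Kk (2 * i) 0 - 2 * (Kk (2 * i + 1) 1 + Kk (2 * i - 1) 1) =
    -(8 / π) / (4 * i ^ 2 - 1) := by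
  have h1 : ((2 * i + 1 : ℤ) : ℝ) ≠ 0 := by exact_mod_cast (by omega : 2 * i + 1 ≠ 0)
  have h2 : ((2 * i - 1 : ℤ) : ℝ) ≠ 0 := by exact_mod_cast (by omega : 2 * i - 1 ≠ 0)
  have e : ∫ θ in (0 : ℝ)..π, 2 * (sin ((2 * i + 1 : ℤ) * θ) - sin ((2 * i - 1 : ℤ) * θ)) =
      -8 / (4 * i ^ 2 - 1) := by
    have c1 : cos ((2 * i + 1 : ℤ) * π) = -1 := by
      push_cast; rw [add_mul, one_mul, mul_right_comm, mul_comm, cos_add_pi, cos_int_mul_two_pi]
    have c2 : cos ((2 * i - 1 : ℤ) * π) = -1 := by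
      push_cast; rw [sub_mul, one_mul, mul_right_comm, mul_comm, cos_sub_pi, cos_int_mul_two_pi]
    rw [integral_const_mul, integral_sub (by apply Continuous.intervalIntegrable; fun_prop)
      (by apply Continuous.intervalIntegrable; fun_prop),
      integral_comp_mul_left (fun x => sin x) h1, integral_comp_mul_left (fun x => sin x) h2,
      integral_sin, integral_sin, c1, c2, mul_zero, mul_zero, cos_zero]
    push_cast at h1 h2 ⊢
    rw [show 4 * (i : ℝ) ^ 2 - 1 = (2 * i + 1) * (2 * i - 1) by ring, smul_eq_mul, smul_eq_mul]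
    field_simp
    ring
  simp only [Kk]
  rw [← add_div, ← mul_div_assoc, ← mul_div_assoc, ← sub_div, ← integral_const_mul,
    ← integral_add (Kk_int _ _) (Kk_int _ _), ← integral_const_mul,
    ← integral_sub ((Kk_int _ _).const_mul _) (((Kk_int _ _).add (Kk_int _ _)).const_mul _),
    show -(8 / π) / (4 * (i : ℝ) ^ 2 - 1) = -8 / (4 * i ^ 2 - 1) / π by ring, ← e]
  congr 1
  refine integral_congr fun θ h => ?_
  have h0 : 1 + sin θ ≠ 0 := by linarith [den h]
  have e1 : cos θ * rho θ = 1 - sin θ := by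
    rw [rho]
    field_simp
    linear_combination sin_sq_add_cos_sq θ
  have e2 : sin ((2 * i + 1 : ℤ) * θ) - sin ((2 * i - 1 : ℤ) * θ) =
      2 * cos ((2 * i : ℤ) * θ) * sin θ := by
    push_cast
    rw [add_mul, sub_mul, one_mul, sin_add, sin_sub]
    ring
  linear_combination (-2 * rho θ) * cos_pm (2 * i) θ - 2 * e2 - 4 * cos ((2 * i : ℤ) * θ) * e1

/-- the kernel on the lattice -/
noncomputable def Pk (z : V) : ℝ := Kk (z.1 + z.2) (z.1 - z.2).natAbs

lemma Pk_diag (i : ℤ) : Pk (i, i) = if i = 0 then 1 else 0 := by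
  rw [Pk, ← Kk_zero, two_mul]; simp

lemma Pk_dtn (i : ℤ) : 4 * Pk (i, i) - ∑ z ∈ nb (i, i), Pk z = -(8 / π) / (4 * i ^ 2 - 1) := by
  rw [← Kk_dtn, sum_nb]
  simp only [Pk, show i + 1 + i = 2 * i + 1 by ring, show i - 1 + i = 2 * i - 1 by ring,
    show i + (i + 1) = 2 * i + 1 by ring, show i + (i - 1) = 2 * i - 1 by ring,
    show i + i = 2 * i by ring, show (i + 1 - i).natAbs = 1 by omega,
    show (i - 1 - i).natAbs = 1 by omega, show (i - (i + 1)).natAbs = 1 by omega,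
    show (i - (i - 1)).natAbs = 1 by omega, show (i - i).natAbs = 0 by omega]
  ring

lemma Pk_harm {v : V} (h : v.1 ≠ v.2) : ∑ z ∈ nb v, Pk z = 4 * Pk v := by
  obtain ⟨t, ht⟩ : ∃ t, (v.1 - v.2).natAbs = t + 1 := ⟨(v.1 - v.2).natAbs - 1, by omega⟩
  rw [Pk, ht, ← Kk_harm, sum_nb]
  simp only [Pk, show v.1 + 1 + v.2 = v.1 + v.2 + 1 by ring,
    show v.1 - 1 + v.2 = v.1 + v.2 - 1 by ring, show v.1 + (v.2 + 1) = v.1 + v.2 + 1 by ring,
    show v.1 + (v.2 - 1) = v.1 + v.2 - 1 by ring]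
  rcases lt_or_gt_of_ne h with h | h
  · rw [show (v.1 + 1 - v.2).natAbs = t by omega, show (v.1 - 1 - v.2).natAbs = t + 2 by omega,
      show (v.1 - (v.2 + 1)).natAbs = t + 2 by omega, show (v.1 - (v.2 - 1)).natAbs = t by omega]
    ring
  · rw [show (v.1 + 1 - v.2).natAbs = t + 2 by omega, show (v.1 - 1 - v.2).natAbs = t by omega,
      show (v.1 - (v.2 + 1)).natAbs = t by omega, show (v.1 - (v.2 - 1)).natAbs = t + 2 by omega]
    ring

lemma Pk_le {v : V} {r : ℕ} (h : (r : ℤ) ≤ |v.1| ∨ (r : ℤ) ≤ |v.2|) : |Pk v| * r ≤ 3 := by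
  have : (r : ℤ) ≤ |v.1 + v.2| ∨ r ≤ (v.1 - v.2).natAbs := by
    simp only [Int.abs_eq_natAbs] at *; omega
  rcases this with h | h
  · exact (mul_le_mul_of_nonneg_left (by exact_mod_cast h) (abs_nonneg _)).trans (Kk_le2 _ _)
  · exact (mul_le_mul_of_nonneg_left (by exact_mod_cast h.trans (Nat.le_succ _))
      (abs_nonneg _)).trans (Kk_le1 _ _)

end Pool.Agent.P.MP_5fda20_pr.U
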