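import Pool.Agent.P.MP_5fda20_pr.U.Green
import Pool.Agent.P.MP_a28080_pr.Pair

/-! Weighted sums over self-avoiding paths. -/

namespace Pool.Agent.P.MP_5fda20_pr.U

open Finset

variable {M M' : Type}

/-- sum over self-avoiding paths from `a` until the exit from `D` -/
noncomputable def E (q : V → V → ℝ) (st : V → V → M → M) (Φ : V → M → ℝ) (D : Finset V) (a : V)
    (σ : M) : ℝ :=
  if _h : a ∈ D then G q D a a * ∑ z ∈ nb a, q a z * E q st Φ (D.erase a) z (st a z σ)
  else Φ a σ
termination_by D.card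
decreasing_by exact card_erase_lt_of_mem _h

variable {q q' : V → V → ℝ} {st : V → V → M → M} {st' : V → V → M' → M'} {Φ Ψ : V → M → ℝ}
  {Φ' : V → M' → ℝ} {D : Finset V} {a : V}

lemma E_in (h : a ∈ D) (σ : M) : E q st Φ D a σ =
    G q D a a * ∑ z ∈ nb a, q a z * E q st Φ (D.erase a) z (st a z σ) := by
  rw [E, dif_pos h]

lemma E_out (h : a ∉ D) (σ : M) : E q st Φ D a σ = Φ a σ := by
  rw [E, dif_neg h]

lemma ind_erase {P : Finset V → Prop} (h : ∀ D, (∀ a ∈ D, P (D.erase a)) → P D) (D : Finset V) :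
    P D := by
  induction D using Finset.strongInduction with
  | H D ih => exact h D fun a ha => ih _ (erase_ssubset ha)

lemma E_sim (hq : Wt q) (R : Finset V → V → M → M' → Prop)
    (h1 : ∀ D a σ σ', R D a σ σ' → a ∉ D → Φ a σ ≤ Φ' a σ')
    (h2 : ∀ D a σ σ', R D a σ σ' → a ∈ D → ∀ z ∈ nb a, R (D.erase a) z (st a z σ) (st' a z σ'))
    (D : Finset V) : ∀ a σ σ', R D a σ σ' → E q st Φ D a σ ≤ E q st' Φ' D a σ' := by
  induction D using ind_erase with
  | h D ih =>
    intro a σ σ' hR
    by_cases h : a ∈ D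
    · rw [E_in h, E_in h]
      exact mul_le_mul_of_nonneg_left (sum_le_sum fun z hz => mul_le_mul_of_nonneg_left
        (ih a h _ _ _ (h2 D a σ σ' hR h z hz)) (hq a z).1) (G_nonneg hq a a)
    · rw [E_out h, E_out h]; exact h1 D a σ σ' hR h

lemma E_mono (hq : Wt q) (h : ∀ z σ, Φ z σ ≤ Ψ z σ) (D : Finset V) (a : V) (σ : M) :
    E q st Φ D a σ ≤ E q st Ψ D a σ :=
  E_sim hq (fun _ _ σ σ' => σ = σ') (fun _ a σ _ h' _ => h' ▸ h a σ)
    (fun _ _ _ _ h' _ _ _ => by rw [h']) D a σ σ rfl

lemma E_sum {ι : Type*} (s : Finset ι) (c : ι → ℝ) (F : ι → V → M → ℝ) (D : Finset V) :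
    ∀ a σ, E q st (fun z τ => ∑ i ∈ s, c i * F i z τ) D a σ =
      ∑ i ∈ s, c i * E q st (F i) D a σ := by
  induction D using ind_erase with
  | h D ih =>
    intro a σ
    by_cases h : a ∈ D
    · simp only [E_in h, ih a h, mul_sum]
      rw [sum_comm]
      exact sum_congr rfl fun i _ => sum_congr rfl fun z _ => by ring
    · simp only [E_out h]

lemma E_smul (c : ℝ) (D : Finset V) (a : V) (σ : M) :
    E q st (fun z τ => c * Φ z τ) D a σ = c * E q st Φ D a σ := by
  simpa using E_sum (q := q) (st := st) ({()} : Finset Unit) (fun _ => c) (fun _ => Φ) D a σ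

lemma E_nonneg (hq : Wt q) (h : ∀ z σ, 0 ≤ Φ z σ) (D : Finset V) (a : V) (σ : M) :
    0 ≤ E q st Φ D a σ := by
  have h0 := E_smul (q := q) (st := st) (Φ := Φ) 0 D a σ
  rw [zero_mul] at h0
  rw [← h0]
  exact E_mono hq (fun z σ => by simpa using h z σ) D a σ

/-- a subsolution is a lower bound -/
lemma le_E (hq : Wt q) (D : Finset V) : ∀ u : V → ℝ, (∀ z ∈ D, ∀ σ, 0 ≤ Φ z σ) →
    (∀ z, z ∉ D → ∀ σ, u z ≤ Φ z σ) → (∀ x ∈ D, 4 * u x ≤ ∑ z ∈ nb x, q x z * u z) →
    ∀ a σ, u a ≤ E q st Φ D a σ := by
  induction D using ind_erase with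
  | h D ih =>
    intro u h0 h1 h2 a σ
    by_cases h : a ∈ D
    · have hg := G_pos hq h
      have key := ih a h (fun x => u x - u a / G q D a a * G q D x a)
        (fun z hz => h0 z (mem_of_mem_erase hz)) (fun z hz τ => by
          by_cases hza : z = a
          · subst hza
            simpa [div_mul_cancel₀ _ hg.ne'] using h0 z h τ
          · have hz' : z ∉ D := fun h' => hz (mem_erase.mpr ⟨hza, h'⟩)
            simpa [G_off hz'] using h1 z hz' τ) (fun x hx => by
          obtain ⟨hxa, hxD⟩ := mem_erase.mp hx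
          have e := G_eq hq hxD a
          rw [dl_ne hxa, zero_add] at e
          have := h2 x hxD
          have e2 : ∑ z ∈ nb x, q x z * (u z - u a / G q D a a * G q D z a) =
              ∑ z ∈ nb x, q x z * u z - u a / G q D a a * ∑ z ∈ nb x, q x z * G q D z a := by
            rw [mul_sum, ← sum_sub_distrib]; exact sum_congr rfl fun z _ => by ring
          rw [e2, ← e]
          linarith)
      rw [E_in h]
      have e := G_eq hq h a
      rw [dl_self] at e
      have e2 : ∑ z ∈ nb a, q a z * (u z - u a / G q D a a * G q D z a) =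
          ∑ z ∈ nb a, q a z * u z - u a / G q D a a * ∑ z ∈ nb a, q a z * G q D z a := by
        rw [mul_sum, ← sum_sub_distrib]; exact sum_congr rfl fun z _ => by ring
      have h3 : ∑ z ∈ nb a, q a z * (u z - u a / G q D a a * G q D z a) ≤
          ∑ z ∈ nb a, q a z * E q st Φ (D.erase a) z (st a z σ) :=
        sum_le_sum fun z _ => mul_le_mul_of_nonneg_left (key z _) (hq a z).1
      have e3 : u a / G q D a a * G q D a a = u a := div_mul_cancel₀ _ hg.ne'
      have h4 : u a / G q D a a ≤ ∑ z ∈ nb a, q a z * E q st Φ (D.erase a) z (st a z σ) := by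
        have e4 : ∑ z ∈ nb a, q a z * G q D z a = 4 * G q D a a - 1 := by linarith
        rw [e2, e4] at h3
        nlinarith [h2 a h]
      rwa [div_le_iff₀' hg] at h4
    · rw [E_out h]; exact h1 a h σ

/-- a supersolution is an upper bound -/
lemma E_le (hq : Wt q) (D : Finset V) (u : V → ℝ) (h0 : ∀ z ∈ D, ∀ σ, Φ z σ ≤ 0)
    (h1 : ∀ z, z ∉ D → ∀ σ, Φ z σ ≤ u z) (h2 : ∀ x ∈ D, ∑ z ∈ nb x, q x z * u z ≤ 4 * u x)
    (a : V) (σ : M) : E q st Φ D a σ ≤ u a := by
  have := le_E (st := st) (Φ := fun z τ => -1 * Φ z τ) hq D (fun x => - u x)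
    (fun z hz τ => by linarith [h0 z hz τ]) (fun z hz τ => by linarith [h1 z hz τ])
    (fun x hx => by simp only [mul_neg, sum_neg_distrib]; linarith [h2 x hx]) a σ
  rw [E_smul] at this
  linarith

/-- decomposition at the exit from a subdomain -/
lemma E_dec (hq : Wt q) (hq' : Wt q') (hΦ : ∀ z σ, 0 ≤ Φ z σ) {W₀ U D₀ : Finset V}
    (hd : Disjoint W₀ U) (hΨ : ∀ D, U ⊆ D → D ⊆ D₀ → ∀ z σ, Ψ z σ ≤ E q' st Φ D z σ)
    (hqq : ∀ x ∈ W₀, ∀ z ∈ nb x, q x z ≤ q' x z ∨ (z ∉ W₀ ∧ ∀ σ, Ψ z σ ≤ 0))
    (hqq' : ∀ x ∈ W₀, ∀ z ∈ W₀, q x z ≤ q' x z) (W : Finset V) :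
    W ⊆ W₀ → ∀ D, W ⊆ D → U ⊆ D → D ⊆ D₀ → ∀ a σ, E q st Ψ W a σ ≤ E q' st Φ D a σ := by
  induction W using ind_erase with
  | h W ih =>
    intro hW D h1 h2 h3 a σ
    by_cases h : a ∈ W
    · rw [E_in h, E_in (h1 h)]
      refine le_trans (mul_le_mul_of_nonneg_left (sum_le_sum (g := fun z =>
        q' a z * E q' st Φ (D.erase a) z (st a z σ)) fun z hz => ?_) (G_nonneg hq a a))
        (mul_le_mul_of_nonneg_right (G_mono hq hq' h1 (fun x hx z hz => hqq' x (hW hx) z (hW hz))
          a a) (sum_nonneg fun z _ => mul_nonneg (hq' a z).1 (E_nonneg hq' hΦ _ _ _)))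
      rcases hqq a (hW h) z hz with h4 | ⟨h4, h5⟩
      · refine le_trans (mul_le_mul_of_nonneg_left (ih a h ((erase_subset _ _).trans hW)
          (D.erase a) (erase_subset_erase _ h1) (fun x hx => mem_erase.mpr ⟨?_, h2 hx⟩)
          ((erase_subset _ _).trans h3) z _) (hq a z).1)
          (mul_le_mul_of_nonneg_right h4 (E_nonneg hq' hΦ _ _ _))
        rintro rfl
        exact disjoint_left.mp hd (hW h) hx
      · rw [E_out fun h' => h4 (hW (mem_of_mem_erase h'))]
        exact (mul_nonpos_of_nonneg_of_nonpos (hq a z).1 (h5 _)).trans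
          (mul_nonneg (hq' a z).1 (E_nonneg hq' hΦ _ _ _))
    · rw [E_out h]; exact hΨ D h2 h3 a σ

lemma E_aut {e : V ≃ V} (he : Aut e) (D : Finset V) : ∀ a σ,
    E q st Φ (D.map e.toEmbedding) (e a) σ =
      E (fun a b => q (e a) (e b)) (fun a b => st (e a) (e b)) (fun a => Φ (e a)) D a σ := by
  induction D using ind_erase with
  | h D ih =>
    intro a σ
    by_cases h : a ∈ D
    · rw [E_in h, E_in (by simpa using h), he.sum, G_aut he]
      congr 1
      refine sum_congr rfl fun z _ => ?_
      rw [← ih a h, map_erase]; rfl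
    · rw [E_out h, E_out (by simpa using h)]

open MP_a28080_pr

/-- the accumulated value along an orbit -/
def acc (st : V → V → M → M) (f : V → V) : ℕ → V → M → M
  | 0, _, σ => σ
  | k + 1, a, σ => if f a = a then σ else acc st f k (f a) (st a (f a) σ)

lemma acc_agree {f g : V → V} {S : V → Prop} (h : ∀ y, S y → f y = g y) (k : ℕ) :
    ∀ v σ, (∀ m < k, S (g^[m] v)) → acc st f k v σ = acc st g k v σ := by
  induction k with
  | zero => intro _ _ _; rfl
  | succ k ih =>
    intro v σ hk
    have e := h v (hk 0 (by omega))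
    simp only [acc, e]
    rw [ih (g v) _ fun m hm => hk (m + 1) (by omega)]

lemma upd_mem {f : V → V} (a : V) (hf : f ∈ For D nb) :
    Function.update f a a ∈ For (D.erase a) nb := by
  obtain ⟨h1, h2, h3⟩ := mem_For.mp hf
  refine mem_For.mpr ⟨fun v hv => ?_, fun v hv => ?_, fun v => ?_⟩
  · by_cases e : v = a
    · simp [e]
    · rw [Function.update_of_ne e]; exact h1 v fun h' => hv (mem_erase.mpr ⟨e, h'⟩)
  · rw [Function.update_of_ne (mem_erase.mp hv).1]; exact h2 v (mem_of_mem_erase hv)
  · by_contra hc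
    simp only [not_exists, not_not] at hc
    obtain ⟨n, hn⟩ := h3 v
    have := iter_agree (f := f) (g := Function.update f a a) (S := fun y => y ≠ a)
      (fun y hy => by rw [Function.update_of_ne hy]) v n fun m _ => (mem_erase.mp (hc m)).1
    exact hn (this ▸ mem_of_mem_erase (hc n))

lemma exit_card {f : V → V} (hf : f ∈ For D nb) {k : ℕ} (hk : D.card ≤ k) (v : V) :
    f^[k] v ∉ D := by
  induction D using ind_erase generalizing f k v with
  | h D ih =>
    by_cases h : v ∈ D
    · obtain ⟨j, rfl⟩ : ∃ j, k = j + 1 := ⟨k - 1, by have := card_pos.mpr ⟨v, h⟩; omega⟩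
      have hne : ∀ m, f^[m] (f v) ≠ v := fun m e => not_periodic hf (k := m + 1) (by omega) e h
      have e := iter_agree (f := Function.update f v v) (g := f) (S := fun y => y ≠ v)
        (fun y hy => by rw [Function.update_of_ne hy]) (f v) j fun m _ => hne m
      have := ih v h (upd_mem _ hf) (k := j) (by rw [card_erase_of_mem h]; omega) (f v)
      rw [e] at this
      exact fun h' => this (mem_erase.mpr ⟨hne j, h'⟩)
    · rwa [iter_fix (mem_For.mp hf).1 h]

/-- the forest formula -/
lemma E_forest (D : Finset V) : ∀ k, D.card ≤ k → (∀ z ∈ D, ∀ σ, Φ z σ = 0) → ∀ a σ,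
    Z D * E (fun _ _ => 1) st Φ D a σ = ∑ f ∈ For D nb, Φ (f^[k] a) (acc st f k a σ) := by
  induction D using ind_erase with
  | h D ih =>
    intro k hk h0 a σ
    by_cases h : a ∈ D
    · obtain ⟨j, rfl⟩ : ∃ j, k = j + 1 := ⟨k - 1, by have := card_pos.mpr ⟨a, h⟩; omega⟩
      have hj : (D.erase a).card ≤ j := by rw [card_erase_of_mem h]; omega
      rw [E_in h, ← mul_assoc, mul_comm (Z D), ← Z_erase h, mul_sum]
      simp only [one_mul, ih a h j hj fun z hz => h0 z (mem_of_mem_erase hz)]
      rw [← sum_fiberwise_of_maps_to (s := For D nb) (t := nb a) (g := fun f => f a)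
        fun f hf => (mem_For.mp hf).2.1 a h]
      refine sum_congr rfl fun z hz => ?_
      rw [← sum_filter_add_sum_filter_not _ fun g => g^[j] z = a, sum_eq_zero (fun g hg => by
        rw [(mem_filter.mp hg).2]; exact h0 a h _), zero_add]
      symm
      refine sum_nbij' (fun f => Function.update f a a) (fun g => Function.update g a z)
        ?_ ?_ ?_ ?_ ?_
      · intro f hf'
        rw [mem_filter] at hf'
        obtain ⟨hf, rfl⟩ := hf'
        have hne : ∀ m, f^[m] (f a) ≠ a := fun m e => not_periodic hf (k := m + 1) (by omega) e h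
        rw [mem_filter]
        refine ⟨upd_mem _ hf, ?_⟩
        rw [iter_agree (f := Function.update f a a) (g := f) (S := fun y => y ≠ a)
          (fun y hy => by rw [Function.update_of_ne hy]) (f a) j fun m _ => hne m]
        exact hne j
      · intro g hg
        obtain ⟨hg, hz2⟩ := mem_filter.mp hg
        obtain ⟨h1, h2, h3⟩ := mem_For.mp hg
        have hga : g a = a := h1 a (notMem_erase a D)
        have hne : ∀ m ≤ j, g^[m] z ≠ a := fun m hm e => hz2 (by
          obtain ⟨i, rfl⟩ := Nat.exists_eq_add_of_le' hm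
          rw [Function.iterate_add_apply, e]; exact Function.iterate_fixed hga i)
        rw [mem_filter, mem_For]
        refine ⟨⟨fun v hv => ?_, fun v hv => ?_, fun v => ?_⟩, by simp⟩
        · rw [Function.update_of_ne (by rintro rfl; exact hv h)]
          exact h1 v fun h' => hv (mem_of_mem_erase h')
        · by_cases e : v = a
          · subst e; simpa using hz
          · rw [Function.update_of_ne e]; exact h2 v (mem_erase.mpr ⟨e, hv⟩)
        · have hn := Nat.find_spec (h3 v)
          have e := iter_agree (f := Function.update g a z) (g := g) (S := fun y => y ≠ a)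
            (fun y hy => by rw [Function.update_of_ne hy]) v (Nat.find (h3 v))
            fun m hm => (mem_erase.mp (not_not.mp (Nat.find_min (h3 v) hm))).1
          by_cases hy : g^[Nat.find (h3 v)] v = a
          · refine ⟨j + 1 + Nat.find (h3 v), ?_⟩
            rw [Function.iterate_add_apply, e, hy, Function.iterate_succ_apply,
              Function.update_self, iter_agree (f := Function.update g a z) (g := g)
                (S := fun y => y ≠ a) (fun y hy => by rw [Function.update_of_ne hy]) z j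
                fun m hm => hne m hm.le]
            exact fun h' => exit_card hg hj z (mem_erase.mpr ⟨hz2, h'⟩)
          · exact ⟨_, e ▸ fun h' => hn (mem_erase.mpr ⟨hy, h'⟩)⟩
      · intro f hf
        obtain ⟨-, rfl⟩ := mem_filter.mp hf
        simp
      · intro g hg
        have := (mem_For.mp (mem_filter.mp hg).1).1 a (notMem_erase a D)
        simp [this]
      · intro f hf'
        rw [mem_filter] at hf'
        obtain ⟨hf, rfl⟩ := hf'
        have hne : ∀ m, f^[m] (f a) ≠ a := fun m e => not_periodic hf (k := m + 1) (by omega) e h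
        rw [iter_agree (f := Function.update f a a) (g := f) (S := fun y => y ≠ a)
          (fun y hy => by rw [Function.update_of_ne hy]) (f a) j fun m _ => hne m,
          acc_agree (f := Function.update f a a) (g := f) (S := fun y => y ≠ a)
          (fun y hy => by rw [Function.update_of_ne hy]) j (f a) _ fun m _ => hne m,
          Function.iterate_succ_apply, acc, if_neg (show f a ≠ a from hne 0)]
    · rw [E_out h, Z, ← nsmul_eq_mul, ← sum_const]
      refine sum_congr rfl fun f hf => ?_
      have e := (mem_For.mp hf).1 a h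
      rw [Function.iterate_fixed e]
      cases k <;> simp [acc, e]

end Pool.Agent.P.MP_5fda20_pr.U
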