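import Pool.Agent.P.MP_5fda20_pr.U.Bar

/-! Signed weights, gauge changes and an inequality of Fomin type. -/

namespace Pool.Agent.P.MP_5fda20_pr.U

open Finset

/-- symmetric signed weights -/
def Sg (q : V → V → ℝ) : Prop := ∀ x z, |q x z| ≤ 1 ∧ q x z = q z x

/-- solution of the Poisson equation -/
def Sol (q : V → V → ℝ) (D : Finset V) (f u : V → ℝ) : Prop :=
  (∀ v, v ∉ D → u v = 0) ∧ ∀ v ∈ D, 4 * u v = f v + ∑ z ∈ nb v, q v z * u z

variable {q : V → V → ℝ} {D : Finset V} {f f' u u' : V → ℝ}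

lemma sg_one : Sg fun _ _ => 1 := fun _ _ => ⟨by simp, rfl⟩

lemma sol_G1 (D : Finset V) (y : V) : Sol (fun _ _ => 1) D (fun v => dl v y) fun v => G1 D v y :=
  ⟨fun _ hv => G_off hv y, fun _ hv => G_eq wt_one hv y⟩

lemma Sol.abs_le (hq : Sg q) (h : Sol q D f u) (h0 : ∀ v, v ∉ D → 0 ≤ u' v)
    (h' : ∀ v ∈ D, |f v| + ∑ z ∈ nb v, u' z ≤ 4 * u' v) (v : V) : |u v| ≤ u' v := by
  have := maxp wt_one D (fun v => |u v| - u' v) (fun v hv => by simp [h.1 v hv, h0 v hv])
    (fun v hv => by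
      have e := congrArg abs (h.2 v hv)
      have h1 : |∑ z ∈ nb v, q v z * u z| ≤ ∑ z ∈ nb v, |u z| :=
        (abs_sum_le_sum_abs _ _).trans (sum_le_sum fun z _ => by
          rw [abs_mul]; exact mul_le_of_le_one_left (abs_nonneg _) (hq v z).1)
      have h2 := abs_add_le (f v) (∑ z ∈ nb v, q v z * u z)
      rw [abs_mul, abs_of_pos (by norm_num : (0 : ℝ) < 4)] at e
      have := h' v hv
      simp only [one_mul, sum_sub_distrib]
      linarith) v
  linarith

lemma Sol.uniq (hq : Sg q) (h : Sol q D f u) (h' : Sol q D f' u') (hf : ∀ v ∈ D, f v = f' v) :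
    u = u' := by
  funext v
  have : Sol q D (fun _ => 0) fun v => u v - u' v := ⟨fun v hv => by simp [h.1 v hv, h'.1 v hv],
    fun v hv => by
      simp only [mul_sub, sum_sub_distrib]
      linarith [h.2 v hv, h'.2 v hv, hf v hv]⟩
  have := this.abs_le (u' := fun _ => 0) hq (fun _ _ => le_rfl) (fun _ _ => by simp) v
  exact sub_eq_zero.mp (abs_nonpos_iff.mp this)

open Matrix in
lemma sol_ex (hq : Sg q) (D : Finset V) (f : V → ℝ) : ∃ u, Sol q D f u := by
  have ext : ∀ g : D → ℝ, ∀ v : D, (LM q D *ᵥ g) v = 4 * g v -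
      ∑ z ∈ nb v.1, q v.1 z * if h : z ∈ D then g ⟨z, h⟩ else 0 := fun g v => by
    have := LM_mulVec q D (fun z => if h : z ∈ D then g ⟨z, h⟩ else 0) (fun x hx => dif_neg hx) v
    simpa using this
  have inj : Function.Injective (LM q D).mulVec := by
    refine (injective_iff_map_eq_zero (LM q D).mulVecLin).mpr fun g hg => ?_
    have : Sol q D (fun _ => 0) fun z => if h : z ∈ D then g ⟨z, h⟩ else 0 :=
      ⟨fun x hx => dif_neg hx, fun v hv => by
        have e := congrFun hg ⟨v, hv⟩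
        rw [mulVecLin_apply, ext] at e
        simp only [dif_pos hv, zero_add]
        exact sub_eq_zero.mp e⟩
    have e := this.uniq (u' := fun _ => 0) (f' := fun _ => 0) hq ⟨fun _ _ => rfl, by simp⟩
      fun _ _ => rfl
    funext v
    simpa using congrFun e v.1
  obtain ⟨g, hg⟩ := mulVec_surjective_iff_isUnit.mpr (mulVec_injective_iff_isUnit.mp inj)
    fun v : D => f v.1
  refine ⟨fun z => if h : z ∈ D then g ⟨z, h⟩ else 0, fun x hx => dif_neg hx, fun v hv => ?_⟩
  have e := congrFun hg ⟨v, hv⟩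
  rw [ext] at e
  simp only [dif_pos hv]
  linarith

lemma Sol.nonneg (h : Sol (fun _ _ => 1) D f u) (hf : ∀ v ∈ D, 0 ≤ f v) (v : V) : 0 ≤ u v := by
  have := maxp wt_one D (fun v => -u v) (fun v hv => by simp [h.1 v hv]) (fun v hv => by
    have := h.2 v hv
    simp only [mul_neg, sum_neg_distrib]
    linarith [hf v hv]) v
  linarith

/-- modulus of the determinant -/
noncomputable def dq (q : V → V → ℝ) (D : Finset V) : ℝ := |(LM q D).det|

lemma dq_nonneg (q : V → V → ℝ) (D : Finset V) : 0 ≤ dq q D := abs_nonneg _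

lemma dq_erase {x : V} (hx : x ∈ D) (h : Sol q D (fun v => dl v x) u) :
    dq q (D.erase x) = |u x| * dq q D := by
  rw [dq, det_erase q hx u h.1 h.2, abs_mul, dq]

lemma dq_mono (hq : Sg q) {D' : Finset V} (D : Finset V) :
    D' ⊆ D → dq q D' / Z D' ≤ dq q D / Z D := by
  refine ind_erase (P := fun D => D' ⊆ D → dq q D' / Z D' ≤ dq q D / Z D) (fun D ih h => ?_) D
  rcases h.eq_or_ssubset with rfl | h'
  · exact le_rfl
  obtain ⟨x, hx, hx'⟩ := exists_of_ssubset h'
  obtain ⟨u, hu⟩ := sol_ex hq D fun v => dl v x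
  refine (ih x hx (subset_erase.mpr ⟨h, hx'⟩)).trans ?_
  have h1 := hu.abs_le (u' := fun v => G1 D v x) hq (fun v _ => G_nonneg wt_one v x)
    (fun v hv => by rw [abs_of_nonneg (dl_nonneg _ _), G1_eq hv]) x
  rw [dq_erase hx hu, Z_erase hx, ← mul_div_mul_left (dq q D) (Z D) (G_pos wt_one hx).ne']
  exact div_le_div_of_nonneg_right (mul_le_mul_of_nonneg_right h1 (dq_nonneg _ _))
    (mul_pos (G_pos wt_one hx) (Z_pos D)).le

/-- the weights are a coboundary on `D` -/
def Triv (q : V → V → ℝ) (D : Finset V) : Prop :=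
  ∃ s : V → ℝ, (∀ v, s v * s v = 1) ∧ ∀ u ∈ D, ∀ v ∈ D, v ∈ nb u → q u v = s u * s v

lemma Triv.mono (h : Triv q D) {D' : Finset V} (hD : D' ⊆ D) : Triv q D' :=
  h.imp fun _ h => ⟨h.1, fun u hu v hv => h.2 u (hD hu) v (hD hv)⟩

lemma Triv.gauge (h : Triv q D) {q' : V → V → ℝ} (g : V → ℝ) (hg : ∀ v, g v * g v = 1)
    (h' : ∀ u ∈ D, ∀ v ∈ D, v ∈ nb u → q' u v = g u * g v * q u v) : Triv q' D := by
  obtain ⟨s, h1, h2⟩ := h
  refine ⟨fun v => g v * s v, fun v => ?_, fun u hu v hv huv => ?_⟩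
  · linear_combination (s v * s v) * hg v + h1 v
  · rw [h' u hu v hv huv, h2 u hu v hv huv]; ring

lemma dq_triv (D : Finset V) : Triv q D → dq q D = Z D := by
  refine ind_erase (P := fun D => Triv q D → dq q D = Z D) (fun D ih h => ?_) D
  rcases D.eq_empty_or_nonempty with rfl | ⟨x, hx⟩
  · rw [← det_LM_one]; simp [dq]
  have e := ih x hx (h.mono (erase_subset _ _))
  obtain ⟨s, h1, h2⟩ := h
  have hs : Sol q D (fun v => dl v x) fun v => s v * s x * G1 D v x :=
    ⟨fun v hv => by simp only [G1, G_off hv, mul_zero], fun v hv => by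
      have : ∑ z ∈ nb v, q v z * (s z * s x * G1 D z x) = s v * s x * ∑ z ∈ nb v, G1 D z x := by
        rw [mul_sum]
        refine sum_congr rfl fun z hz => ?_
        by_cases hz' : z ∈ D
        · rw [h2 v hv z hz' hz]
          linear_combination (s v * s x * G1 D z x) * h1 z
        · simp only [G1, G_off hz', mul_zero]
      have e : dl v x = s v * s x * dl v x := by
        by_cases h : v = x
        · rw [h, h1, one_mul]
        · rw [dl_ne h, mul_zero]
      rw [this]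
      linear_combination (s v * s x) * G1_eq hv x - e⟩
  rw [dq_erase hx hs, Z_erase hx, h1, one_mul, abs_of_pos (G_pos wt_one hx)] at e
  exact mul_left_cancel₀ (G_pos wt_one hx).ne' e

/-- the vertical zipper below the square with lower left corner `c` -/
def zv (c u v : V) : ℝ := if u.2 = v.2 ∧ u.2 ≤ c.2 ∧ min u.1 v.1 = c.1 then -1 else 1

lemma tr_up {c : V} (h : (c.1, c.2 + 1) ∉ D ∨ (c.1 + 1, c.2 + 1) ∉ D) :
    Triv (zv c) D ↔ Triv (zv (c.1, c.2 + 1)) D := by
  have : ∀ u ∈ D, ∀ v ∈ D, v ∈ nb u → zv (c.1, c.2 + 1) u v = zv c u v := fun u hu v hv huv => by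
    have h1 : ¬ ((u = (c.1, c.2 + 1) ∧ v = (c.1 + 1, c.2 + 1)) ∨
        (v = (c.1, c.2 + 1) ∧ u = (c.1 + 1, c.2 + 1))) := by
      rintro (⟨rfl, rfl⟩ | ⟨rfl, rfl⟩) <;> tauto
    rw [mem_nb] at huv
    simp only [Prod.ext_iff] at h1
    exact if_congr (by omega) rfl rfl
  exact ⟨fun h => h.gauge (fun _ => 1) (by simp) fun u hu v hv huv => by simp [this u hu v hv huv],
    fun h => h.gauge (fun _ => 1) (by simp) fun u hu v hv huv => by simp [this u hu v hv huv]⟩

lemma tr_rt {c : V} (h : (c.1 + 1, c.2) ∉ D ∨ (c.1 + 1, c.2 + 1) ∉ D) :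
    Triv (zv c) D ↔ Triv (zv (c.1 + 1, c.2)) D := by
  let g : V → ℝ := fun v => if v.1 = c.1 + 1 ∧ v.2 ≤ c.2 then -1 else 1
  have hg : ∀ v, g v * g v = 1 := fun v => by simp only [g]; split_ifs <;> norm_num
  have : ∀ u ∈ D, ∀ v ∈ D, v ∈ nb u → zv (c.1 + 1, c.2) u v = g u * g v * zv c u v := by
    intro u hu v hv huv
    have h1 : ¬ ((u = (c.1 + 1, c.2) ∧ v = (c.1 + 1, c.2 + 1)) ∨
        (v = (c.1 + 1, c.2) ∧ u = (c.1 + 1, c.2 + 1))) := by
      rintro (⟨rfl, rfl⟩ | ⟨rfl, rfl⟩) <;> tauto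
    rw [mem_nb] at huv
    simp only [Prod.ext_iff] at h1
    simp only [zv, g]
    split_ifs <;> first | omega | norm_num
  refine ⟨fun h => h.gauge g hg this, fun h => h.gauge g hg fun u hu v hv huv => ?_⟩
  rw [this u hu v hv huv]
  linear_combination (-zv c u v * g v * g v) * hg u - zv c u v * hg v

lemma tr_nb {a z : V} (hz : z ∈ nb a) (ha' : a ∉ D) (hz' : z ∉ D) (h : Triv (zv a) D) :
    Triv (zv z) D := by
  obtain ⟨a1, a2⟩ := a
  obtain ⟨z1, z2⟩ := z
  rw [mem_nb] at hz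
  dsimp only at hz
  rcases hz with ⟨rfl, rfl | rfl⟩ | ⟨rfl, rfl | rfl⟩
  · exact (tr_rt (c := (a1, z2)) (Or.inl hz')).mp h
  · exact (tr_rt (c := (a1 - 1, z2)) (Or.inl (by simpa using ha'))).mpr (by simpa using h)
  · exact (tr_up (c := (z1, a2)) (Or.inl hz')).mp h
  · exact (tr_up (c := (z1, a2 - 1)) (Or.inl (by simpa using ha'))).mpr (by simpa using h)

/-- weight of the paths that visit `x` and end in row `h` -/
noncomputable def Yv (h : ℤ) (x : V) (D : Finset V) (a : V) (σ : ℕ) : ℝ :=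
  E (fun _ _ => 1) (fun a _ (σ : ℕ) => if a = x then 1 else σ)
    (fun z σ => if z.2 = h then (σ : ℝ) else 0) D a σ

lemma Yv_nonneg (h : ℤ) (x : V) (D : Finset V) (a : V) (σ : ℕ) : 0 ≤ Yv h x D a σ :=
  E_nonneg wt_one (fun _ _ => by positivity) _ _ _

lemma Yv_in {h : ℤ} {x a : V} (ha : a ∈ D) (σ : ℕ) : Yv h x D a σ =
    G1 D a a * ∑ z ∈ nb a, Yv h x (D.erase a) z (if a = x then 1 else σ) := by
  simp only [Yv]
  rw [E_in ha]
  simp only [one_mul]

lemma le_Yv {h : ℤ} (hq : Sg q) (hD : ∀ v ∈ D, v.2 < h) (hu : Sol q D f u)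
    (hf : ∀ v, |f v| ≤ if v.2 + 1 = h then 1 else 0) (x v : V) : |u v| ≤ Yv h x D v 1 := by
  obtain ⟨w, hw⟩ := sol_ex sg_one D fun v => if v.2 + 1 = h then 1 else 0
  have h1 := hu.abs_le (u' := w) hq (fun v hv => (hw.1 v hv).ge)
    (fun v hv => by simpa [hw.2 v hv] using hf v) v
  by_cases hv : v ∈ D
  · have h2 := le_E' (st := fun _ _ (σ : Unit) => σ) (Φ := fun z _ => if z.2 = h then 1 else 0) D
      (fun z => w z + if z.2 = h then 1 else 0) (fun _ _ => by positivity)
      (fun x _ z _ hz _ => by rw [hw.1 z hz, zero_add]) (fun x hx => by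
        have := hw.2 x hx
        have := hD x hx
        simp only [one_mul, sum_add_distrib] at *
        rw [sum_nb x fun z => if z.2 = h then (1 : ℝ) else 0]
        dsimp only
        split_ifs at * <;> first | omega | linarith) hv ()
    rw [if_neg (hD v hv).ne, add_zero] at h2
    refine h1.trans (h2.trans (E_sim wt_one (fun _ _ _ τ => 1 ≤ τ) ?_ ?_ _ _ _ _ le_rfl))
    · intro D a _ τ h _
      split_ifs
      exacts [by exact_mod_cast h, le_rfl]
    · intro D a _ τ h _ z _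
      split_ifs
      exacts [le_rfl, h]
  · rw [hu.1 v hv, abs_zero]
    exact Yv_nonneg _ _ _ _ _

theorem fomin {h : ℤ} {x y : V} (hq : Sg q) (hy : y ∈ nb x)
    (hf : ∀ v, |f v| ≤ if v.2 + 1 = h then 1 else 0)
    (hx' : ∀ D, x ∉ D → Triv (zv x) D → Triv q D) (hy' : ∀ D, y ∉ D → Triv (zv y) D → Triv q D)
    (D : Finset V) : (∀ v ∈ D, v.2 < h) → x ∈ D → y ∈ D → ∀ a u H, Triv (zv a) (D.erase a) →
      Sol q D (fun v => dl v a) u → Sol q D f H →
      dq q D * |u x * H y - u y * H x| ≤ Z D * Yv h x D a 0 := by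
  refine ind_erase (P := fun D => (∀ v ∈ D, v.2 < h) → x ∈ D → y ∈ D → ∀ a u H,
    Triv (zv a) (D.erase a) → Sol q D (fun v => dl v a) u → Sol q D f H →
    dq q D * |u x * H y - u y * H x| ≤ Z D * Yv h x D a 0) (fun D ih hD hx hyD a u H ht hu hH => ?_) D
  by_cases ha : a ∈ D
  swap
  · rw [hu.uniq (u' := fun _ => 0) (f' := fun _ => 0) hq ⟨fun _ _ => rfl, by simp⟩
      fun v hv => dl_ne fun h => ha (h ▸ hv)]
    simpa using mul_nonneg (Z_pos D).le (Yv_nonneg _ _ _ _ _)
  have hD' : ∀ v ∈ D.erase a, v.2 < h := fun v hv => hD v (mem_of_mem_erase hv)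
  choose g hg using fun z => sol_ex hq (D.erase a) fun v => dl v z
  obtain ⟨H', hH'⟩ := sol_ex hq (D.erase a) f
  have key : ∀ (w w' f : V → ℝ), (∀ v, v ∉ D → w v = 0) →
      (∀ v ∈ D.erase a, 4 * w v = f v + ∑ z ∈ nb v, q v z * w z) → Sol q (D.erase a) f w' →
      ∀ v, w v = w' v + w a * (dl v a + ∑ z ∈ nb a, q a z * g z v) := by
    intro w w' f h1 h2 h3 v
    have : Sol q (D.erase a) f fun v => w v - w a * (dl v a + ∑ z ∈ nb a, q a z * g z v) := by
      refine ⟨fun v hv => ?_, fun v hv => ?_⟩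
      · simp only [fun z => (hg z).1 v hv, mul_zero, sum_const_zero, add_zero]
        by_cases h : v = a
        · rw [h, dl_self, mul_one, sub_self]
        · rw [dl_ne h, h1 v fun h' => hv (mem_erase.mpr ⟨h, h'⟩), mul_zero, sub_zero]
      · have e1 : ∑ z ∈ nb v, q v z * dl z a = ∑ z ∈ nb a, q a z * dl v z := by
          simp only [dl, mul_ite, mul_one, mul_zero, sum_ite_eq', sum_ite_eq]
          exact if_congr ⟨nb_symm, nb_symm⟩ (hq _ _).2 rfl
        have e2 : 4 * ∑ z ∈ nb a, q a z * g z v = ∑ z ∈ nb a, q a z * dl v z +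
            ∑ z' ∈ nb v, q v z' * ∑ z ∈ nb a, q a z * g z z' := by
          simp only [mul_sum]
          rw [sum_comm (s := nb v), ← sum_add_distrib]
          refine sum_congr rfl fun z _ => ?_
          rw [mul_left_comm, (hg z).2 v hv, mul_add, mul_sum]
          exact congrArg _ (sum_congr rfl fun _ _ => by ring)
        have e3 : ∑ z' ∈ nb v, q v z' * (w z' - w a * (dl z' a + ∑ z ∈ nb a, q a z * g z z')) =
            ∑ z' ∈ nb v, q v z' * w z' - w a * (∑ z' ∈ nb v, q v z' * dl z' a +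
              ∑ z' ∈ nb v, q v z' * ∑ z ∈ nb a, q a z * g z z') := by
          rw [← sum_add_distrib, mul_sum, ← sum_sub_distrib]
          exact sum_congr rfl fun _ _ => by ring
        beta_reduce
        rw [e3, dl_ne (mem_erase.mp hv).1]
        linear_combination h2 v hv - w a * e2 + w a * e1
    linarith [congrFun (this.uniq hq h3 fun _ _ => rfl) v]
  have k1 := key u (fun _ => 0) (fun _ => 0) hu.1 (fun v hv => by
    simpa only [dl_ne (mem_erase.mp hv).1] using hu.2 v (mem_of_mem_erase hv)) ⟨fun _ _ => rfl, by simp⟩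
  have k2 := key H H' f hH.1 (fun v hv => hH.2 v (mem_of_mem_erase hv)) hH'
  have e : u x * H y - u y * H x = u a * (dl x a * H' y - dl y a * H' x +
      ∑ z ∈ nb a, q a z * (g z x * H' y - g z y * H' x)) := by
    have : ∑ z ∈ nb a, q a z * (g z x * H' y - g z y * H' x) =
        (∑ z ∈ nb a, q a z * g z x) * H' y - (∑ z ∈ nb a, q a z * g z y) * H' x := by
      rw [sum_mul, sum_mul, ← sum_sub_distrib]
      exact sum_congr rfl fun _ _ => by ring
    rw [this, k1 x, k1 y, k2 x, k2 y]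
    ring
  rw [e, abs_mul, ← mul_assoc, mul_comm (dq q D), ← dq_erase ha hu, Yv_in ha, ← mul_assoc,
    mul_comm (Z D), ← Z_erase ha]
  have hZ := (Z_pos (D.erase a)).le
  have hn := notMem_erase a D
  by_cases hax : a = x
  · subst hax
    rw [dq_triv _ (hx' _ hn ht), if_pos rfl]
    simp only [fun z => (hg z).1 a hn, hH'.1 a hn, dl_self, mul_zero, zero_mul, sub_zero,
      sum_const_zero, add_zero, one_mul]
    exact mul_le_mul_of_nonneg_left ((le_Yv hq hD' hH' hf a y).trans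
      (single_le_sum (f := fun z => Yv h a (D.erase a) z 1)
        (fun z _ => Yv_nonneg _ _ _ _ _) hy)) hZ
  have hxa : x ∈ D.erase a := mem_erase.mpr ⟨Ne.symm hax, hx⟩
  rw [if_neg hax]
  by_cases hay : a = y
  · subst hay
    rw [dq_triv _ (hy' _ hn ht)]
    simp only [fun z => (hg z).1 a hn, hH'.1 a hn, dl_self, mul_zero, zero_mul, sub_zero,
      sum_const_zero, add_zero, one_mul, zero_sub, abs_neg]
    refine mul_le_mul_of_nonneg_left ((le_Yv hq hD' hH' hf x x).trans (le_trans (le_of_eq ?_)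
      (single_le_sum (f := fun z => Yv h x (D.erase a) z 0)
        (fun z _ => Yv_nonneg _ _ _ _ _) (nb_symm hy)))) hZ
    simp only [Yv_in hxa, if_true]
  rw [dl_ne (Ne.symm hax), dl_ne (Ne.symm hay), zero_mul, zero_mul, sub_zero, zero_add, mul_sum]
  refine le_trans (mul_le_mul_of_nonneg_left (abs_sum_le_sum_abs _ _) (dq_nonneg _ _)) ?_
  rw [mul_sum]
  refine sum_le_sum fun z hz => le_trans (mul_le_mul_of_nonneg_left ?_ (dq_nonneg _ _))
    (ih a ha hD' hxa (mem_erase.mpr ⟨Ne.symm hay, hyD⟩) z (g z) H'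
      (tr_nb hz (fun h => hn (mem_of_mem_erase h)) (notMem_erase _ _)
        (ht.mono (erase_subset _ _))) (hg z) hH')
  rw [abs_mul]
  exact mul_le_of_le_one_left (abs_nonneg _) (hq a z).1

end Pool.Agent.P.MP_5fda20_pr.U
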