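import Pool.Agent.P.MP_5fda20_pr.U.Gap
import Pool.Agent.P.MP_5fda20_pr.U.Sg

/-! The diagonal zipper: determinant ratio and escape estimate. -/

namespace Pool.Agent.P.MP_5fda20_pr.U

open Finset Real

variable {q : V → V → ℝ} {D : Finset V} {f f' g u u' : V → ℝ}

lemma Sol.lin (h : Sol q D f u) (h' : Sol q D f' u') (a b : ℝ) {f'' : V → ℝ}
    (hf : ∀ v ∈ D, f'' v = a * f v + b * f' v) : Sol q D f'' fun v => a * u v + b * u' v :=
  ⟨fun v hv => by simp [h.1 v hv, h'.1 v hv], fun v hv => by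
    have : ∑ z ∈ nb v, q v z * (a * u z + b * u' z) =
        a * ∑ z ∈ nb v, q v z * u z + b * ∑ z ∈ nb v, q v z * u' z := by
      rw [mul_sum, mul_sum, ← sum_add_distrib]
      exact sum_congr rfl fun _ _ => by ring
    beta_reduce
    rw [this, hf v hv]
    linear_combination a * h.2 v hv + b * h'.2 v hv⟩

lemma sol_sum {ι : Type*} (s : Finset ι) {f u : ι → V → ℝ} (h : ∀ i ∈ s, Sol q D (f i) (u i)) :
    Sol q D (fun v => ∑ i ∈ s, f i v) fun v => ∑ i ∈ s, u i v :=
  ⟨fun v hv => sum_eq_zero fun i hi => (h i hi).1 v hv, fun v hv => by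
    simp only [mul_sum]
    rw [sum_comm, ← sum_add_distrib]
    exact sum_congr rfl fun i hi => (h i hi).2 v hv⟩

lemma Sol.swap (h : Sol (fun _ _ => 1) D f g) (hD : ∀ v, v.swap ∈ D ↔ v ∈ D)
    (hf : ∀ v, f v.swap = f v) (a b : ℤ) : g (a, b) = g (b, a) :=
  congrFun (h.uniq (u' := fun v => g v.swap) sg_one ⟨fun v hv => h.1 _ (mt (hD v).mp hv),
    fun v hv => by
      have := h.2 _ ((hD v).mpr hv)
      simp only [sum_nb, hf, Prod.fst_swap, Prod.snd_swap, Prod.swap_prod_mk] at this ⊢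
      linarith⟩ fun _ _ => rfl) (a, b)

/-- the zipper along the lower half of the diagonal -/
def qd (k : ℤ) (u v : V) : ℝ :=
  if (u.1 = u.2 ∧ u.1 ≤ k ∧ v.2 < v.1) ∨ (v.1 = v.2 ∧ v.1 ≤ k ∧ u.2 < u.1) then -1 else 1

/-- the side of the diagonal -/
def ep (v : V) : ℝ := if v.2 < v.1 then -1 else 1

lemma sg_qd (k : ℤ) : Sg (qd k) := fun u v =>
  ⟨by unfold qd; split_ifs <;> simp, if_congr or_comm rfl rfl⟩

lemma triv_qd {k : ℤ} (h : Triv (zv (k, k)) D) : Triv (qd k) D :=
  h.gauge (fun v => if v.1 ≤ k ∧ v.2 < v.1 then -1 else 1) (fun v => by split_ifs <;> norm_num)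
    fun u _ v _ huv => by
      rw [mem_nb] at huv
      simp only [qd, zv]
      split_ifs <;> first | omega | norm_num

lemma sol_lo {k : ℤ} (hD : ∀ v, v.swap ∈ D ↔ v ∈ D) (hf : ∀ v, f v.swap = f v)
    (hf' : ∀ i ≤ k, f (i, i) = 0)
    (h : Sol (fun _ _ => 1) (D.filter fun v => v.1 ≠ v.2 ∨ k < v.1) f g) : Sol (qd k) D f g := by
  have hs := h.swap (fun v => by
    simp only [mem_filter, hD, Prod.fst_swap, Prod.snd_swap]
    exact and_congr_right fun _ => by omega) hf
  have h0 : ∀ v : V, ¬ (v.1 ≠ v.2 ∨ k < v.1) → g v = 0 := fun v hv =>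
    h.1 v fun h => hv (mem_filter.mp h).2
  refine ⟨fun v hv => h.1 v fun h => hv (mem_filter.mp h).1, fun v hv => ?_⟩
  by_cases hc : v.1 ≠ v.2 ∨ k < v.1
  · rw [h.2 v (mem_filter.mpr ⟨hv, hc⟩)]
    refine congrArg _ (sum_congr rfl fun z hz => ?_)
    unfold qd
    split_ifs with h'
    · rw [h0 z (by omega), mul_zero, mul_zero]
    · rfl
  · obtain ⟨i, j⟩ := v
    obtain rfl : i = j := by dsimp only at hc; omega
    rw [h0 _ hc, hf' i (by dsimp only at hc; omega), sum_nb]
    dsimp only [qd] at hc ⊢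
    rw [if_pos (by omega), if_neg (by omega), if_neg (by omega), if_pos (by omega), hs (i + 1) i,
      hs (i - 1) i]
    ring

lemma sol_hi {k : ℤ} (hD : ∀ v, v.swap ∈ D ↔ v ∈ D) (hf : ∀ v, f v.swap = f v)
    (hf' : ∀ i, k < i → f (i, i) = 0)
    (h : Sol (fun _ _ => 1) (D.filter fun v => v.1 ≠ v.2 ∨ v.1 ≤ k) f g) :
    Sol (qd k) D (fun v => ep v * f v) fun v => ep v * g v := by
  have hs := h.swap (fun v => by
    simp only [mem_filter, hD, Prod.fst_swap, Prod.snd_swap]
    exact and_congr_right fun _ => by omega) hf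
  have h0 : ∀ v : V, ¬ (v.1 ≠ v.2 ∨ v.1 ≤ k) → g v = 0 := fun v hv =>
    h.1 v fun h => hv (mem_filter.mp h).2
  refine ⟨fun v hv => mul_eq_zero_of_right _ (h.1 v fun h => hv (mem_filter.mp h).1),
    fun v hv => ?_⟩
  beta_reduce
  by_cases hc : v.1 ≠ v.2 ∨ v.1 ≤ k
  · rw [mul_left_comm, h.2 v (mem_filter.mpr ⟨hv, hc⟩), mul_add, mul_sum]
    refine congrArg _ (sum_congr rfl fun z hz => ?_)
    rw [mem_nb] at hz
    by_cases hz' : z.1 ≠ z.2 ∨ z.1 ≤ k
    · unfold qd ep
      split_ifs <;> first | omega | ring1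
    · rw [h0 z hz']; ring
  · obtain ⟨i, j⟩ := v
    obtain rfl : i = j := by dsimp only at hc; omega
    rw [h0 _ hc, hf' i (by dsimp only at hc; omega), sum_nb]
    dsimp only [qd, ep] at hc ⊢
    rw [hs (i + 1) i, hs (i - 1) i]
    split_ifs <;> first | omega | ring1

lemma pr_sq (m : ℕ) : 1 ≤ (2 * m + 1) * pr m ^ 2 ∧ (m + 1) * pr m ^ 2 ≤ 1 := by
  induction m with
  | zero => simp [pr]
  | succ m ih =>
    rw [pr, prod_range_succ, ← pr, mul_pow, div_pow]
    have hp := sq_nonneg (pr m)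
    have hm := Nat.cast_nonneg (α := ℝ) m
    push_cast
    constructor
    · rw [← mul_div_assoc, ← mul_div_assoc, le_div_iff₀ (by positivity)]
      nlinarith [mul_le_mul_of_nonneg_left ih.1 (show (0 : ℝ) ≤ (m + 3 / 2) ^ 2 by positivity),
        mul_nonneg hp hm]
    · rw [← mul_div_assoc, ← mul_div_assoc, div_le_iff₀ (by positivity)]
      nlinarith [mul_le_mul_of_nonneg_left ih.2
        (show (0 : ℝ) ≤ (m + 1) * (m + 2) by positivity)]

lemma sig_sq (m : ℕ) : (m + 1) / 7 ≤ sig m ^ 2 ∧ sig m ^ 2 ≤ (2 * m + 1) / 6 := by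
  have h := pr_sq m
  have hp := pr_pos m
  have h1 := pi_gt_d2
  have h2 := pi_lt_d2
  have hm := Nat.cast_nonneg (α := ℝ) m
  rw [sig, div_pow, le_div_iff₀ (by positivity), div_le_iff₀ (by positivity)]
  constructor <;> nlinarith

lemma gam_pos (m : ℕ) : 0 < gam m :=
  mul_pos (by positivity) (prod_pos fun _ _ => by positivity)

lemma gam_succ (m : ℕ) : gam (m + 1) = gam m * (1 + 1 / (4 * ((m + 1) * (m + 2)))) := by
  rw [gam, prod_range_succ, ← mul_assoc, ← gam]
  congr 1
  field_simp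
  ring

lemma gam_mono : Monotone gam := monotone_nat_of_le_succ fun m => by
  rw [gam_succ]
  exact le_mul_of_one_le_right (gam_pos m).le (le_add_of_nonneg_right (by positivity))

lemma gam_four : Monotone fun m : ℕ => gam m ^ 4 * ((m + 2) / (m + 1)) :=
  monotone_nat_of_le_succ fun m => by
    rw [gam_succ, mul_pow, mul_assoc]
    refine mul_le_mul_of_nonneg_left (le_trans ?_ (mul_le_mul_of_nonneg_right
      (one_add_mul_le_pow (le_trans (by norm_num) (show (0 : ℝ) ≤ _ by positivity)) 4)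
      (by positivity))) (pow_nonneg (gam_pos m).le 4)
    push_cast
    rw [show 1 + 4 * (1 / (4 * (((m : ℝ) + 1) * (m + 2)))) = ((m + 1) * (m + 2) + 1) /
      ((m + 1) * (m + 2)) by field_simp, div_mul_div_comm,
      div_le_div_iff₀ (by positivity) (by positivity)]
    have hm := Nat.cast_nonneg (α := ℝ) m
    nlinarith [mul_nonneg hm hm]

lemma gam_prod (j : ℕ) : (j + 1) / 3 ≤ (∏ i ∈ range j, gam j / gam i) ^ 4 := by
  have h1 : ∏ i ∈ range j, ((i : ℝ) + 2) / (i + 1) = j + 1 := by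
    induction j with
    | zero => simp
    | succ j ih => rw [prod_range_succ, ih]; push_cast; field_simp; ring
  have h2 : (((j : ℝ) + 2) / (j + 1)) ^ j ≤ 3 := by
    have : ((j : ℝ) + 2) / (j + 1) ≤ exp (1 / (j + 1)) :=
      le_trans (le_of_eq (by field_simp; ring)) (add_one_le_exp _)
    refine (pow_le_pow_left₀ (by positivity) this j).trans ?_
    rw [← exp_nat_mul]
    refine (exp_le_exp.mpr ?_).trans (exp_one_lt_d9.le.trans (by norm_num))
    rw [mul_one_div, div_le_one (by positivity)]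
    linarith
  refine (div_le_div_of_nonneg_left (by positivity) (by positivity) h2).trans ?_
  rw [← prod_pow, show ((j : ℝ) + 1) / ((j + 2) / (j + 1)) ^ j =
    ∏ i ∈ range j, ((i : ℝ) + 2) / (i + 1) / ((j + 2) / (j + 1)) by
      rw [prod_div_distrib, h1, prod_const, card_range]]
  refine prod_le_prod (fun _ _ => by positivity) fun i hi => ?_
  have := gam_pos i
  rw [div_pow, div_le_div_iff₀ (by positivity) (by positivity), mul_comm]
  exact gam_four (mem_range.mp hi).le

/-- the square -/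
noncomputable def Sq (h : ℕ) : Finset V := Icc (1 : ℤ) h ×ˢ Icc (1 : ℤ) h

lemma mem_Sq {h : ℕ} {v : V} : v ∈ Sq h ↔ (1 ≤ v.1 ∧ v.1 ≤ h) ∧ 1 ≤ v.2 ∧ v.2 ≤ h := by
  simp only [Sq, mem_product, mem_Icc]

lemma ratio {h j : ℕ} {k : ℤ} (hj : 0 < j) (h1 : 13 * j ≤ k) (h2 : k + 13 * j ≤ h) :
    (j : ℝ) / 8 ≤ (dq (qd k) (Sq h) / Z (Sq h)) ^ 4 := by
  let A : ℕ → Finset V := fun m => (Sq h).filter fun v => v.1 ≠ v.2 ∨ (k - j < v.1 ∧ v.1 ≤ k + m)
  have hjr : (1 : ℝ) ≤ j := by exact_mod_cast hj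
  have hc : (0 : ℝ) ≤ 1 - 1 / (5 * j) := by
    rw [sub_nonneg, div_le_one (by positivity)]; linarith
  have key : ∀ m ≤ j, ∏ i ∈ range m, (1 - 1 / (5 * j)) * (gam j / gam i) ≤
      dq (qd k) (A m) / Z (A m) := by
    intro m
    induction m with
    | zero =>
      intro _
      rw [dq_triv, div_self (Z_pos _).ne', prod_range_zero]
      refine ⟨ep, fun v => by unfold ep; split_ifs <;> norm_num, fun u hu v hv huv => ?_⟩
      have := (mem_filter.mp hu).2
      have := (mem_filter.mp hv).2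
      rw [mem_nb] at huv
      unfold qd ep
      split_ifs <;> first | omega | norm_num
    | succ m ih =>
      intro hm
      have hx : (k + m + 1, k + m + 1) ∈ A (m + 1) := by
        simp only [A, mem_filter, mem_Sq]; omega
      have e : (A (m + 1)).erase (k + m + 1, k + m + 1) = A m := by
        ext v
        simp only [A, mem_erase, mem_filter, mem_Sq, Ne, Prod.ext_iff]
        omega
      have hs := sol_lo (k := k) (D := A (m + 1)) (f := fun v => dl v (k + m + 1, k + m + 1)) (fun v => by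
        simp only [A, mem_filter, mem_Sq, Prod.fst_swap, Prod.snd_swap]; omega)
        (fun v => if_congr (by simp only [Prod.ext_iff, Prod.fst_swap, Prod.snd_swap]; omega) rfl rfl)
        (fun i hi => dl_ne (by simp only [Ne, Prod.mk.injEq]; omega))
        (sol_G1 _ (k + m + 1, k + m + 1))
      have e1 := dq_erase hx hs
      have e2 := Z_erase hx
      rw [e] at e1 e2
      have b1 := (gap (k + m + 1) m).1 ((A (m + 1)).filter fun v => v.1 ≠ v.2 ∨ k < v.1)
        fun v hv => by simp only [A, mem_filter] at hv; omega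
      have b2 := (((gap (k + m + 1) (j + m)).2 (12 * j) (by omega)).1).trans
        (G_mono wt_one wt_one (D' := A (m + 1)) (fun v hv => by
          rw [mem_Ga] at hv; simp only [A, mem_filter, mem_Sq]; omega) (fun _ _ _ _ => le_rfl) _ _)
      have b3 : (1 - 1 / (5 * j)) * gam j ≤ G1 (A (m + 1)) (k + m + 1, k + m + 1)
          (k + m + 1, k + m + 1) := by
        refine le_trans ?_ b2
        have c1 : (m : ℝ) + 1 ≤ j := by exact_mod_cast hm
        have c2 := (sig_sq (j + m)).2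
        have c3 : 3 / 8 ≤ gam j := le_trans (by simp only [gam, prod_range_zero]; linarith [pi_gt_three])
          (gam_mono (Nat.zero_le j))
        have c4 := gam_mono (Nat.le_add_right j m)
        push_cast at c2 ⊢
        have c5 : 12 * sig (j + m) ^ 2 / (12 * j * (12 * j - (j + m))) ≤ 1 / (5 * j) * gam j := by
          rw [one_div_mul_eq_div, div_le_div_iff₀ (mul_pos (by positivity) (by linarith))
            (by positivity)]
          nlinarith [mul_le_mul c3 (show (120 : ℝ) * j ^ 2 ≤ 12 * j * (12 * j - (j + m)) by nlinarith)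
            (by positivity) (by linarith), mul_le_mul_of_nonneg_right c2 (show (0 : ℝ) ≤ j by linarith)]
        linarith
      have hZ := Z_pos (A (m + 1))
      have hG := G_pos wt_one hx
      have hg := gam_pos m
      rw [prod_range_succ]
      refine (mul_le_mul_of_nonneg_right (ih (by omega)) (mul_nonneg hc
        (div_pos (gam_pos j) hg).le)).trans ?_
      rw [e1, e2, abs_of_nonneg (G_nonneg wt_one _ _), mul_div_mul_comm, mul_right_comm]
      refine mul_le_of_le_one_left (div_nonneg (dq_nonneg _ _) hZ.le) ?_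
      rw [← mul_div_assoc, div_mul_div_comm, div_le_one (mul_pos hG hg), mul_comm]
      exact mul_le_mul b3 b1 (G_nonneg wt_one _ _) hG.le
  have := (key j le_rfl).trans (dq_mono (sg_qd k) (Sq h) (filter_subset _ _))
  rw [prod_mul_distrib, prod_const, card_range] at this
  have b1 := one_add_mul_le_pow (a := -(1 / (5 * (j : ℝ)))) (by linarith) j
  rw [show 1 + (j : ℝ) * -(1 / (5 * j)) = 4 / 5 by field_simp; ring, ← sub_eq_add_neg] at b1
  have hP : 0 ≤ ∏ i ∈ range j, gam j / gam i :=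
    prod_nonneg fun i _ => (div_pos (gam_pos j) (gam_pos i)).le
  refine le_trans ?_ (pow_le_pow_left₀ (by positivity)
    ((mul_le_mul_of_nonneg_right b1 hP).trans this) 4)
  rw [mul_pow]
  linarith [gam_prod j]

lemma esc {h j : ℕ} {k : ℤ} (hj : 0 < j) (h1 : 13 * j ≤ k) (h2 : k + 20 * j ≤ h)
    (h3 : h ≤ 120 * j) (h0 : ∀ v, 0 ≤ u v) (hs : ∀ v ∈ Sq h, v.1 ≠ v.2 ∨ v.1 ≤ k →
      (if v.1 ≠ v.2 ∧ (v.1 = 1 ∨ v.2 = 1) then 1 else 0) + ∑ z ∈ nb v, u z ≤ 4 * u v) :
    sig j / (30000 * j) ≤ u (k, k) := by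
  let p : V → ℤ := fun v => |(h + 1 - v.1) * (h + 1 - v.2) * ((h + 1 - v.2) ^ 2 - (h + 1 - v.1) ^ 2)|
  let S : V → ℝ := fun v => ∑ i ∈ range (j + 1), G1 (Ga k j (12 * j)) v (k - i, k - i)
  have hjr : (1 : ℝ) ≤ j := by exact_mod_cast hj
  have hN : (0 : ℝ) < (h + 1) ^ 4 := by positivity
  have hp : ∀ v, (0 : ℝ) ≤ p v := fun v => by exact_mod_cast abs_nonneg _
  have hS : ∀ v, 4 * S v ≤ ∑ i ∈ range (j + 1), dl v (k - i, k - i) + ∑ z ∈ nb v, S z := fun v => by
    rw [sum_comm, mul_sum, ← sum_add_distrib]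
    refine sum_le_sum fun i _ => ?_
    by_cases hv : v ∈ Ga k j (12 * j)
    · exact (G1_eq hv _).le
    · rw [G1, G_off hv, mul_zero]
      exact add_nonneg (dl_nonneg _ _) (sum_nonneg fun _ _ => G_nonneg wt_one _ _)
  have := maxp' ((Sq h).filter fun v => v.1 ≠ v.2 ∨ (k - j ≤ v.1 ∧ v.1 ≤ k))
    (fun v => p v + 16000 * j ^ 3 * S v - (h + 1) ^ 4 * (u v + if v.1 = 0 ∨ v.2 = 0 then 1 else 0))
    (fun x hx z hz hz' => ?_) (fun v hv => ?_) (u := (k, k))
    (by simp only [mem_filter, mem_Sq]; omega)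
  · have a1 := ((gap k j).2 (12 * j) (by omega)).2
    have a2 : S (k, k) = ∑ i ∈ range (j + 1), G1 (Ga k j (12 * j)) (k - i, k - i) (k, k) :=
      sum_congr rfl fun _ _ => G1_symm _ _ _
    have a3 : 5 / 11 ≤ 1 - 3 * ((j : ℝ) + 1) / ((12 * j : ℕ) - j) := by
      push_cast
      rw [le_sub_comm, div_le_iff₀ (by linarith)]
      linarith
    have a4 : 0 < sig j := div_pos pi_pos (by linarith [pr_pos j])
    have a5 : ((h : ℝ) + 1) ^ 4 ≤ (121 * j) ^ 4 := pow_le_pow_left₀ (by positivity) (by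
      have : (h : ℝ) ≤ 120 * j := by exact_mod_cast h3
      linarith) 4
    rw [if_neg (by dsimp only; omega), add_zero, a2] at this
    rw [div_le_iff₀ (by positivity)]
    refine le_of_mul_le_mul_left ?_ (show (0 : ℝ) < j ^ 3 by positivity)
    nlinarith [hp (k, k), mul_le_mul_of_nonneg_right a5 (h0 (k, k)),
      mul_le_mul_of_nonneg_left ((mul_le_mul_of_nonneg_left a3 a4.le).trans a1)
        (show (0 : ℝ) ≤ j ^ 3 by positivity), mul_nonneg (h0 (k, k)) (show (0 : ℝ) ≤ j ^ 4 by positivity)]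
  · have a1 : S z = 0 := sum_eq_zero fun i _ => G_off (fun hG => hz' (by
      rw [mem_Ga] at hG; simp only [mem_filter, mem_Sq]; omega)) _
    simp only [mem_filter, mem_Sq] at hx hz'
    rw [mem_nb] at hz
    have a2 : p z ≤ (h + 1) ^ 4 * if z.1 = 0 ∨ z.2 = 0 then 1 else 0 := by
      split_ifs with hb
      · have b1 : |(h + 1 - z.1 : ℤ)| ≤ h + 1 := abs_le.mpr (by omega)
        have b2 : |(h + 1 - z.2 : ℤ)| ≤ h + 1 := abs_le.mpr (by omega)
        have b3 : |((h + 1 - z.2) ^ 2 - (h + 1 - z.1) ^ 2 : ℤ)| ≤ (h + 1) ^ 2 := by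
          have := sq_le_sq' (abs_le.mp b1).1 (abs_le.mp b1).2
          have := sq_le_sq' (abs_le.mp b2).1 (abs_le.mp b2).2
          exact abs_le.mpr ⟨by nlinarith, by nlinarith⟩
        simp only [p, abs_mul]
        calc _ ≤ ((h : ℤ) + 1) * (h + 1) * (h + 1) ^ 2 := by gcongr
          _ = _ := by ring
      · rcases (by omega : z.1 = h + 1 ∨ z.2 = h + 1 ∨ z.1 = z.2) with e | e | e <;> simp [p, e]
    have a2 : (p z : ℝ) ≤ (h + 1) ^ 4 * if z.1 = 0 ∨ z.2 = 0 then 1 else 0 := by exact_mod_cast a2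
    rw [a1]
    nlinarith [mul_nonneg hN.le (h0 z)]
  · simp only [mem_filter] at hv
    have a1 := hs v hv.1 (by omega)
    have a2 := hS v
    rw [mem_Sq] at hv
    have a3 : ∑ z ∈ nb v, (if z.1 = 0 ∨ z.2 = 0 then (1 : ℝ) else 0) =
        if v.1 ≠ v.2 ∧ (v.1 = 1 ∨ v.2 = 1) then 1 else 0 := by
      rw [sum_nb]
      dsimp only
      split_ifs <;> first | omega | norm_num
    have a4 : 4 * p v + 16000 * j ^ 3 * ∑ i ∈ range (j + 1), dl v (k - i, k - i) ≤
        ∑ z ∈ nb v, (p z : ℝ) := by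
      by_cases hd : v.1 = v.2
      · obtain ⟨x, hx, rfl⟩ : ∃ x : ℕ, x ≤ j ∧ v = (k - x, k - x) :=
          ⟨(k - v.1).toNat, by omega, Prod.ext (by dsimp only; omega) (by dsimp only; omega)⟩
        unfold dl
        rw [sum_congr rfl fun i _ => if_congr (show (k - x, k - x) = (k - (i : ℕ), k - (i : ℕ)) ↔
          x = i by simp only [Prod.mk.injEq]; omega) rfl rfl, sum_ite_eq,
          if_pos (mem_range.mpr (by omega))]
        refine le_trans ?_ (single_le_sum (fun z _ => hp z)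
          (show (k - x, k - x - 1) ∈ nb _ from mem_nb.mpr (by simp)))
        have : 16000 * j ^ 3 ≤ p (k - x, k - x - 1) := by
          refine le_trans ?_ (le_abs_self _)
          obtain ⟨X, hX⟩ : ∃ X : ℤ, X = h + 1 - (k - x) := ⟨_, rfl⟩
          have := pow_le_pow_left₀ (by positivity) (show 20 * (j : ℤ) ≤ X by omega) 3
          dsimp only
          rw [show (h : ℤ) + 1 - (k - x - 1) = X + 1 by omega, ← hX]
          nlinarith [show 0 ≤ X by omega]
        simp only [p, sub_self, mul_zero, abs_zero, Int.cast_zero, zero_add, mul_one]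
        exact_mod_cast this
      · rw [sum_eq_zero fun i _ => dl_ne fun e => hd (by rw [e]), mul_zero, add_zero, sum_nb]
        have key : ∀ X Y : ℤ, 0 ≤ X → X ≤ Y → |X * Y * (Y ^ 2 - X ^ 2)| = X * Y * (Y ^ 2 - X ^ 2) ∧
            |Y * X * (X ^ 2 - Y ^ 2)| = X * Y * (Y ^ 2 - X ^ 2) := fun X Y a b => by
          have : 0 ≤ X * Y * (Y ^ 2 - X ^ 2) :=
            mul_nonneg (mul_nonneg a (a.trans b)) (by nlinarith)
          exact ⟨abs_of_nonneg this, by rw [← abs_neg, ← abs_of_nonneg this]; congr 1; ring⟩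
        have : 4 * p v = p (v.1 + 1, v.2) + p (v.1 - 1, v.2) + p (v.1, v.2 + 1) +
            p (v.1, v.2 - 1) := by
          simp only [p]
          rcases lt_or_gt_of_ne hd with h | h
          · iterate 5 rw [(key _ _ (by omega) (by omega)).2]
            ring
          · iterate 5 rw [(key _ _ (by omega) (by omega)).1]
            ring
        exact_mod_cast this.le
    rw [if_neg (by omega)]
    simp only [sum_sub_distrib, sum_add_distrib, ← mul_sum, a3]
    nlinarith [mul_le_mul_of_nonneg_left a1 hN.le,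
      mul_le_mul_of_nonneg_left a2 (show (0 : ℝ) ≤ 16000 * j ^ 3 by positivity)]

end Pool.Agent.P.MP_5fda20_pr.U
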