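import Pool.Agent.P.MP_5fda20_pr.Def

/-! The uniform spanning tree and balanced splits. -/

namespace Pool.Agent.P.MP_5fda20_pr

variable {V : Type} [Fintype V]

/-- The proportion of splittable trees among the spanning trees of `G`. -/
noncomputable def pUST (G : SimpleGraph V) : ℝ :=
  ({T | T ≤ G ∧ T.IsTree ∧ Splittable T}.ncard : ℝ) / ({T | T ≤ G ∧ T.IsTree}.ncard : ℝ)

end Pool.Agent.P.MP_5fda20_pr
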