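import Pool.Agent.P.MP_5fda20_pr.U.Dual
import Pool.Agent.P.MP_5fda20_pr.U.UDef

/-! Exchange of edges in trees. -/

namespace Pool.Agent.P.MP_5fda20_pr.U

open Finset SimpleGraph

variable {W : Type} [Fintype W] {T : SimpleGraph W} {L L' : W → ℤ} {u v u' v' u₀ v₀ : W}

omit [Fintype W] in
lemma two_comp (hc : T.Connected) (u₀ v₀ w : W) : (T.deleteEdges {s(u₀, v₀)}).Reachable u₀ w ∨
    (T.deleteEdges {s(u₀, v₀)}).Reachable v₀ w := by
  have := const_of (G := T) (fun w => (T.deleteEdges {s(u₀, v₀)}).Reachable u₀ w ∨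
    (T.deleteEdges {s(u₀, v₀)}).Reachable v₀ w) (fun s t h => ?_) (hc.preconnected u₀ w)
  · exact this ▸ Or.inl (Reachable.refl _)
  · by_cases e : s(s, t) = s(u₀, v₀)
    · rcases Sym2.eq_iff.mp e with ⟨rfl, rfl⟩ | ⟨rfl, rfl⟩ <;> simp
    · have : (T.deleteEdges {s(u₀, v₀)}).Adj s t := deleteEdges_adj.mpr ⟨h, e⟩
      exact propext ⟨Or.imp (·.trans this.reachable) (·.trans this.reachable),
        Or.imp (·.trans this.symm.reachable) (·.trans this.symm.reachable)⟩

/-- `L` is the indicator of the side of `u` -/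
structure Spl (T : SimpleGraph W) (L : W → ℤ) (u v : W) : Prop where
  val : ∀ w, L w = 0 ∨ L w = 1
  cst : ∀ s t, T.Adj s t → s(s, t) ≠ s(u, v) → L s = L t
  adj : T.Adj u v
  lu : L u = 1
  lv : L v = 0

omit [Fintype W] in
lemma Spl.of_tree (ht : T.IsTree) (ha : T.Adj u v)
    (h : ∀ s t, T.Adj s t → s(s, t) ≠ s(u, v) → L s = L t) (h1 : L u = 1) (h0 : L v = 0) :
    Spl T L u v := by
  refine ⟨fun w => ?_, h, ha, h1, h0⟩
  have k := fun {s t} => const_of (G := T.deleteEdges {s(u, v)}) L (s := s) (t := t)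
    fun s t h' => h s t (deleteEdges_adj.mp h').1 (deleteEdges_adj.mp h').2
  rcases two_comp ht.connected u v w with e | e
  · exact Or.inr (k e ▸ h1)
  · exact Or.inl (k e ▸ h0)

omit [Fintype W] in
lemma Spl.reach (h : Spl T L u v) (hc : T.Connected) (w : W) :
    ((T.deleteEdges {s(u, v)}).Reachable u w ↔ L w = 1) ∧
      ((T.deleteEdges {s(u, v)}).Reachable v w ↔ L w = 0) := by
  have k := fun {s t} => const_of (G := T.deleteEdges {s(u, v)}) L (s := s) (t := t)
    fun s t h' => h.cst s t (deleteEdges_adj.mp h').1 (deleteEdges_adj.mp h').2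
  have a := h.lu
  have b := h.lv
  rcases two_comp hc u v w with e | e
  · have := k e
    exact ⟨⟨fun _ => by omega, fun _ => e⟩, fun e' => by have := k e'; omega, fun _ => by omega⟩
  · have := k e
    exact ⟨⟨fun e' => by have := k e'; omega, fun _ => by omega⟩, fun _ => by omega, fun _ => e⟩

lemma Spl.split (h : Spl T L u v) (hc : T.Connected)
    (hs : ∑ w, L w = (Fintype.card W / 2 : ℕ)) : Splittable T := by
  classical
  have e1 : ((univ.filter fun w => L w = 1).card : ℤ) = ∑ w, L w := by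
    rw [card_filter]
    push_cast
    exact sum_congr rfl fun w _ => by rcases h.val w with e | e <;> simp [e]
  have e2 := card_filter_add_card_filter_not (s := univ) fun w => L w = 1
  rw [card_univ] at e2
  refine ⟨u, v, h.adj, ?_, ?_⟩
  · rw [show ((T.deleteEdges {s(u, v)}).connectedComponentMk u).supp =
      (univ.filter fun w => L w = 1 : Finset W) from Set.ext fun w => by
        simp [← (h.reach hc w).1, reachable_comm], Set.ncard_coe_finset]
    omega
  · rw [show ((T.deleteEdges {s(u, v)}).connectedComponentMk v).supp =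
      (univ.filter fun w => ¬ L w = 1 : Finset W) from Set.ext fun w => by
        have : ¬ L w = 1 ↔ L w = 0 := by have := h.val w; omega
        simp [this, ← (h.reach hc w).2, reachable_comm], Set.ncard_coe_finset]
    omega

omit [Fintype W] in
lemma Spl.swap (h : Spl T L u₀ v₀) (ht : T.IsTree) (huv : L u = L v + 1) :
    (T.deleteEdges {s(u₀, v₀)} ⊔ edge u v).IsTree ∧
      Spl (T.deleteEdges {s(u₀, v₀)} ⊔ edge u v) L u v ∧
      (T.deleteEdges {s(u₀, v₀)} ⊔ edge u v).deleteEdges {s(u, v)} ⊔ edge u₀ v₀ = T := by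
  have hu : L u = 1 := by have := h.val u; have := h.val v; omega
  have hv : L v = 0 := by omega
  have hne : u ≠ v := by rintro rfl; omega
  have r := h.reach ht.connected
  have hn : ¬ (T.deleteEdges {s(u₀, v₀)}).Reachable u v := fun e => by
    have := (r v).1.mp (((r u).1.mpr hu).trans e); omega
  have ha : (T.deleteEdges {s(u₀, v₀)} ⊔ edge u v).Adj u v := Or.inr (by simp [edge_adj, hne])
  refine ⟨⟨(connected_iff_exists_forall_reachable _).mpr ⟨u, fun w => ?_⟩,
    (ht.isAcyclic.anti (deleteEdges_le _)).sup_edge_of_not_reachable hn⟩,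
    ⟨h.val, ?_, ha, hu, hv⟩, ?_⟩
  · rcases h.val w with e | e
    · exact ha.reachable.trans ((((r v).2.mpr hv).symm.trans ((r w).2.mpr e)).mono le_sup_left)
    · exact (((r u).1.mpr hu).symm.trans ((r w).1.mpr e)).mono le_sup_left
  · rintro s t (e | e) e'
    · exact h.cst s t (deleteEdges_adj.mp e).1 (deleteEdges_adj.mp e).2
    · exact absurd (Sym2.eq_iff.mpr (edge_adj .. |>.mp e).1) e'
  · ext s t
    simp only [sup_adj, deleteEdges_adj, edge_adj, Set.mem_singleton_iff, ← Sym2.eq_iff]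
    constructor
    · rintro (⟨⟨e, -⟩ | ⟨e, -⟩, e'⟩ | ⟨e, -⟩)
      · exact e
      · exact absurd e e'
      · exact (T.adj_congr_of_sym2 e).mpr h.adj
    · intro e
      by_cases e' : s(s, t) = s(u₀, v₀)
      · exact Or.inr ⟨e', e.ne⟩
      · refine Or.inl ⟨Or.inl ⟨e, e'⟩, fun e2 => ?_⟩
        have := h.cst s t e e'
        rcases Sym2.eq_iff.mp e2 with ⟨rfl, rfl⟩ | ⟨rfl, rfl⟩ <;> omega

lemma Spl.uniq (h : Spl T L u v) (h' : Spl T L' u' v') (hc : T.Connected) {o r : W}
    (a1 : L o = 1) (a2 : L' o = 1) (a3 : L r = 0) (a4 : L' r = 0) (hs : ∑ w, L w = ∑ w, L' w) :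
    L = L' ∧ u = u' ∧ v = v' := by
  have e : L = L' := by
    by_contra hne
    obtain ⟨w₁, b1⟩ : ∃ w, L' w < L w := by
      by_contra! hh
      exact hne (funext fun w => (sum_eq_sum_iff_of_le fun w _ => hh w).mp hs w (mem_univ w))
    obtain ⟨w₂, b2⟩ : ∃ w, L w < L' w := by
      by_contra! hh
      exact hne (funext fun w =>
        ((sum_eq_sum_iff_of_le fun w _ => hh w).mp hs.symm w (mem_univ w)).symm)
    let c : W → Bool × Bool := fun w => (L w = 1, L' w = 1)
    have key : ∀ a b a' b' : Bool × Bool, ∃ c₁ c₂ c₃ : Bool,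
        (fun s : Bool × Bool → Bool => s a = s b ∧ s a' = s b' ∧
          ¬ (s (true, true) = s (false, false) ∧ s (true, true) = s (true, false) ∧
          s (true, true) = s (false, true)))
        fun z => if z.1 then z.2 || c₁ else if z.2 then c₂ else c₃ := by decide
    obtain ⟨s, s1, s2, s3⟩ : ∃ s : Bool × Bool → Bool, s (c u) = s (c v) ∧ s (c u') = s (c v') ∧
        ¬ (s (true, true) = s (false, false) ∧ s (true, true) = s (true, false) ∧
          s (true, true) = s (false, true)) := by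
      obtain ⟨c₁, c₂, c₃, h⟩ := key (c u) (c v) (c u') (c v')
      exact ⟨fun z => if z.1 then z.2 || c₁ else if z.2 then c₂ else c₃, h⟩
    have k := fun w => const_of (G := T) (fun w => s (c w)) (fun x y ha => by
      by_cases e : s(x, y) = s(u, v)
      · rcases Sym2.eq_iff.mp e with ⟨rfl, rfl⟩ | ⟨rfl, rfl⟩
        exacts [s1, s1.symm]
      by_cases e' : s(x, y) = s(u', v')
      · rcases Sym2.eq_iff.mp e' with ⟨rfl, rfl⟩ | ⟨rfl, rfl⟩
        exacts [s2, s2.symm]
      simp only [c, h.cst x y ha e, h'.cst x y ha e']) (hc.preconnected o w)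
    have c1 : L w₁ = 1 ∧ L' w₁ = 0 := by have := h.val w₁; have := h'.val w₁; omega
    have c2 : L w₂ = 0 ∧ L' w₂ = 1 := by have := h.val w₂; have := h'.val w₂; omega
    exact s3 ⟨by simpa [c, a1, a2, a3, a4] using k r, by simpa [c, a1, a2, c1] using k w₁,
      by simpa [c, a1, a2, c2] using k w₂⟩
  subst e
  have a := h.lu
  have b := h.lv
  have a' := h'.lu
  by_cases e : s(u, v) = s(u', v')
  · rcases Sym2.eq_iff.mp e with ⟨rfl, rfl⟩ | ⟨rfl, rfl⟩
    · exact ⟨rfl, rfl, rfl⟩
    · omega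
  · have := h'.cst u v h.adj e
    omega

end Pool.Agent.P.MP_5fda20_pr.U
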