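import Pool.Agent.P.MP_5fda20_pr.U.Spl
import Pool.Agent.P.MP_5fda20_pr.U.Ker

/-! Balanced splits from dual crossings. -/

namespace Pool.Agent.P.MP_5fda20_pr.U

open Finset SimpleGraph MP_a28080_pr

/-- contribution of a step to the winding function -/
def ell (x y z : V) : ℤ := if z.1 = min x.1 y.1 ∧ x.2 ≤ z.2 then y.1 - x.1 else 0

/-- signed passage through an edge -/
def cr (x y p q : V) : ℤ := (if x = p ∧ y = q then 1 else 0) - if x = q ∧ y = p then 1 else 0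

/-- boundary term -/
def ch (p q w : V) : ℤ := if w.1 = p.1 ∧ w.2 ≤ min p.2 q.2 then q.2 - p.2 else 0

/-- the winding function of an orbit -/
def LL (f : V → V) (k : ℕ) (a z : V) : ℤ :=
  (if z.1 < a.1 then 1 else 0) + ∑ m ∈ range k, ell (f^[m] a) (f^[m + 1] a) z

lemma lf_cases {p q : V} (hq : q ∈ nb p) :
    (q = (p.1 + 1, p.2) ∧ lf p q = p ∧ lf q p = (p.1, p.2 - 1)) ∨
    (q = (p.1 - 1, p.2) ∧ lf p q = (p.1 - 1, p.2 - 1) ∧ lf q p = (p.1 - 1, p.2)) ∨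
    (q = (p.1, p.2 + 1) ∧ lf p q = (p.1 - 1, p.2) ∧ lf q p = p) ∨
    (q = (p.1, p.2 - 1) ∧ lf p q = (p.1, p.2 - 1) ∧ lf q p = (p.1 - 1, p.2 - 1)) := by
  simp only [nb, mem_insert, mem_singleton] at hq
  refine hq.imp ?_ (Or.imp ?_ (Or.imp ?_ ?_)) <;> rintro rfl <;> refine ⟨rfl, ?_, ?_⟩ <;>
    ext <;> simp only [lf] <;> omega

lemma ell_jump {x y p q : V} (hy : y ∈ nb x ∨ y = x) (hq : q ∈ nb p) :
    ell x y (lf p q) - ell x y (lf q p) = cr x y p q + (ch p q y - ch p q x) := by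
  simp only [nb, mem_insert, mem_singleton] at hy
  rcases lf_cases hq with ⟨e, e1, e2⟩ | ⟨e, e1, e2⟩ | ⟨e, e1, e2⟩ | ⟨e, e1, e2⟩ <;>
  rw [e1, e2, e] <;> rcases hy with (rfl | rfl | rfl | rfl) | rfl <;>
  simp only [Prod.ext_iff, ell, cr, ch] <;> split_ifs <;> omega

variable {n : ℕ} {f : V → V} {k : ℕ} {x : ℤ}

lemma step_nb {D : Finset V} (hf : f ∈ For D nb) (z : V) : f z ∈ nb z ∨ f z = z := by
  by_cases h : z ∈ D
  exacts [Or.inl ((mem_For.mp hf).2.1 z h), Or.inr ((mem_For.mp hf).1 z h)]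

lemma LL_jump (hf : f ∈ For (Dm n 1) nb) (he : (f^[k] (x, 1)).2 = n) {p q : V} (hq : q ∈ nb p)
    (hp : p ∈ Dm n 1) : LL f k (x, 1) (lf p q) - LL f k (x, 1) (lf q p) =
      cr (x, 0) (x, 1) p q + ∑ m ∈ range k, cr (f^[m] (x, 1)) (f^[m + 1] (x, 1)) p q := by
  have e := sum_range_sub (fun m => ch p q (f^[m] (x, 1))) k
  have e2 : ∑ m ∈ range k, (ell (f^[m] (x, 1)) (f^[m + 1] (x, 1)) (lf p q) -
      ell (f^[m] (x, 1)) (f^[m + 1] (x, 1)) (lf q p)) = _ :=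
    sum_congr rfl fun m _ => ell_jump (by
      rw [Function.iterate_succ_apply']; exact step_nb hf _) hq
  rw [sum_add_distrib, e, sum_sub_distrib] at e2
  have e3 : (if (lf p q).1 < x then 1 else 0) - (if (lf q p).1 < x then 1 else 0) +
      (ch p q (f^[k] (x, 1)) - ch p q (x, 1)) = cr (x, 0) (x, 1) p q := by
    generalize f^[k] (x, 1) = z at he
    rw [mem_Dm] at hp
    rcases lf_cases hq with ⟨e, e1, e2⟩ | ⟨e, e1, e2⟩ | ⟨e, e1, e2⟩ | ⟨e, e1, e2⟩ <;>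
    rw [e1, e2, e] <;> simp only [Prod.ext_iff, cr, ch] <;> split_ifs <;> omega
  simp only [LL, Function.iterate_zero_apply] at *
  linarith

lemma LL_bot (hf : f ∈ For (Dm n 1) nb) (a : V) (i : ℤ) :
    LL f k a (i, 0) = if i < a.1 then 1 else 0 := by
  rw [LL, sum_eq_zero fun m _ => ?_, add_zero]
  rw [Function.iterate_succ_apply', ell]
  by_cases h : f^[m] a ∈ Dm n 1
  · rw [mem_Dm] at h
    exact if_neg (by simp only []; omega)
  · simp [(mem_For.mp hf).1 _ h]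

lemma cnt_lt {c : ℤ} (h0 : 0 ≤ c) (n : ℕ) :
    ∑ i : Fin n, (if ((i : ℕ) : ℤ) < c then 1 else 0 : ℤ) = min c n := by
  rw [Fin.sum_univ_eq_sum_range (fun i => if (i : ℤ) < c then (1 : ℤ) else 0)]
  induction n with
  | zero => simp [h0]
  | succ n ih => rw [sum_range_succ, ih]; split_ifs <;> omega

lemma LL_sum (hf : f ∈ For (Dm n 1) nb) {a : V} (h0 : 0 ≤ a.1) (h1 : a.1 ≤ n) :
    ∑ s : Fin n × Fin n, LL f k a (co s) = n * a.1 +
      ∑ m ∈ range k, ((f^[m + 1] a).1 - (f^[m] a).1) * (n - (f^[m] a).2) := by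
  simp only [LL, sum_add_distrib]
  refine congrArg₂ _ ?_ ?_
  · rw [Fintype.sum_prod_type_right]
    exact (sum_congr rfl fun _ _ => cnt_lt h0 n).trans (by simp [h1])
  · rw [sum_comm]
    refine sum_congr rfl fun m _ => ?_
    rw [Function.iterate_succ_apply']
    generalize f^[m] a = z
    by_cases h : z ∈ Dm n 1
    · have h2 := mem_nb.mp ((mem_For.mp hf).2.1 z h)
      rw [mem_Dm] at h
      rw [Fintype.sum_prod_type, sum_eq_single ⟨(min z.1 (f z).1).toNat, by omega⟩]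
      · have := cnt_lt (c := z.2) (by omega) n
        have e : ∀ j : Fin n, ell z (f z) (co (⟨(min z.1 (f z).1).toNat, by omega⟩, j)) =
            ((f z).1 - z.1) * (1 - if ((j : ℕ) : ℤ) < z.2 then 1 else 0) := fun j => by
          simp only [ell, co]
          split_ifs <;> omega
        simp only [e, ← mul_sum, sum_sub_distrib, this]
        simp [show z.2 ≤ n by omega]
      · refine fun i _ hi => sum_eq_zero fun j _ => if_neg fun h' => hi (Fin.ext ?_)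
        simp only [co] at h' ⊢
        omega
      · simp
    · simp [ell, (mem_For.mp hf).1 _ h]

lemma acc_stB {D : Finset V} (hf : f ∈ For D nb) (c : ℤ) (k : ℕ) : ∀ (a : V) (σ : ℤ × ℕ),
    acc (stB c) f k a σ =
      (σ.1 + ∑ m ∈ range k, ((f^[m + 1] a).1 - (f^[m] a).1) * (c - (f^[m] a).2),
        σ.2 + ((range k).filter fun m => f^[m] a ∈ D).card) := by
  induction k with
  | zero => simp [acc]
  | succ k ih =>
    intro a σ
    by_cases h : a ∈ D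
    · rw [acc, if_neg (nb_ne ((mem_For.mp hf).2.1 a h)), ih, card_filter, card_filter,
        sum_range_succ', sum_range_succ']
      simp only [stB, Function.iterate_succ_apply, Function.iterate_zero_apply, h, if_true]
      rw [Prod.mk.injEq]
      exact ⟨by ring, by rw [add_right_comm, add_assoc]; rfl⟩
    · simp [acc, (mem_For.mp hf).1 a h, iter_fix (mem_For.mp hf).1 h, h]

lemma spl_bot {m : ℕ} (hf : f ∈ For (Dm (m + 1 : ℕ) 1) nb) (hx : (x, 1) ∈ Dm (m + 1 : ℕ) 1)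
    (he : (f^[k] (x, 1)).2 = (m + 1 : ℕ)) : ∃ u₀ v₀, co u₀ = (x - 1, 0) ∧ co v₀ = (x, 0) ∧
      Spl (Pr (m + 1) (gr f)) (fun s => LL f k (x, 1) (co s)) u₀ v₀ := by
  have hq : (x, (0 : ℤ)) ∈ nb (x, 1) := mem_nb.mpr (by simp)
  obtain ⟨v₀, u₀, e1, e2, e3, e4, e5⟩ := ex_co hx hq
  have b1 : co u₀ = (x - 1, 0) := by rw [e2]; ext <;> simp only [lf] <;> omega
  have b2 : co v₀ = (x, 0) := by rw [e1]; ext <;> simp only [lf] <;> omega
  have h0 : (x, (0 : ℤ)) ∉ Dm (m + 1 : ℕ) 1 := by simp [mem_Dm]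
  refine ⟨u₀, v₀, b1, b2, Spl.of_tree (Pr_tree hf) ⟨e3.symm, fun h => ?_⟩ (fun s t ha hne => ?_)
    (by simp [b1, LL_bot hf]) (by simp [b2, LL_bot hf])⟩
  · rw [e4, e5] at h
    rcases gr_cases hf h with ⟨a, -⟩ | ⟨-, a⟩
    · exact h0 a
    · cases k with
      | zero => rw [mem_Dm] at hx; simp only [Function.iterate_zero_apply] at he hx; omega
      | succ k =>
        rw [Function.iterate_succ_apply, a, iter_fix (mem_For.mp hf).1 h0] at he
        simp only [] at he; omega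
  · have key : ∀ s t, (Pr (m + 1) (gr f)).Adj s t → s(s, t) ≠ s(u₀, v₀) →
        du (co s) (co t) ∈ Dm (m + 1 : ℕ) 1 → LL f k (x, 1) (co s) = LL f k (x, 1) (co t) := by
      intro s t ha hne hp
      have h' := grid_adj.mp ha.1
      have := LL_jump hf he (nb_du h') hp
      rw [lf_du h', lf_du (nb_symm h'), sum_eq_zero fun j _ => ?_, cr, if_neg, if_neg] at this
      · omega
      · rintro ⟨a, b⟩
        refine hne (Sym2.eq_iff.mpr (Or.inr ⟨co_inj ?_, co_inj ?_⟩))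
        · rw [e1, a, b, lf_du h']
        · rw [e2, a, b, lf_du (nb_symm h')]
      · rintro ⟨a, -⟩
        exact h0 (a ▸ hp)
      · have hn := nb_ne (nb_du h')
        rw [Function.iterate_succ_apply', cr, if_neg, if_neg, sub_zero]
        · rintro ⟨a, b⟩
          exact ha.2 (gr_adj.mpr ⟨hn.symm, Or.inr (by rw [← a, b])⟩)
        · rintro ⟨a, b⟩
          exact ha.2 (gr_adj.mpr ⟨hn.symm, Or.inl (by rw [← a, b])⟩)
    rcases du_mem ha.1 with h | h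
    · exact key s t ha hne h
    · exact (key t s ha.symm (by rwa [Sym2.eq_swap]) h).symm

lemma iter_inj {D : Finset V} (hf : f ∈ For D nb) {a : V} {i j : ℕ} (hi : f^[i] a ∈ D)
    (h : f^[i] a = f^[j] a) : i = j := by
  by_contra hne
  rcases lt_or_gt_of_ne hne with l | l
  · obtain ⟨d, rfl⟩ := Nat.exists_eq_add_of_lt l
    exact not_periodic hf (k := d + 1) (by omega) (by
      rw [← Function.iterate_add_apply, h]; congr 1; omega) hi
  · obtain ⟨d, rfl⟩ := Nat.exists_eq_add_of_lt l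
    exact not_periodic hf (k := d + 1) (by omega) (by
      conv_lhs => rw [h, ← Function.iterate_add_apply]
      congr 1; omega) hi

lemma jump_one (hf : f ∈ For (Dm n 1) nb) (he : (f^[k] (x, 1)).2 = n) {j : ℕ} (hj : j < k)
    (hp : f^[j] (x, 1) ∈ Dm n 1) : LL f k (x, 1) (lf (f^[j] (x, 1)) (f^[j + 1] (x, 1))) =
      LL f k (x, 1) (lf (f^[j + 1] (x, 1)) (f^[j] (x, 1))) + 1 := by
  have hq : f^[j + 1] (x, 1) ∈ nb (f^[j] (x, 1)) := by
    rw [Function.iterate_succ_apply']; exact (mem_For.mp hf).2.1 _ hp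
  have h0 : (x, (0 : ℤ)) ∉ Dm n 1 := by simp [mem_Dm]
  have := LL_jump hf he hq hp
  rw [sum_eq_single_of_mem j (mem_range.mpr hj) fun i _ hi => ?_, cr, cr, if_neg, if_neg,
    if_pos ⟨rfl, rfl⟩, if_neg fun h => nb_ne hq h.2] at this
  · omega
  · rintro ⟨a, -⟩
    obtain ⟨d, rfl⟩ := Nat.exists_eq_add_of_lt hj
    rw [show j + d + 1 = d + (j + 1) by omega, Function.iterate_add_apply, ← a,
      iter_fix (mem_For.mp hf).1 h0] at he
    rw [mem_Dm] at hp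
    simp only [] at he; omega
  · rintro ⟨a, -⟩
    exact h0 (a ▸ hp)
  · rw [cr, if_neg fun h => hi (iter_inj hf hp h.1.symm).symm, if_neg, sub_zero]
    rintro ⟨a, b⟩
    refine not_periodic hf two_pos ?_ hp
    rw [Function.iterate_succ_apply', a, Function.iterate_succ_apply'] at b
    exact b

lemma area_range {m : ℕ} (hf : f ∈ For (Dm (m + 1 : ℕ) 1) nb) (hx : (x, 1) ∈ Dm (m + 1 : ℕ) 1)
    (he : (f^[k] (x, 1)).2 = (m + 1 : ℕ)) (σ : ℤ × ℕ) :
    0 ≤ (m + 1 : ℕ) * x + (acc (stB (m + 1 : ℕ)) f k (x, 1) σ).1 - σ.1 ∧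
      (m + 1 : ℕ) * x + (acc (stB (m + 1 : ℕ)) f k (x, 1) σ).1 - σ.1 ≤ (m + 1 : ℕ) ^ 2 := by
  obtain ⟨u₀, v₀, -, -, h⟩ := spl_bot hf hx he
  rw [mem_Dm] at hx
  have e := LL_sum (k := k) hf (a := (x, 1)) (by omega) (by omega)
  have h1 : 0 ≤ ∑ s : Fin (m + 1) × Fin (m + 1), LL f k (x, 1) (co s) :=
    sum_nonneg fun s _ => by have := h.val s; omega
  have h2 := sum_le_card_nsmul univ (fun s : Fin (m + 1) × Fin (m + 1) => LL f k (x, 1) (co s)) 1
    fun s _ => by have := h.val s; omega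
  simp only [card_univ, Fintype.card_prod, Fintype.card_fin, nsmul_eq_mul, mul_one,
    Nat.cast_mul] at h2
  rw [acc_stB hf]
  constructor <;> nlinarith

/-- the data attached to a step of a balanced crossing -/
def Sp (n k : ℕ) (x : ℤ) (f : V → V) (j : ℕ) (T : SimpleGraph (Fin n × Fin n)) : Prop :=
  (T ≤ grid n ∧ T.IsTree ∧ Splittable T) ∧ ∃ u v u₀ v₀, co u₀ = (x - 1, 0) ∧ co v₀ = (x, 0) ∧
    du (co u) (co v) = f^[j] (x, 1) ∧ Spl T (fun s => LL f k (x, 1) (co s)) u v ∧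
    T.deleteEdges {s(u, v)} ⊔ edge u₀ v₀ = Pr n (gr f) ∧
    ∑ s : Fin n × Fin n, LL f k (x, 1) (co s) = (n * n / 2 : ℕ)

lemma ex_Sp {m : ℕ} (hf : f ∈ For (Dm (m + 1 : ℕ) 1) nb) (hx : (x, 1) ∈ Dm (m + 1 : ℕ) 1)
    (he : (f^[k] (x, 1)).2 = (m + 1 : ℕ)) {j : ℕ} (hj : j < k)
    (hp : f^[j] (x, 1) ∈ Dm (m + 1 : ℕ) 1)
    (hs : (acc (stB (m + 1 : ℕ)) f k (x, 1)
      ((m + 1 : ℕ) * x - ((m + 1) * (m + 1) / 2 : ℕ), 0)).1 = 0) : ∃ T, Sp (m + 1) k x f j T := by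
  obtain ⟨u₀, v₀, b1, b2, h⟩ := spl_bot hf hx he
  have hq : f^[j + 1] (x, 1) ∈ nb (f^[j] (x, 1)) := by
    rw [Function.iterate_succ_apply']; exact (mem_For.mp hf).2.1 _ hp
  obtain ⟨u, v, e1, e2, e3, e4, -⟩ := ex_co hp hq
  obtain ⟨t1, t2, t3⟩ := h.swap (u := u) (v := v) (Pr_tree hf) (by
    simp only [e1, e2]; exact jump_one hf he hj hp)
  have e : ∑ s : Fin (m + 1) × Fin (m + 1), LL f k (x, 1) (co s) = ((m + 1) * (m + 1) / 2 : ℕ) := by
    rw [mem_Dm] at hx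
    rw [acc_stB hf] at hs
    rw [LL_sum hf (by omega) (by omega)]
    linarith
  exact ⟨_, ⟨sup_le ((deleteEdges_le _).trans (show Pr _ _ ≤ _ from fun _ _ h => h.1))
    ((edge_le_iff _).mpr (Or.inr e3)),
    t1, t2.split t1.connected (by simpa using e)⟩, u, v, u₀, v₀, b1, b2, e4, t2, t3, e⟩

lemma Sp.uniq {m : ℕ} {T : SimpleGraph (Fin (m + 1) × Fin (m + 1))} {x' : ℤ} {g : V → V} {i j : ℕ}
    (h : Sp (m + 1) k x f i T) (h' : Sp (m + 1) k x' g j T) (hf : f ∈ For (Dm (m + 1 : ℕ) 1) nb)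
    (hg : g ∈ For (Dm (m + 1 : ℕ) 1) nb) (hx : (x, 1) ∈ Dm (m + 1 : ℕ) 1)
    (hx' : (x', 1) ∈ Dm (m + 1 : ℕ) 1) (hp : f^[i] (x, 1) ∈ Dm (m + 1 : ℕ) 1) :
    x = x' ∧ f = g ∧ i = j := by
  obtain ⟨⟨-, ht, -⟩, u, v, u₀, v₀, a1, a2, a3, a4, a5, a6⟩ := h
  obtain ⟨-, u', v', u₁, v₁, b1, b2, b3, b4, b5, b6⟩ := h'
  rw [mem_Dm] at hx hx'
  dsimp only at hx hx'
  have bot : ∀ {f : V → V}, f ∈ For (Dm (m + 1 : ℕ) 1) nb → ∀ (x : ℤ) (i : Fin (m + 1)),
      LL f k (x, 1) (co (i, 0)) = if ((i : ℕ) : ℤ) < x then 1 else 0 :=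
    fun hf x i => LL_bot hf _ _
  obtain ⟨e, rfl, rfl⟩ := a4.uniq b4 ht.connected (o := (0, 0)) (r := (Fin.last m, 0))
    (by rw [bot hf]; exact if_pos (by simp; omega)) (by rw [bot hg]; exact if_pos (by simp; omega))
    (by rw [bot hf]; exact if_neg (by simp; omega)) (by rw [bot hg]; exact if_neg (by simp; omega))
    (a6.trans b6.symm)
  obtain rfl : x = x' := by
    have c := congrFun e (⟨(min x x').toNat, by omega⟩, 0)
    rw [bot hf, bot hg] at c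
    dsimp only at c
    split_ifs at c <;> omega
  obtain rfl := co_inj (a1.trans b1.symm)
  obtain rfl := co_inj (a2.trans b2.symm)
  obtain rfl := Pr_inj hf hg (a5.symm.trans b5)
  exact ⟨rfl, rfl, iter_inj hf (a3 ▸ hp) (a3.symm.trans b3)⟩

theorem pUST_ge (m : ℕ) {ω : ℕ → ℝ} (h1 : ∀ l, ω l ≤ l) :
    ∑ x ∈ Icc (1 : ℤ) m, E (fun _ _ => 1) (stB (m + 1 : ℕ)) (Ph (m + 1 : ℕ) ω) (Dm (m + 1 : ℕ) 1)
      (x, 1) ((m + 1 : ℕ) * x - ((m + 1) * (m + 1) / 2 : ℕ), 0) ≤ pUST (grid (m + 1)) := by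
  classical
  set D := Dm (m + 1 : ℕ) 1 with hD
  set k := D.card
  let S := (Icc (1 : ℤ) m ×ˢ For D nb ×ˢ range k).filter fun z =>
    ((z.2.1^[k] (z.1, 1)).2 = ((m + 1 : ℕ) : ℤ) ∧ (acc (stB (m + 1 : ℕ)) z.2.1 k (z.1, 1)
      ((m + 1 : ℕ) * z.1 - ((m + 1) * (m + 1) / 2 : ℕ), 0)).1 = 0) ∧ z.2.1^[z.2.2] (z.1, 1) ∈ D
  have hS : ∀ z ∈ S, z.2.1 ∈ For D nb ∧ (z.1, 1) ∈ D ∧ z.2.1^[z.2.2] (z.1, 1) ∈ D ∧
      ∃ T, Sp (m + 1) k z.1 z.2.1 z.2.2 T := fun z hz => by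
    rw [mem_filter, mem_product, mem_product, mem_Icc, mem_range] at hz
    obtain ⟨⟨a, b, c⟩, ⟨d, e⟩, g⟩ := hz
    have hx : (z.1, 1) ∈ D := mem_Dm.mpr (by dsimp only; omega)
    exact ⟨b, hx, g, ex_Sp b hx d c g e⟩
  choose! s1 s2 s3 T s4 using hS
  have c1 : S.card ≤ {T | T ≤ grid (m + 1) ∧ T.IsTree ∧ Splittable T}.ncard := by
    rw [← Set.ncard_coe_finset]
    refine Set.ncard_le_ncard_of_injOn T (fun z hz => (s4 z hz).1) fun z hz w hw e => ?_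
    obtain ⟨a, b, c⟩ := (s4 z hz).uniq (e ▸ s4 w hw) (s1 z hz) (s1 w hw) (s2 z hz) (s2 w hw)
      (s3 z hz)
    exact Prod.ext a (Prod.ext b c)
  have c2 : {T | T ≤ grid (m + 1) ∧ T.IsTree} = (fun f => Pr (m + 1) (gr f)) '' (For D nb) := by
    ext T
    constructor
    · exact fun h => Pr_surj h.1 h.2
    · rintro ⟨f, hf, rfl⟩
      exact ⟨fun _ _ h => h.1, Pr_tree hf⟩
  rw [pUST, c2, Set.InjOn.ncard_image fun f hf g hg => Pr_inj hf hg, Set.ncard_coe_finset]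
  change _ ≤ _ / Z D
  rw [le_div_iff₀' (Z_pos D), mul_sum]
  refine le_trans ?_ (Nat.cast_le.mpr c1)
  rw [card_filter, sum_product]
  push_cast
  refine sum_le_sum fun x _ => ?_
  rw [E_forest (Φ := Ph _ ω) D k le_rfl (fun z hz σ => if_neg fun h => by
    have := mem_Dm.mp hz; omega), sum_product]
  refine sum_le_sum fun f hf => ?_
  rw [Ph]
  split_ifs with h
  · refine (h1 _).trans_eq ?_
    simp only [h, true_and]
    rw [acc_stB hf, zero_add, card_filter]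
    push_cast
    rfl
  · exact sum_nonneg fun _ _ => by split_ifs <;> norm_num

end Pool.Agent.P.MP_5fda20_pr.U
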